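import Pool.Agent.Work.MP_b0b133_an.D5.FIf

/-!
# The functional inequality
-/

set_option autoImplicit false
open MeasureTheory Complex Filter Topology
open scoped ENNReal ComplexConjugate

namespace Pool.Agent.Cone5.FI

open Alg (integrable norm_le_one ev_smul ev_sub ev_sum AP_smul)

variable {μ : Measure C6} {δ : ℝ}

theorem evz_smul (z : ℂ) (x : C6) (c : ℂ) (P : Poly) : evz z x (c • P) = c * evz z x P := by
  unfold evz
  rw [ev_smul]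
  ring

theorem evz_sub (z : ℂ) (x : C6) (P Q : Poly) : evz z x (P - Q) = evz z x P - evz z x Q := by
  unfold evz
  rw [ev_sub]
  ring

theorem evz_sum2 (z : ℂ) (x : C6) (P : Fin 6 → Fin 6 → Poly) :
    evz z x (∑ i, ∑ j, P i j) = ∑ i, ∑ j, evz z x (P i j) := by
  unfold evz
  rw [ev_sum, Finset.mul_sum]
  refine Finset.sum_congr rfl fun i _ => ?_
  rw [ev_sum, Finset.mul_sum]

theorem evz_neg_deriv (x : C6) (P : Poly) (t : ℝ) :
    HasDerivAt (fun s : ℝ => -(evz (s : ℂ) x P)) (evz (t : ℂ) x (AP P)) t := by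
  refine HasDerivAt.congr_deriv (evz_real x P t).neg ?_
  ring

/-- the density at depth `y` -/
noncomputable def D0 (δ : ℝ) (ψ : Poly) (y : ℝ) (x : C6) : ℝ :=
  ps0 δ (evz y x (AP ψ)) (evz y x ((2 : ℂ) • ψ)) +
    1 / 2 * ∑ i, ∑ j, ps1 δ (evz y x (AP ψ)) (evz y x (LP i j ψ))

noncomputable def D1 (δ : ℝ) (ψ : Poly) (y : ℝ) (x : C6) : ℝ :=
  ps0d δ (evz y x (AP ψ)) (evz y x ((2 : ℂ) • ψ)) (-(evz y x (AP (AP ψ))))
    (-(evz y x (AP ((2 : ℂ) • ψ)))) +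
    1 / 2 * ∑ i, ∑ j, ps1d δ (evz y x (AP ψ)) (evz y x (LP i j ψ)) (-(evz y x (AP (AP ψ))))
      (-(evz y x (AP (LP i j ψ))))

noncomputable def D2 (δ : ℝ) (ψ : Poly) (y : ℝ) (x : C6) : ℝ :=
  ps0dd δ (evz y x (AP ψ)) (evz y x ((2 : ℂ) • ψ)) (-(evz y x (AP (AP ψ))))
    (-(evz y x (AP ((2 : ℂ) • ψ)))) (evz y x (AP (AP (AP ψ)))) (evz y x (AP (AP ((2 : ℂ) • ψ)))) +
    1 / 2 * ∑ i, ∑ j, ps1dd δ (evz y x (AP ψ)) (evz y x (LP i j ψ)) (-(evz y x (AP (AP ψ))))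
      (-(evz y x (AP (LP i j ψ)))) (evz y x (AP (AP (AP ψ)))) (evz y x (AP (AP (LP i j ψ))))

theorem c_D0 (hδ : 0 < δ) (ψ : Poly) : Continuous (fun p : ℝ × C6 => D0 δ ψ p.1 p.2) :=
  (c_ps0 (c_evz_y _) (c_evz_y _)).add (continuous_const.mul
    (continuous_finsetSum _ fun _ _ => continuous_finsetSum _ fun _ _ =>
      c_ps1 hδ (c_evz_y _) (c_evz_y _)))

theorem c_D1 (hδ : 0 < δ) (ψ : Poly) : Continuous (fun p : ℝ × C6 => D1 δ ψ p.1 p.2) :=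
  (c_ps0d hδ (c_evz_y _) (c_evz_y _) (c_evz_y _).neg (c_evz_y _).neg).add (continuous_const.mul
    (continuous_finsetSum _ fun _ _ => continuous_finsetSum _ fun _ _ =>
      c_ps1d hδ (c_evz_y _) (c_evz_y _) (c_evz_y _).neg (c_evz_y _).neg))

theorem c_D2 (hδ : 0 < δ) (ψ : Poly) : Continuous (fun p : ℝ × C6 => D2 δ ψ p.1 p.2) :=
  (c_ps0dd hδ (c_evz_y _) (c_evz_y _) (c_evz_y _).neg (c_evz_y _).neg (c_evz_y _)
    (c_evz_y _)).add (continuous_const.mul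
    (continuous_finsetSum _ fun _ _ => continuous_finsetSum _ fun _ _ =>
      c_ps1dd hδ (c_evz_y _) (c_evz_y _) (c_evz_y _).neg (c_evz_y _).neg (c_evz_y _)
        (c_evz_y _)))

theorem hasDerivAt_sum2 {f : Fin 6 → Fin 6 → ℝ → ℝ} {f' : Fin 6 → Fin 6 → ℝ} {t : ℝ}
    (h : ∀ i j, HasDerivAt (f i j) (f' i j) t) :
    HasDerivAt (fun s => ∑ i, ∑ j, f i j s) (∑ i, ∑ j, f' i j) t :=
  HasDerivAt.fun_sum fun i _ => HasDerivAt.fun_sum fun j _ => h i j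

theorem D0_deriv (hδ : 0 < δ) (ψ : Poly) (s : ℝ) (x : C6) :
    HasDerivAt (fun r => D0 δ ψ r x) (D1 δ ψ s x) s :=
  (ps0_d1 hδ (evz_real x _ s) (evz_real x _ s)).add
    ((hasDerivAt_sum2 fun _ _ => ps1_d1 hδ (evz_real x _ s) (evz_real x _ s)).const_mul _)

theorem D1_deriv (hδ : 0 < δ) (ψ : Poly) (s : ℝ) (x : C6) :
    HasDerivAt (fun r => D1 δ ψ r x) (D2 δ ψ s x) s :=
  (ps0_d2 hδ (F' := fun s : ℝ => -(evz (s : ℂ) x (AP (AP ψ))))
      (H' := fun s : ℝ => -(evz (s : ℂ) x (AP ((2 : ℂ) • ψ))))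
      (evz_real x _ s) (evz_real x _ s) (evz_neg_deriv x _ s) (evz_neg_deriv x _ s)).add
    ((hasDerivAt_sum2 fun i j => ps1_d2 hδ (F' := fun s : ℝ => -(evz (s : ℂ) x (AP (AP ψ))))
      (H' := fun s : ℝ => -(evz (s : ℂ) x (AP (LP i j ψ))))
      (evz_real x _ s) (evz_real x _ s) (evz_neg_deriv x _ s) (evz_neg_deriv x _ s)).const_mul _)

/-- the sum of the integrands with vanishing integral -/
noncomputable def Zt (δ : ℝ) (ψ : Poly) (y : ℝ) (x : C6) : ℝ :=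
  (ps0dd δ (evz y x (AP ψ)) (evz y x ((2 : ℂ) • ψ)) (-(I * evz y x (AP (AP ψ))))
        (-(I * evz y x (AP ((2 : ℂ) • ψ)))) (-(evz y x (AP (AP (AP ψ)))))
        (-(evz y x (AP (AP ((2 : ℂ) • ψ)))))
      + 36 / 25 * i1 δ (evz y x (AP ψ)) (evz y x (AP (AP ψ))) (evz y x (AP (AP (AP ψ)))))
      + 1 / 2 * ∑ i, ∑ j, ((ps1dd δ (evz y x (AP ψ)) (evz y x (LP i j ψ))
        (-(I * evz y x (AP (AP ψ)))) (-(I * evz y x (AP (LP i j ψ))))
        (-(evz y x (AP (AP (AP ψ))))) (-(evz y x (AP (AP (LP i j ψ)))))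
        - 36 / 25 * i2 δ (evz y x (AP ψ)) (evz y x (LP i j (AP ψ)))
            (evz y x (LP i j (LP i j (AP ψ)))))
        + 49 / 40 * (i3 δ (evz y x (AP ψ)) (evz y x (LP i j ψ)) (evz y x (AP (LP i j ψ)))
            (evz y x (AP (AP ψ))) (evz y x (AP (AP (LP i j ψ))))
          - i4 δ (evz y x (AP ψ)) (evz y x (LP i j ψ)) (evz y x (AP (AP ψ)))
            (evz y x (LP i j (AP ψ))) (evz y x (LP i j (LP i j ψ)))
            (evz y x (LP i j (AP (AP ψ))))))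

theorem Zr_total (hμ : Law μ) (hδ : 0 < δ) (y : ℝ) (ψ : Poly) : Zr μ (Zt δ ψ y) := by
  have c := fun P : Poly => c_evz_x (y : ℂ) P
  have cI := fun P : Poly => (continuous_const (y := I)).mul (c_evz_x (y : ℂ) P)
  unfold Zt
  refine Zr.add hμ (Zr.add hμ ⟨?_, I5a hμ hδ y _ _⟩ (Zr.mul _ ⟨?_, I1 hμ hδ y _⟩))
    (Zr.mul _ (Zr.sum hμ fun i => Zr.sum hμ fun j => Zr.add hμ (Zr.sub hμ
      ⟨?_, I5b hμ hδ y _ _⟩ (Zr.mul _ ⟨?_, I2 hμ hδ y i j _⟩))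
      (Zr.mul _ (Zr.sub hμ ⟨?_, I3z hμ hδ y _ _⟩ ⟨?_, I4z hμ hδ y i j _ _ _ ?_⟩))))
  · exact c_ps0dd hδ (c _) (c _) (cI _).neg (cI _).neg (c _).neg (c _).neg
  · exact c_i1 hδ (c _) (c _) (c _)
  · exact c_ps1dd hδ (c _) (c _) (cI _).neg (cI _).neg (c _).neg (c _).neg
  · exact c_i2 hδ (c _) (c _) (c _)
  · exact c_i3 hδ (c _) (c _) (c _) (c _) (c _)
  · exact c_i4 hδ (c _) (c _) (c _) (c _) (c _) (c _)
  · rintro rfl
    exact LP_self _ _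

theorem alg_total (P0 Pt q : ℝ) (A B C D E : Fin 6 → Fin 6 → ℝ) :
    P0 + Pt + 36 / 25 * q + 1 / 2 * ∑ i, ∑ j, (A i j + B i j - 36 / 25 * C i j
        + 49 / 40 * (D i j - E i j)) =
    (P0 + 1 / 2 * ∑ i, ∑ j, A i j) + ((Pt + 36 / 25 * q) + 1 / 2 * ∑ i, ∑ j,
      ((B i j - 36 / 25 * C i j) + 49 / 40 * (D i j - E i j))) := by
  have : ∑ i, ∑ j, (A i j + B i j - 36 / 25 * C i j + 49 / 40 * (D i j - E i j)) =
      (∑ i, ∑ j, A i j) + ∑ i, ∑ j, ((B i j - 36 / 25 * C i j) + 49 / 40 * (D i j - E i j)) := by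
    simp only [← Finset.sum_add_distrib]
    refine Finset.sum_congr rfl fun i _ => Finset.sum_congr rfl fun j _ => ?_
    ring
  rw [this]
  ring

theorem D2_Zt_nonneg (hδ : 0 < δ) (y : ℝ) (ψ : Poly) (hψ : ψ ∈ HP) (x : C6) :
    0 ≤ D2 δ ψ y x + Zt δ ψ y x := by
  have hAP := Pool.Agent.Cone5.Alg.AP_mem_HP hψ
  have e1 : evz y x (AP ((2 : ℂ) • ψ)) = 2 * evz y x (AP ψ) := by rw [AP_smul, evz_smul]
  have e2 : evz y x (AP (AP ((2 : ℂ) • ψ))) = 2 * evz y x (AP (AP ψ)) := by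
    rw [AP_smul, AP_smul, evz_smul]
  have hc : ∑ i, ∑ j, evz y x (LP i j (LP i j (AP ψ))) =
      2 * (4 * evz y x (AP ψ) - evz y x (AP (AP (AP ψ)))) := by
    rw [← evz_sum2, sum_LP_LP hAP, evz_smul, evz_sub, evz_smul]
  have hz : ∑ i, ∑ j, evz y x (LP i j (LP i j ψ)) =
      2 * (2 * evz y x ((2 : ℂ) • ψ) - evz y x (AP (AP ψ))) := by
    rw [← evz_sum2, sum_LP_LP hψ, evz_smul, evz_sub, evz_smul, evz_smul]
    ring
  have key := total_nonneg hδ (evz y x (AP ψ)) (evz y x ((2 : ℂ) • ψ)) (evz y x (AP (AP ψ)))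
    (evz y x (AP (AP (AP ψ)))) (fun i j => evz y x (LP i j ψ)) (fun i j => evz y x (LP i j (AP ψ)))
    (fun i j => evz y x (LP i j (AP (AP ψ)))) (fun i j => evz y x (LP i j (LP i j (AP ψ))))
    (fun i j => evz y x (LP i j (LP i j ψ))) hc hz
  rw [alg_total] at key
  unfold D2 Zt
  rw [e1, e2]
  simp only [← LP_AP]
  exact key

attribute [local irreducible] D2 Zt in
theorem D2_nonneg (hμ : Law μ) (hδ : 0 < δ) (y : ℝ) (ψ : Poly) (hψ : ψ ∈ HP) :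
    0 ≤ ∫ x, D2 δ ψ y x ∂μ := by
  have hZ := Zr_total hμ hδ y ψ
  have hZ1 : Continuous fun x => Zt δ ψ y x := hZ.1
  have hZ2 : ∫ x, Zt δ ψ y x ∂μ = 0 := hZ.2
  have hc2 : Continuous fun x => D2 δ ψ y x :=
    Continuous.comp (g := fun p : ℝ × C6 => D2 δ ψ p.1 p.2) (f := fun x : C6 => (y, x))
      (c_D2 hδ ψ) (by fun_prop)
  have i1 := integrable hμ hc2
  have i2 := integrable hμ hZ1
  have h1 : ∫ x, (D2 δ ψ y x + Zt δ ψ y x) ∂μ = ∫ x, D2 δ ψ y x ∂μ + ∫ x, Zt δ ψ y x ∂μ :=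
    integral_add i1 i2
  rw [hZ2, add_zero] at h1
  rw [← h1]
  exact integral_nonneg fun x => D2_Zt_nonneg hδ y ψ hψ x

/-! ### The limit of infinite depth -/

/-- the value at `s x`, with the factor `s²` -/
noncomputable def evs (s : ℝ) (x : C6) (P : Poly) : ℂ :=
  (s : ℂ) ^ 2 * ev P (fun k => (s : ℂ) * x k)

theorem evz_evs (y : ℝ) (x : C6) (P : Poly) : evz y x P = evs (Real.exp (-y)) x P := by
  have h1 : cexp (-(y : ℂ)) = ((Real.exp (-y) : ℝ) : ℂ) := by push_cast; rfl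
  have h2 : cexp (-(2 * (y : ℂ))) = ((Real.exp (-y) : ℝ) : ℂ) ^ 2 := by
    rw [← h1, ← Complex.exp_nat_mul]
    congr 1
    push_cast
    ring
  unfold evz evs
  rw [h1, h2]

theorem c_evs (P : Poly) : Continuous (fun p : ℝ × C6 => evs p.1 p.2 P) := by
  unfold evs
  refine Continuous.mul (by fun_prop) ((continuous_ev P).comp ?_)
  exact continuous_pi fun k => Continuous.mul (by fun_prop)
    ((continuous_apply k).comp (by fun_prop))

theorem evs_zero (x : C6) (P : Poly) : evs 0 x P = 0 := by simp [evs]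

noncomputable def Ds (δ : ℝ) (ψ : Poly) (s : ℝ) (x : C6) : ℝ :=
  ps0 δ (evs s x (AP ψ)) (evs s x ((2 : ℂ) • ψ)) +
    1 / 2 * ∑ i, ∑ j, ps1 δ (evs s x (AP ψ)) (evs s x (LP i j ψ))

theorem c_Ds (hδ : 0 < δ) (ψ : Poly) : Continuous (fun p : ℝ × C6 => Ds δ ψ p.1 p.2) :=
  (c_ps0 (c_evs _) (c_evs _)).add (continuous_const.mul
    (continuous_finsetSum _ fun _ _ => continuous_finsetSum _ fun _ _ =>
      c_ps1 hδ (c_evs _) (c_evs _)))

theorem Ds_zero (hδ : 0 < δ) (ψ : Poly) (x : C6) : Ds δ ψ 0 x = -(1 / 1000 * δ ^ 3) := by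
  have h1 : fr δ 0 = δ := by
    unfold fr dot
    simp [Real.sqrt_sq hδ.le]
  unfold Ds
  simp only [evs_zero]
  unfold ps0 ps1
  rw [h1]
  simp [dot, wed]

theorem D0_lower (hμ : Law μ) (hδ : 0 < δ) (ψ : Poly) (hψ : ψ ∈ HP) :
    -(1 / 1000 * δ ^ 3) ≤ ∫ x, D0 δ ψ 0 x ∂μ := by
  have := hμ.prob
  have hL : Tendsto (fun y => ∫ x, D0 δ ψ y x ∂μ) atTop (𝓝 (∫ x, Ds δ ψ 0 x ∂μ)) := by
    have h1 := (cont_int hμ (c_Ds hδ ψ)).tendsto 0
    have h3 := h1.comp Real.tendsto_exp_neg_atTop_nhds_zero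
    refine h3.congr fun y => ?_
    simp only [Function.comp]
    refine integral_congr_ae (Eventually.of_forall fun x => ?_)
    simp only [Ds, D0, evz_evs]
  have h := le_of_convex (fun y => hasDerivAt_int hμ (c_D0 hδ ψ) (c_D1 hδ ψ) (D0_deriv hδ ψ) y)
    (fun y => hasDerivAt_int hμ (c_D1 hδ ψ) (c_D2 hδ ψ) (D1_deriv hδ ψ) y)
    (fun y => D2_nonneg hμ hδ y ψ hψ) hL
  simpa [Ds_zero hδ] using h

/-! ### The final form -/

theorem dot_self (a : ℂ) : dot a a = ‖a‖ ^ 2 := by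
  rw [← normSq_eq_norm_sq, normSq_apply]
  rfl

theorem ps1_le (hδ : 0 < δ) (F v : ℂ) : ps1 δ F v ≤ fr δ F * ‖v‖ ^ 2 := by
  have hf := fr_pos hδ F
  have hsq := fr_sq δ F
  have h1 : (dot F v ^ 2 - wed F v ^ 2) / fr δ F ≤ fr δ F * dot v v := by
    rw [div_le_iff₀ hf]
    have h2 : fr δ F * dot v v * fr δ F = fr δ F ^ 2 * dot v v := by ring
    rw [h2, hsq]
    have h3 : dot F v ^ 2 + wed F v ^ 2 = dot F F * dot v v := by
      unfold dot wed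
      ring
    have h4 := dot_self_nonneg v
    nlinarith [sq_nonneg (wed F v), mul_nonneg (sq_nonneg δ) h4]
  unfold ps1
  rw [← dot_self]
  linarith

theorem D0_le (hδ : 0 < δ) (ψ : Poly) (x : C6) : D0 δ ψ 0 x ≤ fr δ (ev (AP ψ) x) * G2 ψ x
    - 17 / 20 * (fr δ (ev (AP ψ) x) * dot (ev (AP ψ) x) (2 * ev ψ x))
    - 1 / 1000 * fr δ (ev (AP ψ) x) ^ 3 := by
  unfold D0 G2
  simp only [ofReal_zero, evz_zero, ev_smul]
  have h1 : ∑ i, ∑ j, ps1 δ (ev (AP ψ) x) (ev (LP i j ψ) x) ≤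
      ∑ i, ∑ j, fr δ (ev (AP ψ) x) * ‖ev (LP i j ψ) x‖ ^ 2 :=
    Finset.sum_le_sum fun i _ => Finset.sum_le_sum fun j _ => ps1_le hδ _ _
  simp only [← Finset.mul_sum] at h1
  unfold ps0
  rw [dot_self]
  linarith

theorem c_fr2 (P : Poly) : Continuous (fun p : ℝ × C6 => fr p.1 (ev P p.2)) := by
  unfold fr
  have h : Continuous fun p : ℝ × C6 => ev P p.2 := (continuous_ev P).comp continuous_snd
  fun_prop

theorem c_G2 (ψ : Poly) : Continuous (G2 ψ) := by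
  unfold G2
  refine Continuous.add ((continuous_const.mul (continuous_ev ψ)).norm.pow 2)
    (continuous_const.mul (continuous_finsetSum _ fun i _ => continuous_finsetSum _ fun j _ => ?_))
  exact (continuous_ev _).norm.pow 2

/-- the regularised difference of the two sides -/
noncomputable def Jd (ψ : Poly) (s : ℝ) (x : C6) : ℝ := fr s (ev (AP ψ) x) * G2 ψ x
    - 17 / 20 * (fr s (ev (AP ψ) x) * dot (ev (AP ψ) x) (2 * ev ψ x))
    - 1 / 1000 * fr s (ev (AP ψ) x) ^ 3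

theorem c_Jd (ψ : Poly) : Continuous (fun p : ℝ × C6 => Jd ψ p.1 p.2) := by
  have h1 := c_fr2 (AP ψ)
  have h2 : Continuous fun p : ℝ × C6 => G2 ψ p.2 := (c_G2 ψ).comp continuous_snd
  have h3 : Continuous fun p : ℝ × C6 => ev (AP ψ) p.2 := (continuous_ev _).comp continuous_snd
  have h4 : Continuous fun p : ℝ × C6 => ev ψ p.2 := (continuous_ev _).comp continuous_snd
  unfold Jd
  fun_prop

theorem Jd_zero_nonneg (hμ : Law μ) (ψ : Poly) (hψ : ψ ∈ HP) : 0 ≤ ∫ x, Jd ψ 0 x ∂μ := by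
  have hc := cont_int hμ (c_Jd ψ)
  have h1 : Tendsto (fun s : ℝ => ∫ x, Jd ψ s x ∂μ + 1 / 1000 * s ^ 3) (𝓝[>] 0)
      (𝓝 (∫ x, Jd ψ 0 x ∂μ + 1 / 1000 * (0 : ℝ) ^ 3)) :=
    ((hc.add (by fun_prop : Continuous fun s : ℝ => 1 / 1000 * s ^ 3)).tendsto 0).mono_left
      nhdsWithin_le_nhds
  have h2 : ∀ᶠ s : ℝ in 𝓝[>] 0, 0 ≤ ∫ x, Jd ψ s x ∂μ + 1 / 1000 * s ^ 3 := by
    filter_upwards [self_mem_nhdsWithin] with s hs
    have hs' : (0 : ℝ) < s := hs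
    have h3 := D0_lower hμ hs' ψ hψ
    have h4 : ∫ x, D0 s ψ 0 x ∂μ ≤ ∫ x, Jd ψ s x ∂μ := by
      refine integral_mono (integrable hμ ?_) (integrable hμ ?_) fun x => D0_le hs' ψ x
      · exact Continuous.comp (g := fun p : ℝ × C6 => D0 s ψ p.1 p.2)
          (f := fun x : C6 => ((0 : ℝ), x)) (c_D0 hs' ψ) (by fun_prop)
      · exact Continuous.comp (g := fun p : ℝ × C6 => Jd ψ p.1 p.2)
          (f := fun x : C6 => (s, x)) (c_Jd ψ) (by fun_prop)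
    linarith
  have h5 := ge_of_tendsto h1 h2
  simpa using h5

end FI

variable {μ : Measure C6}

open FI in
theorem func_ineq (hμ : Law μ) (ψ : Poly) (hψ : ψ ∈ HP) :
    17 / 20 * (∫ x, (‖ev (AP ψ) x‖ : ℂ) * (conj (ev (AP ψ) x) * (2 * ev ψ x)) ∂μ).re +
      1 / 1000 * I3 μ (AP ψ) ≤ ∫ x, ‖ev (AP ψ) x‖ * G2 ψ x ∂μ := by
  have h := Jd_zero_nonneg hμ ψ hψ
  have c1 := continuous_ev (AP ψ)
  have c2 := continuous_ev ψ
  have hfr : ∀ F : ℂ, fr 0 F = ‖F‖ := fun F => by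
    unfold fr
    rw [dot_self]
    simp
  have i1 : Integrable (fun x => ‖ev (AP ψ) x‖ * G2 ψ x) μ :=
    Alg.integrable hμ (c1.norm.mul (c_G2 ψ))
  have i2 : Integrable (fun x => ‖ev (AP ψ) x‖ * dot (ev (AP ψ) x) (2 * ev ψ x)) μ :=
    Alg.integrable hμ (by fun_prop)
  have i3 : Integrable (fun x => ‖ev (AP ψ) x‖ ^ 3) μ := Alg.integrable hμ (c1.norm.pow 3)
  have i4 : Integrable (fun x => (‖ev (AP ψ) x‖ : ℂ) * (conj (ev (AP ψ) x) * (2 * ev ψ x))) μ :=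
    Alg.integrable hμ (by fun_prop)
  have e1 : ∫ x, Jd ψ 0 x ∂μ = ∫ x, ‖ev (AP ψ) x‖ * G2 ψ x ∂μ
      - 17 / 20 * ∫ x, ‖ev (AP ψ) x‖ * dot (ev (AP ψ) x) (2 * ev ψ x) ∂μ
      - 1 / 1000 * I3 μ (AP ψ) := by
    unfold Jd I3
    simp only [hfr]
    have i5 : Integrable (fun x => ‖ev (AP ψ) x‖ * G2 ψ x
      - 17 / 20 * (‖ev (AP ψ) x‖ * dot (ev (AP ψ) x) (2 * ev ψ x))) μ := i1.sub (i2.const_mul _)
    rw [integral_sub i5 (i3.const_mul _), integral_sub i1 (i2.const_mul _),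
      integral_const_mul, integral_const_mul]
  have e2 : (∫ x, (‖ev (AP ψ) x‖ : ℂ) * (conj (ev (AP ψ) x) * (2 * ev ψ x)) ∂μ).re =
      ∫ x, ‖ev (AP ψ) x‖ * dot (ev (AP ψ) x) (2 * ev ψ x) ∂μ := by
    rw [← RCLike.re_eq_complex_re, ← integral_re i4]
    refine integral_congr_ae (Eventually.of_forall fun x => ?_)
    simp only [RCLike.re_eq_complex_re]
    rw [re_ofReal_mul]
    unfold dot
    simp only [mul_re, conj_re, conj_im]
    ring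
  rw [e1] at h
  rw [e2]
  linarith

end Pool.Agent.Cone5
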