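import Pool.Agent.Work.MP_b0b133_an.D5.Alg3

/-!
# The ladder identity and the level inequalities
-/

set_option autoImplicit false
open MeasureTheory Complex MvPolynomial
open scoped ENNReal ComplexConjugate

namespace Pool.Agent.Cone5

open Alg

variable {μ : Measure C6}

theorem HP_AP_mem (P : Poly) (h : P ∈ HP) : AP P ∈ HP := AP_mem_HP h

theorem HP_pderiv_mem (j : Fin 6) (P : Poly) (h : P ∈ HP) : MvPolynomial.pderiv j P ∈ HP :=
  pderiv_mem_HP j h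

theorem HP_RP_mem (j : Fin 6) (P : Poly) (h : P ∈ HP) : RP j P ∈ HP := RP_mem_HP j h

/-- `N + c` is onto on harmonic polynomials, for `c > 0` -/
theorem Alg.NP_add_surj (c : ℕ) (hc0 : 0 < c) (P : Poly) (h : P ∈ HP) :
    ∃ ψ ∈ HP, NP ψ + (c : ℂ) • ψ = P := by
  refine ⟨∑ l ∈ Finset.range (P.totalDegree + 1), ((l : ℂ) + c)⁻¹ • Alg.hc l P,
    HP.sum_mem fun l _ => HP.smul_mem _ (hc_mem_HP l h), ?_⟩
  rw [NP_sum, Finset.smul_sum, ← Finset.sum_add_distrib]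
  conv_rhs => rw [← Alg.sum_hc P (P.totalDegree + 1) (Nat.lt_succ_self _)]
  refine Finset.sum_congr rfl fun l _ => ?_
  have h1 : NP (Alg.hc l P) = (l : ℂ) • Alg.hc l P := NP_hc l P
  have h2 : ((l : ℂ) + c) ≠ 0 := by
    have : l + c ≠ 0 := by omega
    exact_mod_cast this
  rw [NP_smul, h1, smul_smul, smul_smul, ← add_smul]
  have h3 : ((l : ℂ) + c)⁻¹ * l + c * ((l : ℂ) + c)⁻¹ = 1 := by
    field_simp
  rw [h3, one_smul]

theorem AP_surj (P : Poly) (h : P ∈ HP) : ∃ ψ ∈ HP, AP ψ = P := by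
  obtain ⟨ψ, h1, h2⟩ := Alg.NP_add_surj 2 (by norm_num) P h
  refine ⟨ψ, h1, ?_⟩
  rw [← h2, AP]
  norm_num

theorem EB_eq (P Q : Poly) : EB μ P Q = 1 / 2 * (ip μ P (AP Q)).re := rfl

theorem EB_comm (hμ : Law μ) (P Q : Poly) : EB μ P Q = EB μ Q P := by
  rw [EB_eq, EB_eq, ip_AP hμ, ip_re_comm]

/-- the mass of the level `l` -/
noncomputable def Alg.lv (μ : Measure C6) (P : Poly) (l : ℕ) : ℝ := ∫ x, ‖ev (Alg.hc l P) x‖ ^ 2 ∂μ

theorem Alg.lv_nonneg (P : Poly) (l : ℕ) : 0 ≤ Alg.lv μ P l :=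
  integral_nonneg fun _ => sq_nonneg _

theorem Alg.lv_zero (hμ : Law μ) (P : Poly) : Alg.lv μ P 0 = ‖ev P 0‖ ^ 2 := by
  have := hμ.prob
  unfold Alg.lv
  simp only [ev_hc_zero]
  simp

theorem Alg.int_norm_sq (hμ : Law μ) (P : Poly) (n : ℕ) (hn : P.totalDegree < n) :
    ∫ x, ‖ev P x‖ ^ 2 ∂μ = ∑ l ∈ Finset.range n, Alg.lv μ P l := by
  have h1 := ip_decomp hμ P P n hn hn
  rw [ip_self, Finset.sum_congr rfl fun l _ => ip_self (hc l P), ← ofReal_sum] at h1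
  exact_mod_cast h1

theorem Alg.En_eq (hμ : Law μ) (P : Poly) (n : ℕ) (hn : P.totalDegree < n)
    (hn' : (AP P).totalDegree < n) :
    En μ P = ∑ l ∈ Finset.range n, 1 / 2 * ((l : ℝ) + 2) * Alg.lv μ P l := by
  rw [En, EB_eq, ip_decomp hμ P (AP P) n hn hn', re_sum, Finset.mul_sum]
  refine Finset.sum_congr rfl fun l _ => ?_
  have e1 : hc l (AP P) = ((l : ℂ) + 2) • hc l P := hc_AP l P
  have e2 : ((l : ℂ) + 2) = (((l : ℝ) + 2 : ℝ) : ℂ) := by push_cast; rfl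
  rw [e1, ip_smul_right, ip_self, e2, ← ofReal_mul, ofReal_re]
  unfold Alg.lv
  ring

theorem En_nonneg (hμ : Law μ) (P : Poly) : 0 ≤ En μ P := by
  rw [Alg.En_eq hμ P (P.totalDegree + (AP P).totalDegree + 1) (by omega) (by omega)]
  exact Finset.sum_nonneg fun l _ => mul_nonneg (by positivity) (Alg.lv_nonneg P l)

theorem Alg.int_ev (hμ : Law μ) (P : Poly) : ∫ x, ev P x ∂μ = ev P 0 := by
  have := hμ.prob
  have h1 : ∫ x, ev P x ∂μ = ip μ 1 P := by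
    unfold ip
    refine integral_congr_ae (Filter.Eventually.of_forall fun x => ?_)
    change ev P x = conj (ev 1 x) * ev P x
    rw [ev_one, map_one, one_mul]
  have h2 : ∀ l : ℕ, l ≠ 0 → ip μ 1 (hc l P) = 0 := fun l hl =>
    ip_hom hμ (Ne.symm hl) (isHomogeneous_one _ _) (homogeneousComponent_isHomogeneous l P)
  rw [h1]
  conv_lhs => rw [← sum_hc P (P.totalDegree + 1) (Nat.lt_succ_self _)]
  rw [ip_sum_right hμ, Finset.sum_eq_single 0 (fun l _ hl => h2 l hl)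
    (fun h => absurd (Finset.mem_range.2 (Nat.succ_pos _)) h)]
  unfold ip
  simp only [ev_hc_zero, ev_one]
  simp

theorem int_sq (hμ : Law μ) (P : Poly) : ∫ x, ev P x ^ 2 ∂μ = ev P 0 ^ 2 := by
  have h1 : ∀ x, ev P x ^ 2 = ev (P * P) x := fun x => by rw [ev_mul, pow_two]
  simp only [h1]
  exact Alg.int_ev hμ _

theorem EB_one (hμ : Law μ) (P : Poly) : EB μ P 1 = (ev P 0).re ∧ En μ 1 = 1 := by
  have := hμ.prob
  have h0 : AP (1 : Poly) = (2 : ℂ) • 1 := by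
    rw [AP, NP_of_hom (isHomogeneous_one _ _)]
    simp
  have h1 : ∀ P : Poly, EB μ P 1 = (ev P 0).re := fun P => by
    rw [EB_eq, h0, ip_smul_right]
    have h2 : ip μ P 1 = conj (ev P 0) := by
      rw [← Alg.int_ev hμ P, ← integral_conj]
      unfold ip
      refine integral_congr_ae (Filter.Eventually.of_forall fun x => ?_)
      change conj (ev P x) * ev 1 x = conj (ev P x)
      rw [ev_one, mul_one]
    rw [h2]
    simp
  refine ⟨h1 P, ?_⟩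
  rw [En, h1, ev_one, one_re]

theorem Alg.x2_eq (hμ : Law μ) (ψ : Poly) (n : ℕ) (hn : ψ.totalDegree < n)
    (hn' : (AP ψ).totalDegree < n) :
    (∫ x, conj (ev (AP ψ) x) * (2 * ev ψ x) ∂μ).re
      = ∑ l ∈ Finset.range n, 2 / ((l : ℝ) + 2) * Alg.lv μ (AP ψ) l := by
  have h1 : ∫ x, conj (ev (AP ψ) x) * (2 * ev ψ x) ∂μ = 2 * ip μ (AP ψ) ψ := by
    rw [← ip_smul_right]
    unfold ip
    refine integral_congr_ae (Filter.Eventually.of_forall fun x => ?_)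
    change conj (ev (AP ψ) x) * (2 * ev ψ x) = conj (ev (AP ψ) x) * ev ((2 : ℂ) • ψ) x
    rw [ev_smul]
  rw [h1, ip_decomp hμ _ _ n hn' hn, Finset.mul_sum, re_sum]
  refine Finset.sum_congr rfl fun l _ => ?_
  have e1 : hc l (AP ψ) = ((l : ℂ) + 2) • hc l ψ := hc_AP l ψ
  have e2 : ((l : ℂ) + 2) = (((l : ℝ) + 2 : ℝ) : ℂ) := by push_cast; rfl
  have e3 : Alg.lv μ (AP ψ) l = ((l : ℝ) + 2) ^ 2 * Alg.lv μ ψ l := by
    unfold Alg.lv
    rw [← integral_const_mul]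
    refine integral_congr_ae (Filter.Eventually.of_forall fun x => ?_)
    change ‖ev (hc l (AP ψ)) x‖ ^ 2 = ((l : ℝ) + 2) ^ 2 * ‖ev (hc l ψ) x‖ ^ 2
    rw [e1, ev_smul, norm_mul, mul_pow, e2, norm_real, Real.norm_eq_abs, sq_abs]
  rw [e1, ip_smul_left, ip_self, e2, conj_ofReal, ← ofReal_mul]
  have e4 : (2 : ℂ) = ((2 : ℝ) : ℂ) := by norm_num
  rw [e4, ← ofReal_mul, ofReal_re, e3]
  have : ((l : ℝ) + 2) ≠ 0 := by positivity
  unfold Alg.lv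
  field_simp

theorem lev_x2 (hμ : Law μ) (ψ : Poly) (_h : ψ ∈ HP) :
    (∫ x, conj (ev (AP ψ) x) * (2 * ev ψ x) ∂μ).re ≤
      ‖ev (AP ψ) 0‖ ^ 2 + 2 / 3 * (∫ x, ‖ev (AP ψ) x‖ ^ 2 ∂μ - ‖ev (AP ψ) 0‖ ^ 2) := by
  set n := ψ.totalDegree + (AP ψ).totalDegree with hn
  rw [Alg.x2_eq hμ ψ (n + 1) (by omega) (by omega),
    Alg.int_norm_sq hμ (AP ψ) (n + 1) (by omega), ← Alg.lv_zero hμ (AP ψ),
    Finset.sum_range_succ', Finset.sum_range_succ', add_sub_cancel_right, Finset.mul_sum]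
  have h1 : ∀ l ∈ Finset.range n, 2 / (((l + 1 : ℕ) : ℝ) + 2) * Alg.lv μ (AP ψ) (l + 1)
      ≤ 2 / 3 * Alg.lv μ (AP ψ) (l + 1) := fun l _ => by
    refine mul_le_mul_of_nonneg_right ?_ (Alg.lv_nonneg _ _)
    refine div_le_div_of_nonneg_left (by norm_num) (by norm_num) ?_
    push_cast
    linarith [Nat.cast_nonneg (α := ℝ) l]
  have h2 := Finset.sum_le_sum h1
  have h3 : 2 / (((0 : ℕ) : ℝ) + 2) * Alg.lv μ (AP ψ) 0 = Alg.lv μ (AP ψ) 0 := by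
    norm_num
  rw [h3]
  linarith

theorem lev_y1 (hμ : Law μ) (P : Poly) (_h : P ∈ HP) :
    ∫ x, ‖ev P x‖ ^ 2 ∂μ - ‖ev P 0‖ ^ 2 ≤ 1 / 2 * (En μ P - ‖ev P 0‖ ^ 2) +
      1 / 4 * ∫ x, ‖ev (MvPolynomial.homogeneousComponent 1 P) x‖ ^ 2 ∂μ := by
  set n := P.totalDegree + (AP P).totalDegree with hn
  rw [Alg.int_norm_sq hμ P (n + 2) (by omega), Alg.En_eq hμ P (n + 2) (by omega) (by omega),
    ← Alg.lv_zero hμ P]
  change _ ≤ _ + 1 / 4 * Alg.lv μ P 1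
  simp only [Finset.sum_range_succ' _ (n + 1), Finset.sum_range_succ' _ n]
  have h1 : ∀ l ∈ Finset.range n, Alg.lv μ P (l + 1 + 1)
      ≤ 1 / 2 * (1 / 2 * (((l + 1 + 1 : ℕ) : ℝ) + 2) * Alg.lv μ P (l + 1 + 1)) := fun l _ => by
    have h2 := Alg.lv_nonneg (μ := μ) P (l + 1 + 1)
    have h3 : (1 : ℝ) ≤ 1 / 2 * (1 / 2 * (((l + 1 + 1 : ℕ) : ℝ) + 2)) := by
      push_cast
      linarith [Nat.cast_nonneg (α := ℝ) l]
    nlinarith
  have h2 := Finset.sum_le_sum h1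
  rw [← Finset.mul_sum] at h2
  norm_num at h2 ⊢
  linarith

/-! ### The ladder identity -/

theorem Alg.NP_sub (P Q : Poly) : NP (P - Q) = NP P - NP Q := by
  have h1 : ∀ R : Poly, -R = (-1 : ℂ) • R := fun R => by rw [neg_one_smul]
  rw [sub_eq_add_neg, sub_eq_add_neg, h1 Q, h1 (NP Q), NP_add, NP_smul]

theorem Alg.NP_TP (j : Fin 6) (P : Poly) : NP (TP j P) =
    (2 : ℂ) • (MvPolynomial.X j * (NP (NP P) + (4 : ℂ) • NP P + (3 : ℂ) • P))
      - sqP * (pderiv j (NP P) + pderiv j P) := by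
  have c3 : (C (3 : ℂ) : Poly) = 3 := map_ofNat C 3
  rw [TP, Alg.NP_sub, NP_smul, NP_mul, NP_X, NP_add, NP_smul, NP_mul, NP_sqP, NP_pderiv]
  simp only [smul_eq_C_mul, C_two, c3, C_four]
  ring

theorem Alg.pderiv_TP (j : Fin 6) (P : Poly) : pderiv j (TP j P) =
    (2 : ℂ) • (NP P + (3 : ℂ) • P + MvPolynomial.X j * (pderiv j (NP P) + (2 : ℂ) • pderiv j P))
      - sqP * pderiv j (pderiv j P) := by
  have c3 : (C (3 : ℂ) : Poly) = 3 := map_ofNat C 3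
  rw [TP, map_sub, Derivation.map_smul, Derivation.leibniz, Derivation.leibniz, smul_eq_mul,
      smul_eq_mul, smul_eq_mul, smul_eq_mul, pderiv_sqP, pderiv_X_self, map_add,
      Derivation.map_smul]
  simp only [smul_eq_C_mul, C_two, c3]
  ring

/-- `∑ T_j T_j = 4 (∑ X²) (N + 3)` on harmonic polynomials -/
theorem Alg.sum_TP_TP {P : Poly} (h : P ∈ HP) :
    ∑ j, TP j (TP j P) = (4 : ℂ) • (sqP * (NP P + (3 : ℂ) • P)) := by
  have h0 : ∑ j, pderiv j (pderiv j P) = 0 := h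
  have c3 : (C (3 : ℂ) : Poly) = 3 := map_ofNat C 3
  have h1 : ∀ j : Fin 6, TP j (TP j P) =
      MvPolynomial.X j ^ 2 * (4 * (NP (NP P) + 7 * NP P + 12 * P))
        - MvPolynomial.X j * pderiv j (NP P) * (4 * sqP)
        - MvPolynomial.X j * pderiv j P * (12 * sqP)
        - 2 * sqP * (NP P + 3 * P) + pderiv j (pderiv j P) * sqP ^ 2 := by
    intro j
    have e1 : TP j (TP j P) = (2 : ℂ) • (MvPolynomial.X j * (NP (TP j P) + (3 : ℂ) • TP j P))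
      - sqP * pderiv j (TP j P) := rfl
    rw [e1, Alg.NP_TP, Alg.pderiv_TP, TP]
    simp only [smul_eq_C_mul, C_two, c3, C_four]
    ring
  have h2 : ∑ j, MvPolynomial.X j * pderiv j (NP P) = NP (NP P) := rfl
  have h3 : ∑ j, MvPolynomial.X j * pderiv j P = NP P := rfl
  have h4 : ∑ j : Fin 6, (MvPolynomial.X j : Poly) ^ 2 = sqP := rfl
  have h5 : ∑ j, pderiv j (pderiv j P) * sqP ^ 2 = 0 := by rw [← Finset.sum_mul, h0, zero_mul]
  rw [Finset.sum_congr rfl fun j _ => h1 j, Finset.sum_add_distrib, Finset.sum_sub_distrib,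
    Finset.sum_sub_distrib, Finset.sum_sub_distrib, ← Finset.sum_mul, ← Finset.sum_mul,
    ← Finset.sum_mul, h5, h2, h3, h4, Finset.sum_const, Finset.card_univ,
    Fintype.card_fin, nsmul_eq_mul]
  simp only [smul_eq_C_mul, c3, C_four]
  push_cast
  ring

/-- `(∑ X²) HP` is orthogonal to `HP` -/
theorem Alg.orth (hμ : Law μ) {G Q : Poly} (hG : G ∈ HP) (hQ : Q ∈ HP) :
    ip μ (sqP * G) Q = 0 := by
  obtain ⟨P, hP, h1⟩ := Alg.NP_add_surj 3 (by norm_num) G hG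
  have h0 : ∑ j, pderiv j (pderiv j Q) = 0 := hQ
  have h2 : ip μ P (∑ j, pderiv j (pderiv j Q)) = ip μ (∑ j, TP j (TP j P)) Q := by
    rw [ip_sum_right hμ, ip_sum_left hμ]
    refine Finset.sum_congr rfl fun j _ => ?_
    rw [adj hμ, adj hμ]
  have h3 : NP P + (3 : ℂ) • P = G := by
    rw [← h1]
    norm_num
  rw [h0, ip_zero_right, Alg.sum_TP_TP hP, h3, ip_smul_left] at h2
  have h4 : conj (4 : ℂ) ≠ 0 := by
    rw [map_ofNat]
    norm_num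
  exact (mul_eq_zero.1 h2.symm).resolve_left h4

theorem Alg.EB_RP (hμ : Law μ) (j : Fin 6) {P Q : Poly} (hP : P ∈ HP) (hQ : Q ∈ HP) :
    EB μ (RP j P) Q = EB μ P (pderiv j Q) := by
  have c3 : (C (3 : ℂ) : Poly) = 3 := map_ofNat C 3
  have h1 : TP j (AP P) = AP (RP j P) + sqP * pderiv j P := by
    have e1 : AP (RP j P) = NP (RP j P) + (2 : ℂ) • RP j P := rfl
    rw [e1, TP, RP, Alg.NP_sub, NP_smul, NP_mul, NP_X, NP_mul, NP_sqP, NP_pderiv]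
    simp only [AP, NP_add, NP_smul, map_add, Derivation.map_smul]
    simp only [smul_eq_C_mul, C_two, c3]
    ring
  rw [EB_eq, EB_eq, ip_AP hμ, ip_AP hμ, adj hμ, h1, ip_add_left hμ,
    Alg.orth hμ (HP_pderiv_mem j P hP) hQ, add_zero]

theorem Alg.EB_add_right (hμ : Law μ) (P Q R : Poly) :
    EB μ P (Q + R) = EB μ P Q + EB μ P R := by
  rw [EB_eq, EB_eq, EB_eq, AP_add, ip_add_right hμ, add_re]
  ring

theorem Alg.EB_sum_right (hμ : Law μ) {ι : Type*} (s : Finset ι) (P : Poly) (Q : ι → Poly) :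
    EB μ P (∑ i ∈ s, Q i) = ∑ i ∈ s, EB μ P (Q i) := by
  rw [EB_eq, AP_sum, ip_sum_right hμ, re_sum, Finset.mul_sum]
  rfl

theorem ladder (hμ : Law μ) (ψ : Poly) (h : ψ ∈ HP) :
    ∑ j, (En μ (MvPolynomial.pderiv j ψ) + En μ (RP j ψ)) =
      4 * En μ (AP ψ) + 2 * (∫ x, conj (ev (AP ψ) x) * (2 * ev ψ x) ∂μ).re := by
  have h1 : ∀ j, En μ (pderiv j ψ) + En μ (RP j ψ)
      = EB μ ψ (RP j (pderiv j ψ)) + EB μ ψ (pderiv j (RP j ψ)) := by
    intro j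
    have e1 : En μ (pderiv j ψ) = EB μ ψ (RP j (pderiv j ψ)) := by
      rw [EB_comm hμ ψ, Alg.EB_RP hμ j (HP_pderiv_mem j ψ h) h]
      rfl
    have e2 : En μ (RP j ψ) = EB μ ψ (pderiv j (RP j ψ)) := by
      rw [← Alg.EB_RP hμ j h (HP_RP_mem j ψ h)]
      rfl
    rw [e1, e2]
  rw [Finset.sum_congr rfl fun j _ => h1 j, Finset.sum_add_distrib, ← Alg.EB_sum_right hμ,
    ← Alg.EB_sum_right hμ, ← Alg.EB_add_right hμ, sum_RP_pderiv h, sum_pderiv_RP h]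
  have h2 : (2 : ℂ) • (NP (NP ψ) + NP ψ) + (2 : ℂ) • (NP (NP ψ) + (7 : ℂ) • NP ψ + (12 : ℂ) • ψ)
      = (4 : ℂ) • AP (AP ψ) + (8 : ℂ) • ψ := by
    have c8 : (C (8 : ℂ) : Poly) = 8 := map_ofNat C 8
    simp only [AP, NP_add, NP_smul]
    simp only [smul_eq_C_mul, C_two, C_four, C_seven, C_twelve, c8]
    ring
  have h3 : ∫ x, conj (ev (AP ψ) x) * (2 * ev ψ x) ∂μ = 2 * ip μ (AP ψ) ψ := by
    rw [← ip_smul_right]
    unfold ip
    refine integral_congr_ae (Filter.Eventually.of_forall fun x => ?_)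
    change conj (ev (AP ψ) x) * (2 * ev ψ x) = conj (ev (AP ψ) x) * ev ((2 : ℂ) • ψ) x
    rw [ev_smul]
  rw [h2, h3, En, EB_eq, EB_eq, AP_add, AP_smul, AP_smul, ip_add_right hμ, ip_smul_right,
    ip_smul_right, ip_AP hμ ψ (AP (AP ψ)), ip_AP hμ ψ ψ]
  have e4 : (4 : ℂ) = ((4 : ℝ) : ℂ) := by norm_num
  have e8 : (8 : ℂ) = ((8 : ℝ) : ℂ) := by norm_num
  have e2 : (2 : ℂ) = ((2 : ℝ) : ℂ) := by norm_num
  rw [add_re, e4, e8, e2, re_ofReal_mul, re_ofReal_mul, re_ofReal_mul]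
  ring

end Pool.Agent.Cone5
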