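import Pool.Agent.Work.MP_b0b133_an.D5.SVe
import Pool.Agent.Work.MP_b0b133_an.D5.ALG

/-!
# First and second variation at near maximisers
-/

set_option autoImplicit false
open MeasureTheory Complex
open scoped ENNReal ComplexConjugate

namespace Pool.Agent.Cone5

variable {μ : Measure C6}

/-- first variation at near maximisers, both signs by `Q → -Q` -/
theorem first_var (hμ : Law μ) (S : ℝ) (hS : 1 ≤ S)
    (hmax : ∀ P ∈ HP, I3 μ P ≤ S * En μ P ^ (3 / 2 : ℝ)) (M : ℝ) :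
    ∃ C : ℝ, 0 ≤ C ∧ ∀ F ∈ HP, ∀ Q ∈ HP, ∀ ε : ℝ, 0 < ε → ε ≤ 1 → En μ F = 1 → En μ Q ≤ M →
      S - ε ≤ I3 μ F →
      |(∫ x, (‖ev F x‖ : ℂ) * (conj (ev F x) * ev Q x) ∂μ).re - S * EB μ F Q| ≤
        C * ε ^ (1 / 2 : ℝ) :=
  SV.first_var_core hμ (EB_comm hμ) (En_nonneg hμ) S hS hmax M

namespace SV

/-- `E[x²] ≤ 1 + S` -/
theorem X2_le (hμ : Law μ) {S : ℝ} (hmax : ∀ P ∈ HP, I3 μ P ≤ S * En μ P ^ (3 / 2 : ℝ))
    {ψ : Poly} (hψ : ψ ∈ HP) (h1 : En μ (AP ψ) = 1) :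
    (∫ x, conj (ev (AP ψ) x) * (2 * ev ψ x) ∂μ).re ≤ 1 + S := by
  have := hμ.prob
  have h2 := lev_x2 hμ ψ hψ
  have h3 := int_sq hμ (AP ψ)
  have i2 : Integrable (fun x => ‖ev (AP ψ) x‖ ^ 2) μ :=
    law_integrable_real hμ ((continuous_ev _).norm.pow 2)
  have i3 : Integrable (fun x => ‖ev (AP ψ) x‖ ^ 3) μ :=
    law_integrable_real hμ ((continuous_ev _).norm.pow 3)
  have h4 : ‖ev (AP ψ) 0‖ ^ 2 ≤ ∫ x, ‖ev (AP ψ) x‖ ^ 2 ∂μ := by
    rw [← norm_pow, ← h3]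
    refine (norm_integral_le_integral_norm _).trans (le_of_eq ?_)
    simp only [norm_pow]
  have h5 : ∫ x, ‖ev (AP ψ) x‖ ^ 2 ∂μ ≤ 1 + I3 μ (AP ψ) := by
    have e : (1 : ℝ) = ∫ _x : C6, (1 : ℝ) ∂μ := by simp
    rw [e, I3, ← integral_add (integrable_const _) i3]
    refine integral_mono i2 ((integrable_const _).add i3) fun x => ?_
    have h0 := norm_nonneg (ev (AP ψ) x)
    simp only
    nlinarith [mul_nonneg h0 (sq_nonneg (‖ev (AP ψ) x‖ - 1)), sq_nonneg (‖ev (AP ψ) x‖ - 1)]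
  have h6 := hmax _ (HP_AP_mem ψ hψ)
  rw [h1, Real.one_rpow, mul_one] at h6
  linarith

/-- sum of the energies of the test directions -/
theorem sum_energy (hμ : Law μ) {ψ : Poly} (hψ : ψ ∈ HP) (h1 : En μ (AP ψ) = 1) :
    ∑ j, (En μ (K1 ψ j) + En μ (K2 ψ j)) =
      8 + 4 * (∫ x, conj (ev (AP ψ) x) * (2 * ev ψ x) ∂μ).re := by
  have h2 := ladder hμ ψ hψ
  rw [h1] at h2
  have h3 : ∀ j : Fin 6, En μ (K1 ψ j) + En μ (K2 ψ j) =
      2 * (En μ (MvPolynomial.pderiv j ψ) + En μ (RP j ψ)) := by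
    intro j
    unfold K1 K2
    rw [En_par hμ]
    ring
  rw [Finset.sum_congr rfl fun j _ => h3 j, ← Finset.mul_sum, h2]
  ring

end SV

open SV in
/-- the inequality (I) -/
theorem second_var (hμ : Law μ) (S : ℝ) (hS : 1 ≤ S)
    (hmax : ∀ P ∈ HP, I3 μ P ≤ S * En μ P ^ (3 / 2 : ℝ)) :
    ∃ C : ℝ, 0 ≤ C ∧ ∀ ψ ∈ HP, ∀ ε : ℝ, 0 < ε → ε ≤ 1 → En μ (AP ψ) = 1 → S - ε ≤ I3 μ (AP ψ) →
      (∀ j, ‖∫ x, x j * ((‖ev (AP ψ) x‖ ^ 3 : ℝ) : ℂ) ∂μ‖ ≤ ε) →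
      ∫ x, ‖ev (AP ψ) x‖ * G2 ψ x ∂μ ≤
        S * (∫ x, conj (ev (AP ψ) x) * (2 * ev ψ x) ∂μ).re + C * ε ^ (1 / 4 : ℝ) := by
  have := hμ.prob
  have hS0 : 0 ≤ S := zero_le_one.trans hS
  set M : ℝ := 12 + 4 * S with hM
  set M' : ℝ := 1 + M with hM'
  have hM'0 : 0 ≤ M' := by positivity
  obtain ⟨C1, hC10, hC1⟩ := first_var hμ S hS hmax M
  set D2 : ℝ := S * (M' ^ 2 + 27 * M' ^ 3) with hD2
  have hD20 : 0 ≤ D2 := by positivity
  set C2 : ℝ := 4 * C1 * (S * M' + C1) + 2 * C1 ^ 2 + 4 * (2 * (S * M' + C1) + 2) + 4 with hC2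
  have hC20 : 0 ≤ C2 := by positivity
  refine ⟨2 + 3 / 2 * (C2 + 2 / 3 * (D2 + 2)), by positivity, ?_⟩
  intro ψ hψ ε he0 he1 h1 hnear hcent
  set t : ℝ := ε ^ (1 / 4 : ℝ) with ht
  have ht0 : 0 < t := Real.rpow_pos_of_pos he0 _
  have ht1 : t ≤ 1 := Real.rpow_le_one he0.le he1 (by norm_num)
  have ht2 : t ^ 2 = ε ^ (1 / 2 : ℝ) := by
    rw [ht, ← Real.rpow_natCast, ← Real.rpow_mul he0.le]; norm_num
  have ht4 : t ^ 4 = ε := by
    rw [ht, ← Real.rpow_natCast, ← Real.rpow_mul he0.le]; norm_num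
  have ht2t : t ^ 2 ≤ t := by nlinarith
  have hεt : ε ≤ t := by
    rw [← ht4]
    calc t ^ 4 = t ^ 2 * t ^ 2 := by ring
      _ ≤ t * 1 := mul_le_mul ht2t (ht2t.trans ht1) (by positivity) ht0.le
      _ = t := mul_one t
  have hεt2 : ε / t ^ 2 ≤ t := by
    rw [div_le_iff₀ (by positivity), ← ht4]
    have : t ^ 4 = t * (t * t ^ 2) := by ring
    rw [this]
    refine mul_le_mul_of_nonneg_left ?_ ht0.le
    calc t * t ^ 2 ≤ 1 * t ^ 2 := mul_le_mul_of_nonneg_right ht1 (by positivity)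
      _ = t ^ 2 := one_mul _
  set F := AP ψ with hF
  have hFm : F ∈ HP := HP_AP_mem ψ hψ
  set X2 := (∫ x, conj (ev F x) * (2 * ev ψ x) ∂μ).re with hX2
  have hX2le : X2 ≤ 1 + S := X2_le hμ hmax hψ h1
  have hsum := sum_energy hμ hψ h1
  have hK1m : ∀ j, K1 ψ j ∈ HP := fun j => HP.add_mem (HP_pderiv_mem j ψ hψ) (HP_RP_mem j ψ hψ)
  have hK2m : ∀ j, K2 ψ j ∈ HP := fun j =>
    HP.smul_mem _ (HP.sub_mem (HP_RP_mem j ψ hψ) (HP_pderiv_mem j ψ hψ))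
  have hen := En_nonneg hμ
  have hle : ∀ j, En μ (K1 ψ j) + En μ (K2 ψ j) ≤ M := by
    intro j
    have h2 : En μ (K1 ψ j) + En μ (K2 ψ j) ≤ ∑ j, (En μ (K1 ψ j) + En μ (K2 ψ j)) :=
      Finset.single_le_sum (f := fun j => En μ (K1 ψ j) + En μ (K2 ψ j))
        (fun i _ => add_nonneg (hen _) (hen _)) (Finset.mem_univ j)
    rw [hsum] at h2
    linarith
  have hI3 : I3 μ F ≤ S := by
    have h6 := hmax _ hFm
    rwa [h1, Real.one_rpow, mul_one] at h6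
  have hI30 : 0 ≤ I3 μ F := integral_nonneg fun x => by positivity
  obtain ⟨A, hA0, hA⟩ := law_bdd hμ F
  set δ : ℝ := C1 * ε ^ (1 / 2 : ℝ) with hδ
  have hδ0 : 0 ≤ δ := by rw [hδ]; positivity
  have hδt : δ ≤ C1 * t := by
    rw [hδ, ← ht2]
    exact mul_le_mul_of_nonneg_left ht2t hC10
  have hδ1 : δ ≤ C1 := hδt.trans (by nlinarith)
  -- the estimate for one index
  have key : ∀ j : Fin 6,
      (∫ x, q3 (ev F x) (ev (K1 ψ j) x) ∂μ) + (∫ x, q3 (ev F x) (ev (K2 ψ j) x) ∂μ) ≤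
        S * (En μ (K1 ψ j) + En μ (K2 ψ j)) + (∫ x, ‖Zx ψ j x‖ ^ 2 / ‖ev F x‖ ∂μ) +
          (C2 + 2 / 3 * (D2 + 2)) * t := by
    intro j
    have e1M : En μ (K1 ψ j) ≤ M := by linarith [hle j, hen (K2 ψ j)]
    have e2M : En μ (K2 ψ j) ≤ M := by linarith [hle j, hen (K1 ψ j)]
    have c1M : |EB μ F (K1 ψ j)| ≤ M' := (abs_EB_le hμ (EB_comm hμ) hen h1).trans (by linarith)
    have c2M : |EB μ F (K2 ψ j)| ≤ M' := (abs_EB_le hμ (EB_comm hμ) hen h1).trans (by linarith)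
    obtain ⟨B, _, hB⟩ := law_bdd hμ (K1 ψ j)
    obtain ⟨B', _, hB'⟩ := law_bdd hμ (K2 ψ j)
    have s1 := second_var_abs (aem_ev F) (aem_ev (K1 ψ j)) hA hB hS0 ht0 ht1 (hen (K1 ψ j))
      (e1M.trans (by linarith)) c1M
      (fun s => (sup_line hμ (EB_comm hμ) hen hmax hFm (hK1m j) h1 s).1)
      (fun s => (sup_line hμ (EB_comm hμ) hen hmax hFm (hK1m j) h1 s).2) hnear
    have s2 := second_var_abs (aem_ev F) (aem_ev (K2 ψ j)) hA hB' hS0 ht0 ht1 (hen (K2 ψ j))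
      (e2M.trans (by linarith)) c2M
      (fun s => (sup_line hμ (EB_comm hμ) hen hmax hFm (hK2m j) h1 s).1)
      (fun s => (sup_line hμ (EB_comm hμ) hen hmax hFm (hK2m j) h1 s).2) hnear
    have f1 := hC1 F hFm (K1 ψ j) (hK1m j) ε he0 he1 h1 e1M hnear
    have f2 := hC1 F hFm (K2 ψ j) (hK2m j) ε he0 he1 h1 e2M hnear
    obtain ⟨Λ, W, hL1, hL2, hLW, hW⟩ := lam_eq hμ ψ j
    have hLW' : ‖Λ - W‖ ≤ 2 * ε := by
      rw [hLW, norm_mul]
      have := hcent j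
      simp only [Complex.norm_ofNat]
      linarith
    -- Cauchy-Schwarz
    obtain ⟨BU, hBU0, hBU⟩ := law_bdd_cont hμ (continuous_Uf ψ j)
    have hWW : ‖W‖ ^ 2 ≤ I3 μ F * ∫ x, ‖Zx ψ j x‖ ^ 2 / ‖ev F x‖ ∂μ := by
      have hBj0 : 0 ≤ ∫ x, ‖Zx ψ j x‖ ^ 2 / ‖ev F x‖ ∂μ := integral_nonneg fun x => by positivity
      have hZb : ∀ᵐ x ∂μ, ‖Zx ψ j x‖ ≤ (2 * BU) * ‖ev F x‖ := by
        filter_upwards [law_supp' hμ, hBU] with x hx h2
        refine (norm_Zx_le hx.2.2 ψ j).trans ?_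
        have : 2 * ‖Uf ψ j x‖ ≤ 2 * BU := by linarith
        exact mul_le_mul_of_nonneg_right this (norm_nonneg _)
      rcases hI30.eq_or_lt with h0 | h0
      · -- then `F = 0` a.e.
        have hz : (∫ x, ‖ev F x‖ * ‖Zx ψ j x‖ ∂μ) = 0 := by
          have i3 : Integrable (fun x => ‖ev F x‖ ^ 3) μ :=
            law_integrable_real hμ ((continuous_ev _).norm.pow 3)
          have h4 := (integral_eq_zero_iff_of_nonneg (fun x => by positivity) i3).1 h0.symm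
          refine integral_eq_zero_of_ae ?_
          filter_upwards [h4] with x hx
          have : ‖ev F x‖ = 0 := by simpa using hx
          simp [this]
        have hW0 : ‖W‖ = 0 := le_antisymm (by rw [← hz]; exact hW) (norm_nonneg _)
        rw [hW0]
        have := mul_nonneg hI30 hBj0
        simpa using this
      · have hcs := cs_weight (μ := μ) (f := fun x => ‖ev F x‖) (z := fun x => ‖Zx ψ j x‖)
          (continuous_ev F).norm.measurable.aemeasurable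
          (continuous_Zx ψ j).norm.measurable.aemeasurable (fun x => norm_nonneg _)
          (fun x => norm_nonneg _) hA hZb hA0 (by positivity) h0
        calc ‖W‖ ^ 2 ≤ (∫ x, ‖ev F x‖ * ‖Zx ψ j x‖ ∂μ) ^ 2 :=
              pow_le_pow_left₀ (norm_nonneg _) hW 2
          _ ≤ _ := hcs
    have hBj0 : 0 ≤ ∫ x, ‖Zx ψ j x‖ ^ 2 / ‖ev F x‖ ∂μ := integral_nonneg fun x => by positivity
    have cb := c_bound (S := S) (M := M') (δ := δ) (ε := ε) (A := I3 μ F)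
      (B := ∫ x, ‖Zx ψ j x‖ ^ 2 / ‖ev F x‖ ∂μ) (c := EB μ F (K1 ψ j)) (c' := EB μ F (K2 ψ j))
      hS hM'0 hδ0 he0.le f1 f2 c1M c2M hL1 hL2 hLW' hWW hI3 hBj0
    set Bj := ∫ x, ‖Zx ψ j x‖ ^ 2 / ‖ev F x‖ ∂μ with hBj
    have hE : 4 * δ * (S * M' + δ) + 2 * δ ^ 2 + 4 * ε * (2 * (S * M' + δ) + 2 * ε) + 4 * ε ^ 2 ≤
        C2 * t := by
      have g1 : δ * (S * M' + δ) ≤ (C1 * t) * (S * M' + C1) :=
        mul_le_mul hδt (by linarith) (by positivity) (by positivity)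
      have g2 : δ ^ 2 ≤ C1 ^ 2 * t := by
        calc δ ^ 2 = δ * δ := sq δ
          _ ≤ (C1 * t) * C1 := mul_le_mul hδt hδ1 hδ0 (by positivity)
          _ = _ := by ring
      have g3 : ε * (2 * (S * M' + δ) + 2 * ε) ≤ t * (2 * (S * M' + C1) + 2) :=
        mul_le_mul hεt (by linarith) (by positivity) ht0.le
      have g4 : ε ^ 2 ≤ t := by
        calc ε ^ 2 = ε * ε := sq ε
          _ ≤ t * 1 := mul_le_mul hεt he1 he0.le ht0.le
          _ = t := mul_one t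
      calc 4 * δ * (S * M' + δ) + 2 * δ ^ 2 + 4 * ε * (2 * (S * M' + δ) + 2 * ε) + 4 * ε ^ 2
          = 4 * (δ * (S * M' + δ)) + 2 * δ ^ 2 + 4 * (ε * (2 * (S * M' + δ) + 2 * ε)) +
            4 * ε ^ 2 := by ring
        _ ≤ 4 * ((C1 * t) * (S * M' + C1)) + 2 * (C1 ^ 2 * t) +
            4 * (t * (2 * (S * M' + C1) + 2)) + 4 * t :=
          add_le_add (add_le_add (add_le_add (mul_le_mul_of_nonneg_left g1 (by norm_num))
            (mul_le_mul_of_nonneg_left g2 (by norm_num)))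
            (mul_le_mul_of_nonneg_left g3 (by norm_num)))
            (mul_le_mul_of_nonneg_left g4 (by norm_num))
        _ = C2 * t := by rw [hC2]; ring
    have hr : (D2 * t + 2 * ε / t ^ 2) / 3 ≤ 1 / 3 * (D2 + 2) * t := by
      have : 2 * ε / t ^ 2 = 2 * (ε / t ^ 2) := by ring
      rw [this]
      linarith
    rw [← hD2] at s1 s2
    have a1 := add_le_add s1 s2
    refine a1.trans ?_
    calc S * (En μ (K1 ψ j) + EB μ F (K1 ψ j) ^ 2) + (D2 * t + 2 * ε / t ^ 2) / 3 +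
          (S * (En μ (K2 ψ j) + EB μ F (K2 ψ j) ^ 2) + (D2 * t + 2 * ε / t ^ 2) / 3)
        = S * (En μ (K1 ψ j) + En μ (K2 ψ j)) +
          S * (EB μ F (K1 ψ j) ^ 2 + EB μ F (K2 ψ j) ^ 2) +
          2 * ((D2 * t + 2 * ε / t ^ 2) / 3) := by ring
      _ ≤ S * (En μ (K1 ψ j) + En μ (K2 ψ j)) + (Bj + C2 * t) +
          2 * (1 / 3 * (D2 + 2) * t) := by
        have a2 := cb.trans (add_le_add_right hE Bj)
        linarith
      _ = _ := by ring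
  have hq := sum_q3 hμ ψ
  have hs : ∑ j : Fin 6, ((∫ x, q3 (ev F x) (ev (K1 ψ j) x) ∂μ) +
      (∫ x, q3 (ev F x) (ev (K2 ψ j) x) ∂μ)) ≤
      ∑ j : Fin 6, (S * (En μ (K1 ψ j) + En μ (K2 ψ j)) + (∫ x, ‖Zx ψ j x‖ ^ 2 / ‖ev F x‖ ∂μ) +
          (C2 + 2 / 3 * (D2 + 2)) * t) := Finset.sum_le_sum fun j _ => key j
  have hr : ∑ j : Fin 6, (S * (En μ (K1 ψ j) + En μ (K2 ψ j)) +
      (∫ x, ‖Zx ψ j x‖ ^ 2 / ‖ev F x‖ ∂μ) + (C2 + 2 / 3 * (D2 + 2)) * t) =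
      S * (8 + 4 * X2) + (∑ j : Fin 6, ∫ x, ‖Zx ψ j x‖ ^ 2 / ‖ev F x‖ ∂μ) +
        6 * ((C2 + 2 / 3 * (D2 + 2)) * t) := by
    rw [Finset.sum_add_distrib, Finset.sum_add_distrib, ← Finset.mul_sum, hsum, Finset.sum_const,
      Finset.card_univ, Fintype.card_fin, nsmul_eq_mul]
    push_cast
    ring
  rw [hr, hq] at hs
  linarith

end Pool.Agent.Cone5
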