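import Pool.Agent.Work.MP_b0b133_an.D5.FINa
import Pool.Agent.Work.MP_b0b133_an.D5.SV

/-!
# The sharp inequality for harmonic polynomials, from the functional inequality
-/

set_option autoImplicit false
open MeasureTheory Complex
open scoped ENNReal ComplexConjugate

namespace Pool.Agent.Cone5

variable {μ : Measure C6}

theorem poly_main_of_FI (hμ : Law μ) (hC : Conf μ) (hFI : FuncIneq μ) (P : Poly) (h : P ∈ HP) :
    I3 μ P ≤ En μ P ^ (3 / 2 : ℝ) :=
  poly_main_of hμ hC (fun S hS hmax M => first_var hμ S hS hmax M)
    (fun S hS hmax => second_var hμ S hS hmax) hFI P h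

end Pool.Agent.Cone5
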