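import Pool.Agent.Work.MP_b0b133_an.D5.Inst
import Pool.Agent.Work.MP_b0b133_an.D5.FINs
import Pool.Agent.Work.MP_b0b133_an.D5.FI
import Pool.Agent.Work.MP_b0b133_an.G.OVLp

/-!
# The sharp inequality on exponentials in dimension five
-/

set_option autoImplicit false
open MeasureTheory Complex
open scoped ENNReal ComplexConjugate

namespace Pool.Agent.Cone5

/-- the sharp inequality for harmonic polynomials, `d = 5` -/
theorem poly_main {μ : Measure C6} (hμ : Law μ) (hC : Conf μ) (P : Poly) (h : P ∈ HP) :
    I3 μ P ≤ En μ P ^ (3 / 2 : ℝ) :=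
  poly_main_of_FI hμ hC (fun ψ hψ => func_ineq hμ ψ hψ) P h

theorem sharp_five : ConeG.Sharp 5 :=
  sharp_of_poly fun P hP => poly_main law_muX (conf_muX (ConeG.nearOvl 5)) P hP

end Pool.Agent.Cone5

namespace Pool.Agent.ConeG

/-- the sharp inequality in dimension five -/
theorem sharp5 : Sharp 5 := Cone5.sharp_five

end Pool.Agent.ConeG
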