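import Pool.Agent.Work.MP_b0b133_an.D5.P0

/-!
# Algebra of the polynomial world: commutation rules and harmonic polynomials
-/

set_option autoImplicit false
open MeasureTheory Complex MvPolynomial
open scoped ENNReal ComplexConjugate

namespace Pool.Agent.Cone5.Alg

/-! ### Commutation rules -/

theorem C_two : (C (2 : ℂ) : Poly) = 2 := map_ofNat C 2

theorem C_four : (C (4 : ℂ) : Poly) = 4 := map_ofNat C 4

theorem C_six : (C (6 : ℂ) : Poly) = 6 := map_ofNat C 6

theorem C_seven : (C (7 : ℂ) : Poly) = 7 := map_ofNat C 7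

theorem C_twelve : (C (12 : ℂ) : Poly) = 12 := map_ofNat C 12

theorem C_neg_one : (C (-1 : ℂ) : Poly) = -1 := by rw [C_neg, C_1]

theorem pderiv_pderiv_comm (i j : Fin 6) (P : Poly) :
    pderiv i (pderiv j P) = pderiv j (pderiv i P) := by
  ext m
  rw [coeff_pderiv, coeff_pderiv, coeff_pderiv, coeff_pderiv]
  have h1 : m + Finsupp.single i 1 + Finsupp.single j 1
      = m + Finsupp.single j 1 + Finsupp.single i 1 := by
    rw [add_assoc, add_comm (Finsupp.single i 1), ← add_assoc]
  rw [h1]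
  rcases eq_or_ne i j with rfl | hij
  · rfl
  · simp only [Finsupp.add_apply, Finsupp.single_eq_of_ne hij, Finsupp.single_eq_of_ne hij.symm,
      add_zero]
    ring

theorem NP_add (P Q : Poly) : NP (P + Q) = NP P + NP Q := by
  simp only [NP, map_add, mul_add, Finset.sum_add_distrib]

theorem NP_smul (c : ℂ) (P : Poly) : NP (c • P) = c • NP P := by
  simp only [NP, Derivation.map_smul, Finset.smul_sum, mul_smul_comm]

theorem NP_sum {ι : Type*} (s : Finset ι) (P : ι → Poly) :
    NP (∑ i ∈ s, P i) = ∑ i ∈ s, NP (P i) := by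
  simp only [NP, map_sum, Finset.mul_sum]
  rw [Finset.sum_comm]

theorem NP_zero : NP 0 = 0 := by simp [NP]

theorem NP_mul (P Q : Poly) : NP (P * Q) = NP P * Q + P * NP Q := by
  simp only [NP, Derivation.leibniz, smul_eq_mul, Finset.sum_mul, Finset.mul_sum,
    ← Finset.sum_add_distrib]
  refine Finset.sum_congr rfl fun j _ => ?_
  ring

theorem NP_X (j : Fin 6) : NP (MvPolynomial.X j) = MvPolynomial.X j := by
  unfold NP
  rw [Finset.sum_eq_single j]
  · simp
  · intro k _ hk
    rw [pderiv_X_of_ne hk.symm, mul_zero]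
  · simp

theorem pderiv_X' (i j : Fin 6) : pderiv i (MvPolynomial.X j : Poly) = if i = j then 1 else 0 := by
  rcases eq_or_ne i j with rfl | h
  · simp
  · rw [pderiv_X_of_ne h.symm, if_neg h]

theorem pderiv_sqP (j : Fin 6) : pderiv j sqP = (2 : ℂ) • MvPolynomial.X j := by
  unfold sqP
  rw [map_sum, Finset.sum_eq_single j]
  · rw [pow_two, Derivation.leibniz, pderiv_X_self, smul_eq_mul, mul_one, ← two_smul ℂ (MvPolynomial.X j)]
  · intro k _ hk
    rw [pow_two, Derivation.leibniz, pderiv_X_of_ne hk, smul_zero, add_zero]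
  · simp

theorem NP_sqP : NP sqP = (2 : ℂ) • sqP := by
  unfold NP
  simp only [pderiv_sqP, mul_smul_comm, ← Finset.smul_sum]
  rw [sqP]
  congr 1
  exact Finset.sum_congr rfl fun j _ => (pow_two _).symm

theorem pderiv_NP (j : Fin 6) (P : Poly) : pderiv j (NP P) = NP (pderiv j P) + pderiv j P := by
  unfold NP
  rw [map_sum]
  have h1 : ∀ k : Fin 6, pderiv j (MvPolynomial.X k * pderiv k P)
      = MvPolynomial.X k * pderiv k (pderiv j P) + (if j = k then 1 else 0) * pderiv k P := fun k => by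
    rw [Derivation.leibniz, smul_eq_mul, smul_eq_mul, pderiv_X', pderiv_pderiv_comm j k]
    ring
  rw [Finset.sum_congr rfl fun k _ => h1 k, Finset.sum_add_distrib]
  congr 1
  simp

theorem NP_pderiv (j : Fin 6) (P : Poly) : NP (pderiv j P) = pderiv j (NP P) - pderiv j P := by
  rw [pderiv_NP, add_sub_cancel_right]

theorem AP_add (P Q : Poly) : AP (P + Q) = AP P + AP Q := by
  simp only [AP, NP_add, smul_add]
  abel

theorem AP_smul (c : ℂ) (P : Poly) : AP (c • P) = c • AP P := by
  simp only [AP, NP_smul, smul_add, smul_comm c (2 : ℂ)]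

theorem AP_sum {ι : Type*} (s : Finset ι) (P : ι → Poly) :
    AP (∑ i ∈ s, P i) = ∑ i ∈ s, AP (P i) := by
  simp only [AP, NP_sum, Finset.smul_sum, Finset.sum_add_distrib]

theorem RP_add (j : Fin 6) (P Q : Poly) : RP j (P + Q) = RP j P + RP j Q := by
  simp only [RP, AP_add, mul_add, smul_add, map_add]
  abel

theorem RP_smul (j : Fin 6) (c : ℂ) (P : Poly) : RP j (c • P) = c • RP j P := by
  simp only [RP, AP_smul, mul_smul_comm, Derivation.map_smul, smul_sub, smul_comm c (2 : ℂ)]

/-! ### The Laplacian -/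

/-- the Laplacian -/
noncomputable def LA (P : Poly) : Poly := ∑ j, pderiv j (pderiv j P)

theorem mem_HP {P : Poly} : P ∈ HP ↔ LA P = 0 := Iff.rfl

theorem LA_add (P Q : Poly) : LA (P + Q) = LA P + LA Q := by
  simp only [LA, map_add, Finset.sum_add_distrib]

theorem LA_smul (c : ℂ) (P : Poly) : LA (c • P) = c • LA P := by
  simp only [LA, Derivation.map_smul, Finset.smul_sum]

theorem LA_pderiv (j : Fin 6) (P : Poly) : LA (pderiv j P) = pderiv j (LA P) := by
  unfold LA
  rw [map_sum]
  refine Finset.sum_congr rfl fun k _ => ?_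
  rw [pderiv_pderiv_comm k j, pderiv_pderiv_comm k j]

theorem LA_X_mul (j : Fin 6) (P : Poly) :
    LA (MvPolynomial.X j * P) = (2 : ℂ) • pderiv j P + MvPolynomial.X j * LA P := by
  unfold LA
  have h1 : ∀ k : Fin 6, pderiv k (pderiv k (MvPolynomial.X j * P))
      = (if k = j then (2 : ℂ) • pderiv k P else 0)
        + MvPolynomial.X j * pderiv k (pderiv k P) := fun k => by
    rcases eq_or_ne k j with rfl | h
    · rw [if_pos rfl, Derivation.leibniz, pderiv_X_self, smul_eq_mul, smul_eq_mul, mul_one,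
        map_add, Derivation.leibniz, pderiv_X_self, smul_eq_mul, smul_eq_mul, mul_one, two_smul]
      ring
    · rw [if_neg h, Derivation.leibniz, pderiv_X_of_ne h.symm, smul_zero, add_zero, smul_eq_mul,
        Derivation.leibniz, pderiv_X_of_ne h.symm, smul_zero, add_zero, zero_add, smul_eq_mul]
  rw [Finset.sum_congr rfl fun k _ => h1 k, Finset.sum_add_distrib, ← Finset.mul_sum]
  congr 1
  rw [Finset.sum_ite_eq' Finset.univ j, if_pos (Finset.mem_univ j)]

theorem LA_NP (P : Poly) : LA (NP P) = NP (LA P) + (2 : ℂ) • LA P := by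
  unfold LA
  have h1 : ∀ k : Fin 6, pderiv k (pderiv k (NP P))
      = NP (pderiv k (pderiv k P)) + (2 : ℂ) • pderiv k (pderiv k P) := fun k => by
    rw [pderiv_NP, map_add, pderiv_NP, two_smul, add_assoc]
  rw [Finset.sum_congr rfl fun k _ => h1 k, Finset.sum_add_distrib, NP_sum, Finset.smul_sum]

theorem LA_sqP_mul (P : Poly) :
    LA (sqP * P) = (12 : ℂ) • P + (4 : ℂ) • NP P + sqP * LA P := by
  unfold LA
  have h1 : ∀ k : Fin 6, pderiv k (pderiv k (sqP * P))
      = (2 : ℂ) • P + (4 : ℂ) • (MvPolynomial.X k * pderiv k P) + sqP * pderiv k (pderiv k P) := fun k => by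
    rw [Derivation.leibniz, smul_eq_mul, smul_eq_mul, pderiv_sqP, map_add, Derivation.leibniz,
      Derivation.leibniz, smul_eq_mul, smul_eq_mul, smul_eq_mul, smul_eq_mul, pderiv_sqP,
      Derivation.map_smul, pderiv_X_self]
    simp only [smul_eq_C_mul, C_four, C_two]
    ring
  rw [Finset.sum_congr rfl fun k _ => h1 k, Finset.sum_add_distrib, Finset.sum_add_distrib,
    ← Finset.mul_sum, ← Finset.smul_sum]
  congr 2
  · rw [Finset.sum_const, Finset.card_univ, Fintype.card_fin, ← Nat.cast_smul_eq_nsmul ℂ,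
      smul_smul]
    norm_num
  · rw [← Finset.smul_sum]
    rfl

/-! ### Harmonic polynomials -/

theorem pderiv_mem_HP (j : Fin 6) {P : Poly} (h : P ∈ HP) : pderiv j P ∈ HP := by
  rw [mem_HP] at *
  rw [LA_pderiv, h, map_zero]

theorem NP_mem_HP {P : Poly} (h : P ∈ HP) : NP P ∈ HP := by
  rw [mem_HP] at *
  rw [LA_NP, h, NP_zero, smul_zero, add_zero]

theorem AP_mem_HP {P : Poly} (h : P ∈ HP) : AP P ∈ HP :=
  HP.add_mem (NP_mem_HP h) (HP.smul_mem _ h)

theorem RP_mem_HP (j : Fin 6) {P : Poly} (h : P ∈ HP) : RP j P ∈ HP := by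
  rw [mem_HP]
  have h1 : LA (pderiv j P) = 0 := pderiv_mem_HP j h
  have h2 : LA (AP P) = 0 := AP_mem_HP h
  have h3 : LA (RP j P) = (2 : ℂ) • LA (MvPolynomial.X j * AP P) + (-1 : ℂ) • LA (sqP * pderiv j P) := by
    rw [← LA_smul, ← LA_smul, ← LA_add]
    congr 1
    rw [RP, neg_one_smul, sub_eq_add_neg]
  rw [h3, LA_X_mul, LA_sqP_mul, h1, h2, AP, map_add, Derivation.map_smul, pderiv_NP]
  simp only [smul_eq_C_mul, C_neg_one, C_twelve, C_four, C_two]
  ring

/-! ### Sums of ladder operators -/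

theorem sum_X_mul_RP_aux (P : Poly) : ∑ j, MvPolynomial.X j * pderiv j P = NP P := rfl

theorem sum_RP_pderiv {P : Poly} (h : P ∈ HP) :
    ∑ j, RP j (pderiv j P) = (2 : ℂ) • (NP (NP P) + NP P) := by
  have h0 : ∑ j, pderiv j (pderiv j P) = 0 := h
  have h1 : ∀ j : Fin 6, RP j (pderiv j P)
      = (2 : ℂ) • (MvPolynomial.X j * pderiv j (NP P + P))
        - sqP * pderiv j (pderiv j P) := fun j => by
    rw [RP, AP, NP_pderiv, map_add]
    simp only [smul_eq_C_mul, C_two]
    ring
  rw [Finset.sum_congr rfl fun j _ => h1 j, Finset.sum_sub_distrib, ← Finset.mul_sum, h0,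
    mul_zero, sub_zero, ← Finset.smul_sum, ← NP_add]
  rfl

theorem sum_pderiv_RP {P : Poly} (h : P ∈ HP) :
    ∑ j, pderiv j (RP j P) = (2 : ℂ) • (NP (NP P) + (7 : ℂ) • NP P + (12 : ℂ) • P) := by
  have h0 : ∑ j, pderiv j (pderiv j P) = 0 := h
  have h1 : ∀ j : Fin 6, pderiv j (RP j P)
      = (2 : ℂ) • (AP P + MvPolynomial.X j * pderiv j (AP P)) - (2 : ℂ) • (MvPolynomial.X j * pderiv j P)
        - sqP * pderiv j (pderiv j P) := fun j => by
    rw [RP, map_sub, Derivation.map_smul, Derivation.leibniz, Derivation.leibniz, smul_eq_mul,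
      smul_eq_mul, smul_eq_mul, smul_eq_mul, pderiv_sqP, pderiv_X_self]
    simp only [smul_eq_C_mul]
    ring
  rw [Finset.sum_congr rfl fun j _ => h1 j, Finset.sum_sub_distrib, Finset.sum_sub_distrib,
    ← Finset.mul_sum, h0, mul_zero, sub_zero, ← Finset.smul_sum, ← Finset.smul_sum,
    Finset.sum_add_distrib, Finset.sum_const, Finset.card_univ, Fintype.card_fin]
  have h2 : ∑ j, MvPolynomial.X j * pderiv j (AP P) = NP (AP P) := rfl
  have h3 : ∑ j, MvPolynomial.X j * pderiv j P = NP P := rfl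
  rw [h2, h3, AP, NP_add, NP_smul, ← Nat.cast_smul_eq_nsmul ℂ]
  have e1 : (((6 : ℕ) : ℂ)) = 6 := by norm_num
  rw [e1]
  simp only [smul_eq_C_mul, C_six, C_twelve, C_seven, C_two]
  ring

/-! ### Homogeneous components -/

theorem pderiv_hc (j : Fin 6) (n : ℕ) (P : Poly) :
    pderiv j (homogeneousComponent (n + 1) P) = homogeneousComponent n (pderiv j P) := by
  ext m
  rw [coeff_pderiv, coeff_homogeneousComponent, coeff_homogeneousComponent, coeff_pderiv]
  have h1 : (m + Finsupp.single j 1).degree = m.degree + 1 := by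
    rw [map_add, Finsupp.degree_single]
  rw [h1]
  by_cases h : m.degree = n
  · rw [if_pos h, if_pos (by rw [h])]
  · rw [if_neg h, if_neg (fun h2 => h (by omega)), zero_mul]

theorem pderiv_hc_zero (j : Fin 6) (P : Poly) : pderiv j (homogeneousComponent 0 P) = 0 := by
  rw [homogeneousComponent_zero, pderiv_C]

theorem LA_hc (n : ℕ) (P : Poly) :
    LA (homogeneousComponent (n + 2) P) = homogeneousComponent n (LA P) := by
  unfold LA
  rw [map_sum]
  exact Finset.sum_congr rfl fun j _ => by rw [pderiv_hc, pderiv_hc]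

theorem hc_mem_HP (n : ℕ) {P : Poly} (h : P ∈ HP) : homogeneousComponent n P ∈ HP := by
  rw [mem_HP] at *
  rcases n with _ | _ | n
  · unfold LA
    exact Finset.sum_eq_zero fun j _ => by rw [pderiv_hc_zero, map_zero]
  · unfold LA
    exact Finset.sum_eq_zero fun j _ => by rw [pderiv_hc, pderiv_hc_zero]
  · rw [LA_hc, h, map_zero]

theorem NP_of_hom {l : ℕ} {P : Poly} (h : P.IsHomogeneous l) : NP P = (l : ℂ) • P := by
  unfold NP
  rw [h.sum_X_mul_pderiv, Nat.cast_smul_eq_nsmul]

theorem NP_hc (l : ℕ) (P : Poly) :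
    NP (homogeneousComponent l P) = (l : ℂ) • homogeneousComponent l P :=
  NP_of_hom (homogeneousComponent_isHomogeneous l P)

theorem hc_NP (l : ℕ) (P : Poly) :
    homogeneousComponent l (NP P) = (l : ℂ) • homogeneousComponent l P := by
  conv_lhs => rw [← sum_homogeneousComponent P, NP_sum, map_sum]
  simp only [NP_hc, map_smul]
  have h1 : ∀ i : ℕ, homogeneousComponent l (homogeneousComponent i P)
      = if l = i then homogeneousComponent l P else 0 := fun i => by
    rw [homogeneousComponent_of_mem (homogeneousComponent_mem i P)]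
    split_ifs with h
    · rw [h]
    · rfl
  simp only [h1, smul_ite, smul_zero]
  rw [Finset.sum_ite_eq]
  split_ifs with h
  · rfl
  · rw [Finset.mem_range, not_lt] at h
    rw [homogeneousComponent_eq_zero l P (by omega), smul_zero]

theorem AP_hc (l : ℕ) (P : Poly) :
    AP (homogeneousComponent l P) = ((l : ℂ) + 2) • homogeneousComponent l P := by
  rw [AP, NP_hc, add_smul]

theorem hc_AP (l : ℕ) (P : Poly) :
    homogeneousComponent l (AP P) = ((l : ℂ) + 2) • homogeneousComponent l P := by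
  rw [AP, map_add, map_smul, hc_NP, add_smul]

end Pool.Agent.Cone5.Alg
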