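import Pool.Agent.Work.MP_b0b133_an.D5.Alg2

/-!
# Rotations, and the adjoint of the derivatives
-/

set_option autoImplicit false
open MeasureTheory Complex MvPolynomial
open scoped ENNReal ComplexConjugate

namespace Pool.Agent.Cone5.Alg

variable {μ : Measure C6}

/-! ### Rotations -/

theorem LP_add (i j : Fin 6) (P Q : Poly) : LP i j (P + Q) = LP i j P + LP i j Q := by
  simp only [LP, map_add]
  ring

theorem LP_mul (i j : Fin 6) (P Q : Poly) : LP i j (P * Q) = LP i j P * Q + P * LP i j Q := by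
  simp only [LP, Derivation.leibniz, smul_eq_mul]
  ring

theorem LP_X (i j k : Fin 6) : LP i j (MvPolynomial.X k) =
    (if j = k then MvPolynomial.X i else 0) - (if i = k then MvPolynomial.X j else 0) := by
  simp only [LP, pderiv_X']
  split_ifs <;> simp

theorem rotm_continuous (i j : Fin 6) (t : ℝ) : Continuous (rotm i j t) := by
  refine continuous_pi fun k => ?_
  unfold rotm
  split_ifs <;> fun_prop

theorem rotm_zero (i j : Fin 6) (x : C6) : rotm i j 0 x = x := by
  ext k
  unfold rotm
  split_ifs with h1 h2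
  · simp [h1]
  · simp [h2]
  · rfl

theorem hasDerivAt_rotm {i j : Fin 6} (hij : i ≠ j) (x : C6) (P : Poly) (t : ℝ) :
    HasDerivAt (fun s : ℝ => ev P (rotm i j s x)) (ev (LP i j P) (rotm i j t x)) t := by
  induction P using MvPolynomial.induction_on with
  | C a =>
    have h1 : LP i j (C a) = 0 := by simp [LP]
    rw [h1, ev_zero]
    simpa [ev] using hasDerivAt_const t a
  | add P Q hP hQ =>
    rw [LP_add, ev_add]
    simp only [ev_add]
    exact hP.add hQ
  | mul_X P k hP =>
    have hk : HasDerivAt (fun s : ℝ => ev (MvPolynomial.X k) (rotm i j s x))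
        (ev (LP i j (MvPolynomial.X k)) (rotm i j t x)) t := by
      have hc : HasDerivAt (fun s : ℝ => ((Real.cos s : ℝ) : ℂ)) ((-Real.sin t : ℝ) : ℂ) t :=
        (Real.hasDerivAt_cos t).ofReal_comp
      have hs : HasDerivAt (fun s : ℝ => ((Real.sin s : ℝ) : ℂ)) ((Real.cos t : ℝ) : ℂ) t :=
        (Real.hasDerivAt_sin t).ofReal_comp
      simp only [ev_X, LP_X, ev_sub]
      by_cases h1 : k = i
      · subst h1
        have h2 : ∀ s : ℝ, rotm k j s x k
            = (Real.cos s : ℂ) * x k - (Real.sin s : ℂ) * x j := fun s => by simp [rotm]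
        simp only [h2]
        have h3 : rotm k j t x j = (Real.sin t : ℂ) * x k + (Real.cos t : ℂ) * x j := by
          simp [rotm, hij.symm]
        rw [if_neg hij.symm, if_true, ev_zero, ev_X, h3]
        refine ((hc.mul_const (x k)).sub (hs.mul_const (x j))).congr_deriv ?_
        push_cast
        ring
      · by_cases h2 : k = j
        · subst h2
          have h4 : ∀ s : ℝ, rotm i k s x k
              = (Real.sin s : ℂ) * x i + (Real.cos s : ℂ) * x k := fun s => by
            simp [rotm, hij.symm]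
          simp only [h4]
          have h3 : rotm i k t x i = (Real.cos t : ℂ) * x i - (Real.sin t : ℂ) * x k := by
            simp [rotm]
          rw [if_neg hij, if_true, ev_zero, ev_X, h3]
          refine ((hs.mul_const (x i)).add (hc.mul_const (x k))).congr_deriv ?_
          push_cast
          ring
        · have h4 : ∀ s : ℝ, rotm i j s x k = x k := fun s => by simp [rotm, h1, h2]
          simp only [h4]
          rw [if_neg (Ne.symm h2), if_neg (Ne.symm h1), ev_zero, sub_zero]
          exact hasDerivAt_const t _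
    rw [LP_mul, ev_add, ev_mul, ev_mul]
    simp only [ev_mul]
    exact hP.mul hk

theorem int_rot (hμ : Law μ) {i j : Fin 6} (hij : i ≠ j) (f : C6 → ℂ) (hf : Continuous f)
    (t : ℝ) : ∫ x, f (rotm i j t x) ∂μ = ∫ x, f x ∂μ := by
  conv_rhs => rw [← hμ.rot i j hij t]
  rw [integral_map (rotm_continuous i j t).aemeasurable hf.aestronglyMeasurable]

theorem norm_rotm_le (i j : Fin 6) (t : ℝ) {x : C6} (hx : ‖x‖ ≤ 1) : ‖rotm i j t x‖ ≤ 2 := by
  rw [pi_norm_le_iff_of_nonneg zero_le_two]
  intro k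
  have hx' : ∀ k, ‖x k‖ ≤ 1 := fun k => (norm_le_pi_norm x k).trans hx
  have hc : ‖((Real.cos t : ℝ) : ℂ)‖ ≤ 1 := by
    rw [norm_real]
    exact Real.abs_cos_le_one t
  have hs : ‖((Real.sin t : ℝ) : ℂ)‖ ≤ 1 := by
    rw [norm_real]
    exact Real.abs_sin_le_one t
  have hm : ∀ (a : ℂ) (k : Fin 6), ‖a‖ ≤ 1 → ‖a * x k‖ ≤ 1 := fun a k ha => by
    rw [norm_mul]
    exact mul_le_one₀ ha (norm_nonneg _) (hx' k)
  unfold rotm
  split_ifs
  · exact (norm_sub_le _ _).trans (by linarith [hm _ i hc, hm _ j hs])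
  · exact (norm_add_le _ _).trans (by linarith [hm _ i hs, hm _ j hc])
  · linarith [hx' k]

theorem ip_LP (hμ : Law μ) (i j : Fin 6) (P Q : Poly) :
    ip μ P (LP i j Q) = -ip μ (LP i j P) Q := by
  by_cases hij : i = j
  · subst hij
    have h1 : ∀ P : Poly, LP i i P = 0 := fun P => by simp [LP]
    rw [h1, h1, ip_zero_left, ip_zero_right, neg_zero]
  have := hμ.prob
  set G' : C6 → ℂ := fun x => conj (ev (LP i j P) x) * ev Q x + conj (ev P x) * ev (LP i j Q) x
    with hG'
  have hG'c : Continuous G' := (cont_ip _ _).add (cont_ip _ _)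
  obtain ⟨C, hC⟩ := (isCompact_closedBall (0 : C6) 2).exists_bound_of_continuousOn
    hG'c.continuousOn
  have key := (hasDerivAt_integral_of_dominated_loc_of_deriv_le (μ := μ) (𝕜 := ℝ)
    (F := fun (t : ℝ) x => conj (ev P (rotm i j t x)) * ev Q (rotm i j t x))
    (F' := fun (t : ℝ) x => G' (rotm i j t x)) (x₀ := (0 : ℝ)) (bound := fun _ => C)
    (s := Set.univ) Filter.univ_mem
    (Filter.Eventually.of_forall fun t =>
      ((cont_ip P Q).comp (rotm_continuous i j t)).aestronglyMeasurable)
    (integrable hμ ((cont_ip P Q).comp (rotm_continuous i j 0)))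
    ((hG'c.comp (rotm_continuous i j 0)).aestronglyMeasurable)
    (by
      filter_upwards [hμ.supp] with x hx t _
      exact hC _ (mem_closedBall_zero_iff.2 (norm_rotm_le i j t (norm_le_one hx.1))))
    (integrable_const C)
    (Filter.Eventually.of_forall fun x t _ => by
      have h1 := (hasDerivAt_rotm hij x P t).star
      have h2 := hasDerivAt_rotm hij x Q t
      exact h1.mul h2)).2
  have h1 : ∀ t : ℝ, ∫ x, conj (ev P (rotm i j t x)) * ev Q (rotm i j t x) ∂μ = ip μ P Q :=
    fun t => int_rot hμ hij _ (cont_ip P Q) t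
  simp only [h1] at key
  have h2 := key.unique (hasDerivAt_const (0 : ℝ) (ip μ P Q))
  rw [int_rot hμ hij G' hG'c 0, hG', integral_add (ip_integrable hμ _ _) (ip_integrable hμ _ _)]
    at h2
  change ip μ (LP i j P) Q + ip μ P (LP i j Q) = 0 at h2
  linear_combination h2

/-! ### The adjoint of the derivatives -/

/-- the adjoint of `∂_j` in `L²(μ)` -/
noncomputable def TP (j : Fin 6) (P : Poly) : Poly :=
  (2 : ℂ) • (MvPolynomial.X j * (NP P + (3 : ℂ) • P)) - sqP * pderiv j P

theorem mul_conj_comm {x : C6} (h2 : ∀ j, (∑ k, x k ^ 2) * conj (x j) = x j) (j k : Fin 6) :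
    x j * conj (x k) = conj (x j) * x k := by
  conv_lhs => rw [← h2 j]
  conv_rhs => rw [← h2 k]
  ring

theorem ev_pderiv_eq {x : C6} (h1 : ∑ j, ‖x j‖ ^ 2 = 1)
    (h2 : ∀ j, (∑ k, x k ^ 2) * conj (x j) = x j) (j : Fin 6) (Q : Poly) :
    ev (pderiv j Q) x = ∑ k, conj (x k) * ev (LP k j Q) x + conj (x j) * ev (NP Q) x := by
  have h3 : ∑ k, conj (x k) * x k = 1 := by
    have : ∀ k, conj (x k) * x k = ((‖x k‖ ^ 2 : ℝ) : ℂ) := fun k => by
      rw [conj_mul']
      push_cast
      rfl
    simp only [this]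
    rw [← ofReal_sum, h1, ofReal_one]
  have h4 : ∀ k, conj (x k) * ev (LP k j Q) x
      = (conj (x k) * x k) * ev (pderiv j Q) x - conj (x j) * (x k * ev (pderiv k Q) x) := by
    intro k
    have h5 := mul_conj_comm h2 j k
    rw [LP, ev_sub, ev_mul, ev_mul, ev_X, ev_X]
    linear_combination (-ev (pderiv k Q) x) * h5
  rw [Finset.sum_congr rfl fun k _ => h4 k, Finset.sum_sub_distrib, ← Finset.sum_mul, h3,
    ← Finset.mul_sum]
  have h6 : ev (NP Q) x = ∑ k, x k * ev (pderiv k Q) x := by
    rw [NP, ev_sum]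
    simp only [ev_mul, ev_X]
  rw [h6]
  ring

theorem sum_LP_X_mul (j : Fin 6) (P : Poly) :
    ∑ k, LP k j (MvPolynomial.X k * P)
      = sqP * pderiv j P - MvPolynomial.X j * NP P - (5 : ℂ) • (MvPolynomial.X j * P) := by
  have h1 : ∀ k : Fin 6, LP k j (MvPolynomial.X k * P)
      = (MvPolynomial.X k ^ 2 * pderiv j P - MvPolynomial.X j * (MvPolynomial.X k * pderiv k P))
        + (if j = k then MvPolynomial.X k * P else 0) - MvPolynomial.X j * P := by
    intro k
    rw [LP_mul, LP_X, LP]
    split_ifs <;> first | contradiction | ring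
  rw [Finset.sum_congr rfl fun k _ => h1 k, Finset.sum_sub_distrib, Finset.sum_add_distrib,
    Finset.sum_sub_distrib, ← Finset.sum_mul, ← Finset.mul_sum, Finset.sum_ite_eq,
    if_pos (Finset.mem_univ j), Finset.sum_const, Finset.card_univ, Fintype.card_fin]
  change sqP * pderiv j P - MvPolynomial.X j * NP P + _ - _ = _
  rw [smul_eq_C_mul, nsmul_eq_mul]
  have : (C (5 : ℂ) : Poly) = 5 := map_ofNat C 5
  rw [this]
  push_cast
  ring

theorem adj (hμ : Law μ) (j : Fin 6) (P Q : Poly) : ip μ P (pderiv j Q) = ip μ (TP j P) Q := by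
  have h1 : ip μ P (pderiv j Q)
      = ∑ k, ip μ (MvPolynomial.X k * P) (LP k j Q) + ip μ (MvPolynomial.X j * P) (NP Q) := by
    unfold ip
    rw [← integral_finsetSum _ fun k _ => ip_integrable hμ _ _,
      ← integral_add (integrable_finsetSum _ fun k _ => ip_integrable hμ _ _)
        (ip_integrable hμ _ _)]
    refine integral_congr_ae ?_
    filter_upwards [hμ.supp] with x hx
    rw [ev_pderiv_eq hx.1 hx.2, mul_add, Finset.mul_sum]
    congr 1
    · refine Finset.sum_congr rfl fun k _ => ?_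
      rw [ev_mul, ev_X, map_mul]
      ring
    · rw [ev_mul, ev_X, map_mul]
      ring
  rw [h1, Finset.sum_congr rfl fun k _ => ip_LP hμ k j _ Q, Finset.sum_neg_distrib,
    ← ip_sum_left hμ, ip_NP hμ, sum_LP_X_mul, NP_mul, NP_X]
  have h2 : ∀ A B : Poly, -ip μ A Q + ip μ B Q = ip μ (B - A) Q := fun A B => by
    rw [ip_sub_left hμ]
    ring
  rw [h2]
  congr 1
  unfold TP
  simp only [smul_eq_C_mul, C_two]
  have : (C (5 : ℂ) : Poly) = 5 := map_ofNat C 5
  have h3 : (C (3 : ℂ) : Poly) = 3 := map_ofNat C 3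
  rw [this, h3]
  ring

end Pool.Agent.Cone5.Alg
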