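import Pool.Agent.Work.MP_b0b133_an.D5.Defs

/-!
# The compactification measure: total mass, the coordinates `X j`
-/

set_option autoImplicit false
open MeasureTheory Complex
open scoped ENNReal ComplexConjugate

namespace Pool.Agent.Cone5

theorem C0_w_eq (a : R6) : w a = ((1 + ‖a.2‖ ^ 2 - a.1 ^ 2 : ℝ) : ℂ) + ((2 * a.1 : ℝ) : ℂ) * I := by
  simp only [w, qf, norm_zero, inner_zero_right]
  push_cast
  ring

theorem C0_w_re (a : R6) : (w a).re = 1 + ‖a.2‖ ^ 2 - a.1 ^ 2 := by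
  rw [C0_w_eq]
  simp [-ofReal_sub, -ofReal_add, -ofReal_mul, -ofReal_pow, -ofReal_one]

theorem C0_w_im (a : R6) : (w a).im = 2 * a.1 := by
  rw [C0_w_eq]
  simp [-ofReal_sub, -ofReal_add, -ofReal_mul, -ofReal_pow, -ofReal_one]

theorem C0_normSq (a : R6) :
    ‖w a‖ ^ 2 = (1 + ‖a.2‖ ^ 2 - a.1 ^ 2) ^ 2 + (2 * a.1) ^ 2 := by
  rw [← Complex.normSq_eq_norm_sq, Complex.normSq_apply, C0_w_re, C0_w_im]
  ring

/-- C4 : `‖w‖ ^ 2 = (1 + (t - r)²) (1 + (t + r)²)` -/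
theorem norm_sq_w (a : R6) : ‖w a‖ ^ 2 = (1 + (a.1 - ‖a.2‖) ^ 2) * (1 + (a.1 + ‖a.2‖) ^ 2) := by
  rw [C0_normSq]
  ring

theorem C0_one_le_norm_w (a : R6) : 1 ≤ ‖w a‖ := by
  have h : 1 ≤ ‖w a‖ ^ 2 := by
    rw [norm_sq_w]
    nlinarith [sq_nonneg (a.1 - ‖a.2‖), sq_nonneg (a.1 + ‖a.2‖),
      mul_nonneg (sq_nonneg (a.1 - ‖a.2‖)) (sq_nonneg (a.1 + ‖a.2‖))]
  nlinarith [norm_nonneg (w a)]

theorem C0_norm_w_pos (a : R6) : 0 < ‖w a‖ := lt_of_lt_of_le one_pos (C0_one_le_norm_w a)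

theorem C0_w_ne (a : R6) : w a ≠ 0 := norm_pos_iff.1 (C0_norm_w_pos a)

theorem C0_continuous_w : Continuous w := by
  have : w = fun a : R6 => ((1 + ‖a.2‖ ^ 2 - a.1 ^ 2 : ℝ) : ℂ) + ((2 * a.1 : ℝ) : ℂ) * I := by
    funext a
    exact C0_w_eq a
  rw [this]
  fun_prop

theorem C0_X_zero (a : R6) : X 0 a = (1 - ‖a.2‖ ^ 2 + a.1 ^ 2 : ℝ) / w a := rfl

theorem C0_X_succ (i : Fin 5) (a : R6) : X i.succ a = ((2 * a.2 i : ℝ) : ℂ) / w a := by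
  show 2 * (a.2 i : ℂ) / w a = _
  push_cast
  ring

/-- the numerators of the `X j` -/
noncomputable def C0_num (j : Fin 6) (a : R6) : ℝ :=
  Fin.cases (1 - ‖a.2‖ ^ 2 + a.1 ^ 2) (fun i : Fin 5 => 2 * a.2 i) j

theorem C0_X_eq (j : Fin 6) (a : R6) : X j a = (C0_num j a : ℂ) / w a := by
  refine Fin.cases ?_ (fun i => ?_) j
  · rw [C0_X_zero]; rfl
  · rw [C0_X_succ]; rfl

theorem C0_sum_num (a : R6) : ∑ j, C0_num j a ^ 2 = ‖w a‖ ^ 2 := by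
  rw [Fin.sum_univ_succ]
  have h0 : C0_num 0 a = 1 - ‖a.2‖ ^ 2 + a.1 ^ 2 := rfl
  have h1 : ∀ i : Fin 5, C0_num i.succ a = 2 * a.2 i := fun i => rfl
  have h2 : ‖a.2‖ ^ 2 = ∑ i, a.2 i ^ 2 := by
    rw [EuclideanSpace.real_norm_sq_eq]
  simp only [h0, h1]
  have h3 : ∑ i : Fin 5, (2 * a.2 i) ^ 2 = 4 * ‖a.2‖ ^ 2 := by
    rw [h2, Finset.mul_sum]
    refine Finset.sum_congr rfl fun i _ => ?_
    ring
  rw [h3, C0_normSq]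
  ring

/-- C2 : `|X| = 1` -/
theorem sum_norm_X (a : R6) : ∑ j, ‖X j a‖ ^ 2 = 1 := by
  have h : ∀ j, ‖X j a‖ ^ 2 = C0_num j a ^ 2 / ‖w a‖ ^ 2 := fun j => by
    rw [C0_X_eq, norm_div, div_pow, Complex.norm_real, Real.norm_eq_abs, sq_abs]
  rw [Finset.sum_congr rfl fun j _ => h j, ← Finset.sum_div, C0_sum_num]
  exact div_self (pow_ne_zero _ (C0_norm_w_pos a).ne')

/-- C3 -/
theorem sumsq_mul_conj_X (a : R6) (j : Fin 6) : (∑ k, X k a ^ 2) * conj (X j a) = X j a := by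
  have hw := C0_w_ne a
  have hcw : conj (w a) ≠ 0 := (map_ne_zero _).2 hw
  have h : ∑ k, X k a ^ 2 = conj (w a) / w a := by
    have h1 : ∀ k, X k a ^ 2 = ((C0_num k a ^ 2 : ℝ) : ℂ) / w a ^ 2 := fun k => by
      rw [C0_X_eq, div_pow]
      push_cast
      rfl
    rw [Finset.sum_congr rfl fun k _ => h1 k, ← Finset.sum_div, ← Complex.ofReal_sum, C0_sum_num,
      ← Complex.normSq_eq_norm_sq, ← Complex.mul_conj]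
    field_simp
  rw [h, C0_X_eq, map_div₀, Complex.conj_ofReal]
  field_simp

theorem C0_continuous_X (j : Fin 6) : Continuous (X j) := by
  have : X j = fun a => (C0_num j a : ℂ) / w a := by
    funext a
    exact C0_X_eq j a
  rw [this]
  refine Continuous.div ?_ C0_continuous_w C0_w_ne
  refine Complex.continuous_ofReal.comp ?_
  refine Fin.cases ?_ (fun i => ?_) j
  · show Continuous fun a : R6 => 1 - ‖a.2‖ ^ 2 + a.1 ^ 2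
    fun_prop
  · show Continuous fun a : R6 => 2 * a.2 i
    fun_prop

theorem C0_norm_X_le (j : Fin 6) (a : R6) : ‖X j a‖ ≤ 1 := by
  have h := sum_norm_X a
  have h1 : ‖X j a‖ ^ 2 ≤ 1 := by
    rw [← h]
    exact Finset.single_le_sum (f := fun j => ‖X j a‖ ^ 2) (fun i _ => by positivity)
      (Finset.mem_univ j)
  nlinarith [norm_nonneg (X j a)]

/-- the density of `mM0` -/
noncomputable def C0_dens (a : R6) : ℝ≥0∞ := ENNReal.ofReal (‖w a‖ ^ (-6 : ℝ))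

theorem C0_continuous_dens : Continuous fun a : R6 => ‖w a‖ ^ (-6 : ℝ) :=
  (C0_continuous_w.norm).rpow_const fun a => Or.inl (C0_norm_w_pos a).ne'

theorem C0_measurable_dens : Measurable C0_dens :=
  (C0_continuous_dens.measurable).ennreal_ofReal

theorem C0_dens_le (a : R6) : ‖w a‖ ^ (-6 : ℝ) ≤
    (1 + ‖a.2‖ ^ 2) ^ (-6 / 2 : ℝ) * (1 + ‖a.1 - ‖a.2‖‖ ^ 2) ^ (-6 / 2 : ℝ) +
      (1 + ‖a.2‖ ^ 2) ^ (-6 / 2 : ℝ) * (1 + ‖a.1 + ‖a.2‖‖ ^ 2) ^ (-6 / 2 : ℝ) := by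
  have h1 : ‖w a‖ ^ (-6 : ℝ) = (‖w a‖ ^ 2) ^ (-6 / 2 : ℝ) := by
    rw [← Real.rpow_natCast, ← Real.rpow_mul (norm_nonneg _)]
    norm_num
  have hr := norm_nonneg a.2
  rw [h1, norm_sq_w]
  rw [Real.mul_rpow (by positivity) (by positivity)]
  simp only [Real.norm_eq_abs, sq_abs]
  rcases le_total 0 a.1 with h | h
  · have h2 : (1 + (a.1 + ‖a.2‖) ^ 2) ^ (-6 / 2 : ℝ) ≤ (1 + ‖a.2‖ ^ 2) ^ (-6 / 2 : ℝ) := by
      apply Real.rpow_le_rpow_of_nonpos (by positivity) _ (by norm_num)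
      nlinarith
    have h3 : 0 ≤ (1 + ‖a.2‖ ^ 2) ^ (-6 / 2 : ℝ) * (1 + (a.1 + ‖a.2‖) ^ 2) ^ (-6 / 2 : ℝ) := by
      positivity
    have h4 : 0 ≤ (1 + (a.1 - ‖a.2‖) ^ 2) ^ (-6 / 2 : ℝ) := by positivity
    calc (1 + (a.1 - ‖a.2‖) ^ 2) ^ (-6 / 2 : ℝ) * (1 + (a.1 + ‖a.2‖) ^ 2) ^ (-6 / 2 : ℝ)
        ≤ (1 + (a.1 - ‖a.2‖) ^ 2) ^ (-6 / 2 : ℝ) * (1 + ‖a.2‖ ^ 2) ^ (-6 / 2 : ℝ) :=
          mul_le_mul_of_nonneg_left h2 h4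
      _ ≤ _ := by linarith [mul_comm ((1 + (a.1 - ‖a.2‖) ^ 2) ^ (-6 / 2 : ℝ))
                    ((1 + ‖a.2‖ ^ 2) ^ (-6 / 2 : ℝ))]
  · have h2 : (1 + (a.1 - ‖a.2‖) ^ 2) ^ (-6 / 2 : ℝ) ≤ (1 + ‖a.2‖ ^ 2) ^ (-6 / 2 : ℝ) := by
      apply Real.rpow_le_rpow_of_nonpos (by positivity) _ (by norm_num)
      nlinarith
    have h3 : 0 ≤ (1 + ‖a.2‖ ^ 2) ^ (-6 / 2 : ℝ) * (1 + (a.1 - ‖a.2‖) ^ 2) ^ (-6 / 2 : ℝ) := by
      positivity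
    have h4 : 0 ≤ (1 + (a.1 + ‖a.2‖) ^ 2) ^ (-6 / 2 : ℝ) := by positivity
    calc (1 + (a.1 - ‖a.2‖) ^ 2) ^ (-6 / 2 : ℝ) * (1 + (a.1 + ‖a.2‖) ^ 2) ^ (-6 / 2 : ℝ)
        ≤ (1 + ‖a.2‖ ^ 2) ^ (-6 / 2 : ℝ) * (1 + (a.1 + ‖a.2‖) ^ 2) ^ (-6 / 2 : ℝ) :=
          mul_le_mul_of_nonneg_right h2 h4
      _ ≤ _ := by linarith

theorem C0_aux (s : ℝ) : ∫⁻ t : ℝ, ENNReal.ofReal ((1 + ‖t - s‖ ^ 2) ^ (-6 / 2 : ℝ)) =
    ∫⁻ t : ℝ, ENNReal.ofReal ((1 + ‖t‖ ^ 2) ^ (-6 / 2 : ℝ)) :=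
  lintegral_sub_right_eq_self (μ := volume)
    (fun t : ℝ => ENNReal.ofReal ((1 + ‖t‖ ^ 2) ^ (-6 / 2 : ℝ))) s

theorem C0_fin1 : ∫⁻ t : ℝ, ENNReal.ofReal ((1 + ‖t‖ ^ 2) ^ (-6 / 2 : ℝ)) < ⊤ := by
  have h : Integrable fun t : ℝ => (1 + ‖t‖ ^ 2) ^ (-6 / 2 : ℝ) :=
    integrable_rpow_neg_one_add_norm_sq (by norm_num)
  exact h.lintegral_lt_top

theorem C0_fin4 : ∫⁻ x : R5, ENNReal.ofReal ((1 + ‖x‖ ^ 2) ^ (-6 / 2 : ℝ)) < ⊤ := by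
  have h : Integrable fun x : R5 => (1 + ‖x‖ ^ 2) ^ (-6 / 2 : ℝ) :=
    integrable_rpow_neg_one_add_norm_sq (by norm_num)
  exact h.lintegral_lt_top

theorem C0_meas (g : R5 → ℝ) (hg : Continuous g) : Measurable fun a : R6 =>
    ENNReal.ofReal ((1 + ‖a.2‖ ^ 2) ^ (-6 / 2 : ℝ) * (1 + ‖a.1 - g a.2‖ ^ 2) ^ (-6 / 2 : ℝ)) := by
  apply Measurable.ennreal_ofReal
  apply Continuous.measurable
  refine Continuous.mul ?_ ?_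
  · exact Continuous.rpow_const (by fun_prop) fun a => Or.inl (by positivity)
  · exact Continuous.rpow_const (by fun_prop) fun a => Or.inl (by positivity)

theorem C0_fin5 (g : R5 → ℝ) (hg : Continuous g) : ∫⁻ a : R6,
    ENNReal.ofReal ((1 + ‖a.2‖ ^ 2) ^ (-6 / 2 : ℝ) * (1 + ‖a.1 - g a.2‖ ^ 2) ^ (-6 / 2 : ℝ))
      < ⊤ := by
  rw [Measure.volume_eq_prod, lintegral_prod_symm _ (C0_meas g hg).aemeasurable]
  have h : ∀ x : R5, ∫⁻ t : ℝ,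
      ENNReal.ofReal ((1 + ‖x‖ ^ 2) ^ (-6 / 2 : ℝ) * (1 + ‖t - g x‖ ^ 2) ^ (-6 / 2 : ℝ)) =
      ENNReal.ofReal ((1 + ‖x‖ ^ 2) ^ (-6 / 2 : ℝ)) *
        ∫⁻ t : ℝ, ENNReal.ofReal ((1 + ‖t‖ ^ 2) ^ (-6 / 2 : ℝ)) := fun x => by
    rw [← C0_aux (g x), ← lintegral_const_mul']
    · refine lintegral_congr fun t => ?_
      rw [ENNReal.ofReal_mul (by positivity)]
    · exact ENNReal.ofReal_ne_top
  simp only [h]
  rw [lintegral_mul_const']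
  · exact ENNReal.mul_lt_top C0_fin4 C0_fin1
  · exact C0_fin1.ne

theorem mM0_univ : mM0 Set.univ ≠ 0 ∧ mM0 Set.univ ≠ ⊤ := by
  have h : mM0 Set.univ = ∫⁻ a : R6, ENNReal.ofReal (‖w a‖ ^ (-6 : ℝ)) := by
    rw [mM0, withDensity_apply _ MeasurableSet.univ, Measure.restrict_univ]
  rw [h]
  constructor
  · intro h0
    have h0 := (lintegral_eq_zero_iff C0_measurable_dens).1 h0
    have h1 : ∀ᵐ a : R6 ∂volume, False := by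
      filter_upwards [h0] with a ha
      have h2 : ‖w a‖ ^ (-6 : ℝ) ≤ 0 := ENNReal.ofReal_eq_zero.1 ha
      have h3 : 0 < ‖w a‖ ^ (-6 : ℝ) := Real.rpow_pos_of_pos (C0_norm_w_pos a) _
      linarith
    rw [Filter.eventually_false_iff_eq_bot, ae_eq_bot] at h1
    exact (NeZero.ne (volume : Measure R6)) h1
  · have h1 : ∫⁻ a : R6, ENNReal.ofReal (‖w a‖ ^ (-6 : ℝ)) ≤ ∫⁻ a : R6,
        (ENNReal.ofReal ((1 + ‖a.2‖ ^ 2) ^ (-6 / 2 : ℝ) *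
          (1 + ‖a.1 - ‖a.2‖‖ ^ 2) ^ (-6 / 2 : ℝ)) +
        ENNReal.ofReal ((1 + ‖a.2‖ ^ 2) ^ (-6 / 2 : ℝ) *
          (1 + ‖a.1 - -‖a.2‖‖ ^ 2) ^ (-6 / 2 : ℝ))) := by
      refine lintegral_mono fun a => ?_
      have h2 : 0 ≤ (1 + ‖a.2‖ ^ 2) ^ (-6 / 2 : ℝ) * (1 + ‖a.1 - ‖a.2‖‖ ^ 2) ^ (-6 / 2 : ℝ) := by
        positivity
      have h3 : 0 ≤ (1 + ‖a.2‖ ^ 2) ^ (-6 / 2 : ℝ) *
          (1 + ‖a.1 - -‖a.2‖‖ ^ 2) ^ (-6 / 2 : ℝ) := by positivity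
      show ENNReal.ofReal (‖w a‖ ^ (-6 : ℝ)) ≤ _ + _
      rw [← ENNReal.ofReal_add h2 h3]
      apply ENNReal.ofReal_le_ofReal
      rw [sub_neg_eq_add]
      exact C0_dens_le a
    refine ne_of_lt (lt_of_le_of_lt h1 ?_)
    have h4 := C0_fin5 _ (continuous_norm (E := R5))
    have h5 := C0_fin5 _ (continuous_norm (E := R5)).neg
    rw [lintegral_add_left (C0_meas _ (continuous_norm (E := R5)))]
    exact ENNReal.add_lt_top.2 ⟨h4, h5⟩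

/-- C0 -/
theorem mM_prob : IsProbabilityMeasure mM := by
  refine ⟨?_⟩
  rw [mM, Measure.smul_apply, smul_eq_mul]
  exact ENNReal.inv_mul_cancel mM0_univ.1 mM0_univ.2

end Pool.Agent.Cone5
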