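import Pool.Agent.Work.MP_b0b133_an.D5.ALG

/-!
# The end game in dimension `5`

`poly_main_of`: the sharp inequality for harmonic polynomials from the first and second variation
at near maximisers and the functional inequality.
-/

set_option autoImplicit false
open MeasureTheory Complex
open scoped ENNReal ComplexConjugate

namespace Pool.Agent.Cone5

variable {μ : Measure C6}

/-- first variation at near maximisers -/
def FirstVar (μ : Measure C6) : Prop :=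
  ∀ S : ℝ, 1 ≤ S → (∀ P ∈ HP, I3 μ P ≤ S * En μ P ^ (3 / 2 : ℝ)) → ∀ M : ℝ,
    ∃ C : ℝ, 0 ≤ C ∧ ∀ F ∈ HP, ∀ Q ∈ HP, ∀ ε : ℝ, 0 < ε → ε ≤ 1 → En μ F = 1 → En μ Q ≤ M →
      S - ε ≤ I3 μ F →
      |(∫ x, (‖ev F x‖ : ℂ) * (conj (ev F x) * ev Q x) ∂μ).re - S * EB μ F Q| ≤
        C * ε ^ (1 / 2 : ℝ)

/-- second variation at near maximisers -/
def SecondVar (μ : Measure C6) : Prop :=
  ∀ S : ℝ, 1 ≤ S → (∀ P ∈ HP, I3 μ P ≤ S * En μ P ^ (3 / 2 : ℝ)) →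
    ∃ C : ℝ, 0 ≤ C ∧ ∀ ψ ∈ HP, ∀ ε : ℝ, 0 < ε → ε ≤ 1 → En μ (AP ψ) = 1 → S - ε ≤ I3 μ (AP ψ) →
      (∀ j, ‖∫ x, x j * ((‖ev (AP ψ) x‖ ^ 3 : ℝ) : ℂ) ∂μ‖ ≤ ε) →
      ∫ x, ‖ev (AP ψ) x‖ * G2 ψ x ∂μ ≤
        S * (∫ x, conj (ev (AP ψ) x) * (2 * ev ψ x) ∂μ).re + C * ε ^ (1 / 4 : ℝ)

/-- the functional inequality -/
def FuncIneq (μ : Measure C6) : Prop :=
  ∀ ψ ∈ HP, 17 / 20 * (∫ x, (‖ev (AP ψ) x‖ : ℂ) * (conj (ev (AP ψ) x) * (2 * ev ψ x)) ∂μ).re +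
      1 / 1000 * I3 μ (AP ψ) ≤ ∫ x, ‖ev (AP ψ) x‖ * G2 ψ x ∂μ

namespace Fin5

theorem I3_nonneg (P : Poly) : 0 ≤ I3 μ P := integral_nonneg fun _ => by positivity

theorem I3_smul (c : ℂ) (P : Poly) : I3 μ (c • P) = ‖c‖ ^ 3 * I3 μ P := by
  unfold I3
  rw [← integral_const_mul]
  refine integral_congr_ae (Filter.Eventually.of_forall fun x => ?_)
  change ‖ev (c • P) x‖ ^ 3 = ‖c‖ ^ 3 * ‖ev P x‖ ^ 3
  rw [Alg.ev_smul, norm_mul, mul_pow]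

theorem En_smul (c : ℂ) (P : Poly) : En μ (c • P) = ‖c‖ ^ 2 * En μ P := by
  rw [En, En, EB_eq, EB_eq, Alg.AP_smul, Alg.ip_smul_right, Alg.ip_smul_left, ← mul_assoc,
    mul_conj', ← ofReal_pow, re_ofReal_mul]
  ring

theorem AP_one : AP (1 : Poly) = (2 : ℂ) • 1 := by
  rw [AP, Alg.NP_of_hom (MvPolynomial.isHomogeneous_one _ _)]
  simp

theorem one_mem : (1 : Poly) ∈ HP := by
  change ∑ j, MvPolynomial.pderiv j (MvPolynomial.pderiv j (1 : Poly)) = 0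
  simp

theorem const_mem (c : ℂ) : c • (1 : Poly) ∈ HP := HP.smul_mem _ one_mem

theorem ip_one (hμ : Law μ) (P : Poly) : Alg.ip μ P 1 = conj (ev P 0) := by
  rw [← Alg.int_ev hμ P, ← integral_conj]
  unfold Alg.ip
  refine integral_congr_ae (Filter.Eventually.of_forall fun x => ?_)
  change conj (ev P x) * ev 1 x = conj (ev P x)
  rw [Alg.ev_one, mul_one]

theorem EB_const (hμ : Law μ) (P : Poly) (c : ℂ) :
    EB μ P (c • 1) = (conj (ev P 0) * c).re := by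
  rw [EB_eq, Alg.AP_smul, AP_one, Alg.ip_smul_right, Alg.ip_smul_right, ip_one hμ]
  have : c * (2 * conj (ev P 0)) = ((2 : ℝ) : ℂ) * (conj (ev P 0) * c) := by
    push_cast; ring
  rw [this, re_ofReal_mul]
  ring

theorem En_const (hμ : Law μ) (c : ℂ) : En μ (c • 1) = ‖c‖ ^ 2 := by
  rw [En_smul, (EB_one hμ 1).2, mul_one]

theorem En_add (hμ : Law μ) (P Q : Poly) :
    En μ (P + Q) = En μ P + 2 * EB μ P Q + En μ Q := by
  rw [En, Alg.EB_add_right hμ, EB_comm hμ (P + Q) P, EB_comm hμ (P + Q) Q,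
    Alg.EB_add_right hμ, Alg.EB_add_right hμ, EB_comm hμ Q P, En, En]
  ring

theorem x1_le (hμ : Law μ) (P : Poly) : ∫ x, ‖ev P x‖ ^ 2 ∂μ ≤ En μ P := by
  set n := P.totalDegree + (AP P).totalDegree with hn
  rw [Alg.int_norm_sq hμ P (n + 1) (by omega), Alg.En_eq hμ P (n + 1) (by omega) (by omega)]
  refine Finset.sum_le_sum fun l _ => ?_
  have h1 := Alg.lv_nonneg (μ := μ) P l
  have h2 : (1 : ℝ) ≤ 1 / 2 * ((l : ℝ) + 2) := by
    linarith [Nat.cast_nonneg (α := ℝ) l]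
  nlinarith

theorem r_le_x1 (hμ : Law μ) (P : Poly) : ‖ev P 0‖ ^ 2 ≤ ∫ x, ‖ev P x‖ ^ 2 ∂μ := by
  rw [Alg.int_norm_sq hμ P (P.totalDegree + 1) (Nat.lt_succ_self _), ← Alg.lv_zero hμ]
  exact Finset.single_le_sum (f := fun l => Alg.lv μ P l) (fun l _ => Alg.lv_nonneg P l)
    (Finset.mem_range.2 (Nat.succ_pos _))

theorem cube_split {a b t : ℝ} (ha : 0 ≤ a) (hb : 0 ≤ b) (h0 : 0 < t) (h1 : t < 1) :
    (a + b) ^ 3 ≤ (t ^ 2)⁻¹ * a ^ 3 + ((1 - t) ^ 2)⁻¹ * b ^ 3 := by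
  have h2 : 0 < 1 - t := by linarith
  have h := (convexOn_pow 3).2 (x := a / t) (Set.mem_Ici.2 (by positivity)) (y := b / (1 - t))
    (Set.mem_Ici.2 (by positivity)) h0.le h2.le (by ring)
  simp only [smul_eq_mul] at h
  have e1 : t * (a / t) + (1 - t) * (b / (1 - t)) = a + b := by
    field_simp
  have e2 : t * (a / t) ^ 3 + (1 - t) * (b / (1 - t)) ^ 3
      = (t ^ 2)⁻¹ * a ^ 3 + ((1 - t) ^ 2)⁻¹ * b ^ 3 := by
    field_simp
  rw [e1, e2] at h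
  exact h

/-- a near maximiser of a constant `S > 1` is not close to the constants -/
theorem near_one (hμ : Law μ) {S : ℝ} (hS : 1 < S)
    (hmax : ∀ P ∈ HP, I3 μ P ≤ S * En μ P ^ (3 / 2 : ℝ)) :
    ∃ η > 0, ∃ δ > 0, ∀ Q ∈ HP, En μ Q = 1 → S - δ ≤ I3 μ Q → ‖ev Q 0‖ ≤ 1 - η := by
  have hp := hμ.prob
  set t := Real.sqrt (2 / (1 + S)) with ht
  have h2 : 2 / (1 + S) < 1 := by
    rw [div_lt_one (by linarith)]
    linarith
  have ht0 : 0 < t := Real.sqrt_pos.2 (by positivity)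
  have ht1 : t < 1 := by
    rw [ht, Real.sqrt_lt' one_pos]
    simpa using h2
  have ht2 : (t ^ 2)⁻¹ = (1 + S) / 2 := by
    rw [ht, Real.sq_sqrt (by positivity), inv_div]
  set K := ((1 - t) ^ 2)⁻¹ * S with hK
  have h1t : 0 < 1 - t := by linarith
  have hK0 : 0 < K := by positivity
  refine ⟨min (1 / 2) ((S - 1) / (8 * K)), lt_min (by norm_num) (by
    apply div_pos <;> linarith), (S - 1) / 8, by linarith, ?_⟩
  intro Q hQ hE hI
  set η := min (1 / 2) ((S - 1) / (8 * K)) with hη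
  have hη0 : 0 < η := lt_min (by norm_num) (div_pos (by linarith) (by linarith))
  have hη1 : η ≤ 1 / 2 := min_le_left _ _
  have hη2 : K * (2 * η) ≤ (S - 1) / 4 := by
    have : η ≤ (S - 1) / (8 * K) := min_le_right _ _
    calc K * (2 * η) ≤ K * (2 * ((S - 1) / (8 * K))) := by gcongr
      _ = (S - 1) / 4 := by field_simp; ring
  by_contra hcon
  push Not at hcon
  set c := ev Q 0 with hc
  have hc1 : ‖c‖ ^ 2 ≤ 1 := (r_le_x1 hμ Q).trans ((x1_le hμ Q).trans hE.le)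
  have hcn : 0 ≤ ‖c‖ := norm_nonneg c
  have hc2 : ‖c‖ ≤ 1 := by nlinarith
  have hc3 : 1 - ‖c‖ ^ 2 ≤ 2 * η := by nlinarith
  have hc4 : 0 ≤ 1 - ‖c‖ ^ 2 := by linarith
  -- the remainder
  set g := Q + (-c) • (1 : Poly) with hg
  have hgm : g ∈ HP := HP.add_mem hQ (const_mem _)
  have hgE : En μ g = 1 - ‖c‖ ^ 2 := by
    rw [hg, En_add hμ, EB_const hμ, En_const hμ, hE, norm_neg, ← hc, mul_neg, neg_re,
      mul_comm (conj c) c, mul_conj', ← ofReal_pow, ofReal_re]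
    ring
  have hgI : I3 μ g ≤ S * (2 * η) := by
    refine (hmax g hgm).trans ?_
    rw [hgE]
    have h3 : (1 - ‖c‖ ^ 2) ^ (3 / 2 : ℝ) ≤ 1 - ‖c‖ ^ 2 := by
      rcases hc4.eq_or_lt with h | h
      · rw [← h, Real.zero_rpow (by norm_num)]
      · calc (1 - ‖c‖ ^ 2) ^ (3 / 2 : ℝ) ≤ (1 - ‖c‖ ^ 2) ^ (1 : ℝ) :=
            Real.rpow_le_rpow_of_exponent_ge h (by linarith [sq_nonneg ‖c‖]) (by norm_num)
          _ = _ := Real.rpow_one _
    have h4 : (1 - ‖c‖ ^ 2) ^ (3 / 2 : ℝ) ≤ 2 * η := h3.trans hc3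
    exact mul_le_mul_of_nonneg_left h4 (by linarith)
  have hI2 : I3 μ Q ≤ (1 + S) / 2 + ((1 - t) ^ 2)⁻¹ * I3 μ g := by
    have h5 : ∀ x, ‖ev Q x‖ ^ 3 ≤ (1 + S) / 2 + ((1 - t) ^ 2)⁻¹ * ‖ev g x‖ ^ 3 := by
      intro x
      have e1 : ev Q x = c + ev g x := by
        rw [hg, Alg.ev_add, Alg.ev_smul, Alg.ev_one]
        ring
      have h6 : ‖ev Q x‖ ≤ ‖c‖ + ‖ev g x‖ := by
        rw [e1]
        exact norm_add_le _ _
      have h7 := cube_split hcn (norm_nonneg (ev g x)) ht0 ht1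
      have h8 : ‖ev Q x‖ ^ 3 ≤ (‖c‖ + ‖ev g x‖) ^ 3 :=
        pow_le_pow_left₀ (norm_nonneg _) h6 3
      rw [ht2] at h7
      have h9 : (1 + S) / 2 * ‖c‖ ^ 3 ≤ (1 + S) / 2 := by
        have : ‖c‖ ^ 3 ≤ 1 := pow_le_one₀ hcn hc2
        nlinarith
      linarith
    have hi : Integrable (fun x => ‖ev g x‖ ^ 3) μ :=
      Alg.integrable hμ ((Alg.ev_continuous g).norm.pow 3)
    calc I3 μ Q ≤ ∫ x, ((1 + S) / 2 + ((1 - t) ^ 2)⁻¹ * ‖ev g x‖ ^ 3) ∂μ :=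
          integral_mono (Alg.integrable hμ ((Alg.ev_continuous Q).norm.pow 3))
            ((integrable_const _).add (hi.const_mul _)) h5
      _ = (1 + S) / 2 + ((1 - t) ^ 2)⁻¹ * I3 μ g := by
          rw [integral_add (integrable_const _) (hi.const_mul _), integral_const_mul]
          simp [I3]
  have h10 : ((1 - t) ^ 2)⁻¹ * I3 μ g ≤ (S - 1) / 4 := by
    calc ((1 - t) ^ 2)⁻¹ * I3 μ g ≤ ((1 - t) ^ 2)⁻¹ * (S * (2 * η)) := by
          apply mul_le_mul_of_nonneg_left hgI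
          positivity
      _ = K * (2 * η) := by rw [hK]; ring
      _ ≤ _ := hη2
  linarith

/-- the pointwise inequality behind STAR -/
theorem star_pointwise (z c : ℂ) (hc : ‖c‖ = 1) :
    ((‖z‖ : ℂ) * (conj z * c)).re ≤ 3 / 4 * ‖z‖ ^ 2 + 1 / 4 * ((conj z * c) ^ 2).re := by
  set w := conj z * c with hw
  have h1 : ‖w‖ = ‖z‖ := by rw [hw, norm_mul, hc, mul_one, RCLike.norm_conj]
  rw [← h1, re_ofReal_mul]
  have h2 : ‖w‖ ^ 2 = w.re ^ 2 + w.im ^ 2 := by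
    rw [← normSq_eq_norm_sq, normSq_apply]
    ring
  have h3 : (w ^ 2).re = w.re ^ 2 - w.im ^ 2 := by
    rw [pow_two, mul_re]
    ring
  rw [h3]
  nlinarith [sq_nonneg (‖w‖ - w.re)]

theorem star_int (hμ : Law μ) (F : Poly) (c : ℂ) (hc : ‖c‖ = 1) :
    (∫ x, (‖ev F x‖ : ℂ) * (conj (ev F x) * ev (c • 1) x) ∂μ).re ≤
      3 / 4 * ∫ x, ‖ev F x‖ ^ 2 ∂μ + 1 / 4 * ‖ev F 0‖ ^ 2 := by
  have hp := hμ.prob
  have hcF := Alg.ev_continuous F
  have hcc : Continuous fun x => conj (ev F x) := continuous_conj.comp hcF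
  have e1 : ∀ x, ev (c • 1) x = c := fun x => by rw [Alg.ev_smul, Alg.ev_one, mul_one]
  simp only [e1]
  have hi1 : Integrable (fun x => (‖ev F x‖ : ℂ) * (conj (ev F x) * c)) μ :=
    Alg.integrable hμ ((continuous_ofReal.comp hcF.norm).mul (hcc.mul continuous_const))
  have hi2 : Integrable (fun x => (conj (ev F x) * c) ^ 2) μ :=
    Alg.integrable hμ ((hcc.mul continuous_const).pow 2)
  have hi3 : Integrable (fun x => ‖ev F x‖ ^ 2) μ := Alg.integrable hμ (hcF.norm.pow 2)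
  have hi2r : Integrable (fun x => ((conj (ev F x) * c) ^ 2).re) μ := hi2.re
  have e2 : (∫ x, (‖ev F x‖ : ℂ) * (conj (ev F x) * c) ∂μ).re
      = ∫ x, ((‖ev F x‖ : ℂ) * (conj (ev F x) * c)).re ∂μ := (integral_re hi1).symm
  have e3 : ∫ x, ((conj (ev F x) * c) ^ 2).re ∂μ = (∫ x, (conj (ev F x) * c) ^ 2 ∂μ).re :=
    integral_re hi2
  rw [e2]
  calc ∫ x, ((‖ev F x‖ : ℂ) * (conj (ev F x) * c)).re ∂μ
      ≤ ∫ x, (3 / 4 * ‖ev F x‖ ^ 2 + 1 / 4 * ((conj (ev F x) * c) ^ 2).re) ∂μ :=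
        integral_mono hi1.re ((hi3.const_mul _).add (hi2r.const_mul _))
          fun x => star_pointwise _ _ hc
    _ = 3 / 4 * ∫ x, ‖ev F x‖ ^ 2 ∂μ + 1 / 4 * (∫ x, (conj (ev F x) * c) ^ 2 ∂μ).re := by
        rw [integral_add (hi3.const_mul _) (hi2r.const_mul _), integral_const_mul,
          integral_const_mul, e3]
    _ ≤ _ := by
        have e4 : ∫ x, (conj (ev F x) * c) ^ 2 ∂μ = conj (ev F 0 ^ 2) * c ^ 2 := by
          rw [← int_sq hμ F, ← integral_conj, ← integral_mul_const]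
          refine integral_congr_ae (Filter.Eventually.of_forall fun x => ?_)
          change (conj (ev F x) * c) ^ 2 = conj (ev F x ^ 2) * c ^ 2
          rw [mul_pow, map_pow]
        have h5 : (∫ x, (conj (ev F x) * c) ^ 2 ∂μ).re ≤ ‖ev F 0‖ ^ 2 := by
          rw [e4]
          refine (re_le_norm _).trans ?_
          rw [norm_mul, RCLike.norm_conj, norm_pow, norm_pow, hc]
          simp
        linarith

theorem exists_phase (z : ℂ) : ∃ c : ℂ, ‖c‖ = 1 ∧ (conj z * c).re = ‖z‖ := by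
  rcases eq_or_ne z 0 with h | h
  · exact ⟨1, by simp, by simp [h]⟩
  · have h1 : ‖z‖ ≠ 0 := norm_ne_zero_iff.2 h
    refine ⟨z / (‖z‖ : ℂ), ?_, ?_⟩
    · rw [norm_div, norm_real, norm_norm, div_self h1]
    · have : conj z * (z / (‖z‖ : ℂ)) = ((‖z‖ : ℝ) : ℂ) := by
        rw [mul_div_assoc', mul_comm (conj z) z, mul_conj']
        field_simp
      rw [this, ofReal_re]

/-- STAR at near maximisers, in any frame -/
theorem star (hμ : Law μ) (hFV : FirstVar μ) {S : ℝ} (hS : 1 ≤ S)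
    (hmax : ∀ P ∈ HP, I3 μ P ≤ S * En μ P ^ (3 / 2 : ℝ)) :
    ∃ C : ℝ, 0 ≤ C ∧ ∀ F ∈ HP, ∀ ε : ℝ, 0 < ε → ε ≤ 1 → En μ F = 1 → S - ε ≤ I3 μ F →
      S * ‖ev F 0‖ ≤ 3 / 4 * ∫ x, ‖ev F x‖ ^ 2 ∂μ + 1 / 4 * ‖ev F 0‖ ^ 2 +
        C * ε ^ (1 / 2 : ℝ) := by
  obtain ⟨C, hC, h⟩ := hFV S hS hmax 1
  refine ⟨C, hC, fun F hF ε h0 h1 hE hI => ?_⟩
  obtain ⟨c, hc1, hc2⟩ := exists_phase (ev F 0)
  have h2 := h F hF (c • 1) (const_mem c) ε h0 h1 hE (by rw [En_const hμ, hc1]; norm_num) hI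
  rw [EB_const hμ, hc2] at h2
  have h3 := star_int hμ F c hc1
  have h4 := (abs_le.1 h2).1
  linarith

/-- near maximisers of `S > 1` have overlap at most `3/5 + o(1)` with the constants -/
theorem overlap (hμ : Law μ) (hC : Conf μ) (hFV : FirstVar μ) {S : ℝ} (hS : 1 < S)
    (hmax : ∀ P ∈ HP, I3 μ P ≤ S * En μ P ^ (3 / 2 : ℝ)) :
    ∃ s₀ > 0, ∀ s : ℝ, 0 < s → s ≤ s₀ → ∀ F ∈ HP, En μ F = 1 → S - s ^ 4 ≤ I3 μ F →
      ‖ev F 0‖ ≤ 61 / 100 := by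
  obtain ⟨η, hη, δ, hδ, hA⟩ := near_one hμ hS hmax
  obtain ⟨C, hC0, hB⟩ := star hμ hFV hS.le hmax
  refine ⟨min (1 / 200) (min δ (η / (320 * (1 + 2 * C)))), by positivity, ?_⟩
  intro s hs hs' F hF hE hI
  have hs1 : s ≤ 1 / 200 := hs'.trans (min_le_left _ _)
  have hs2 : s ≤ δ := hs'.trans ((min_le_right _ _).trans (min_le_left _ _))
  have hs3 : s ≤ η / (320 * (1 + 2 * C)) :=
    hs'.trans ((min_le_right _ _).trans (min_le_right _ _))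
  have hs4 : s * (320 * (1 + 2 * C)) ≤ η := (le_div_iff₀ (by positivity)).1 hs3
  have h4 : s ^ 4 ≤ s ^ 2 := pow_le_pow_of_le_one hs.le (by linarith) (by norm_num)
  have h2 : s ^ 2 ≤ s := by nlinarith
  have h24 : 2 * s ^ 4 ≤ s := by nlinarith
  have hp4 : 0 < s ^ 4 := by positivity
  obtain ⟨Q, hQ, hQE, hQI, hQ0, hQ1⟩ := hC.ovl F hF hE (s ^ 4) hp4
  set r := ‖ev Q 0‖ with hr
  have hr0 : 0 ≤ r := norm_nonneg _
  have h5 : r ≤ 1 - η := hA Q hQ hQE (by linarith)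
  have h6 := hB Q hQ (2 * s ^ 4) (by positivity) (by nlinarith) hQE (by linarith)
  have h7 := lev_y1 hμ Q hQ
  rw [hQE] at h7
  have h8 : (2 * s ^ 4) ^ (1 / 2 : ℝ) ≤ 2 * s := by
    rw [← Real.sqrt_eq_rpow]
    refine Real.sqrt_le_iff.2 ⟨by linarith, ?_⟩
    nlinarith
  have h9 : C * (2 * s ^ 4) ^ (1 / 2 : ℝ) ≤ C * (2 * s) := mul_le_mul_of_nonneg_left h8 hC0
  rw [← hr] at h6 h7
  set x1 := ∫ x, ‖ev Q x‖ ^ 2 ∂μ with hx1
  have h10 : 8 * r ≤ 5 * r ^ 2 + 3 + 8 * (s + 2 * C * s) := by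
    have : r ≤ S * r := by nlinarith
    nlinarith
  have h11 : (5 * r - 3) * (1 - r) ≤ 8 * (s + 2 * C * s) := by nlinarith
  have h12 : 8 * (s + 2 * C * s) ≤ η / 40 := by nlinarith
  have h13 : r ≤ 3 / 5 + 1 / 200 := by
    by_contra hcon
    push Not at hcon
    have h14 : 1 / 40 * η < (5 * r - 3) * (1 - r) := by
      have a1 : 1 / 40 < 5 * r - 3 := by linarith
      have a2 : η ≤ 1 - r := by linarith
      calc 1 / 40 * η < (5 * r - 3) * η := mul_lt_mul_of_pos_right a1 hη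
        _ ≤ (5 * r - 3) * (1 - r) := mul_le_mul_of_nonneg_left a2 (by linarith)
    linarith
  linarith

/-- a centred near maximiser is impossible if `S > 1` -/
theorem no_gap (hμ : Law μ) (hC : Conf μ) (hFV : FirstVar μ) (hSV : SecondVar μ)
    (hFI : FuncIneq μ) {S : ℝ} (hS : 1 < S)
    (hmax : ∀ P ∈ HP, I3 μ P ≤ S * En μ P ^ (3 / 2 : ℝ))
    (hsup : ∀ ε > 0, ∃ P ∈ HP, En μ P = 1 ∧ S - ε ≤ I3 μ P) : False := by
  obtain ⟨s₀, hs₀, hov⟩ := overlap hμ hC hFV hS hmax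
  obtain ⟨C0, hC0, hst⟩ := star hμ hFV hS.le hmax
  obtain ⟨C1, hC1, h1v⟩ := hFV S hS.le hmax 1
  obtain ⟨C2, hC2, h2v⟩ := hSV S hS.le hmax
  set K := C0 + C1 + C2 + 1 with hK
  set s := min s₀ (min (1 / 2) (1 / (4000 * K))) with hs
  have hK0 : 1 ≤ K := by linarith
  have hs0 : 0 < s := by
    refine lt_min hs₀ (lt_min (by norm_num) ?_)
    positivity
  have hs1 : s ≤ s₀ := min_le_left _ _
  have hs2 : s ≤ 1 / 2 := (min_le_right _ _).trans (min_le_left _ _)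
  have hs3 : s ≤ 1 / (4000 * K) := (min_le_right _ _).trans (min_le_right _ _)
  have hs4 : s * K ≤ 1 / 4000 := by
    have := (le_div_iff₀ (by positivity : (0 : ℝ) < 4000 * K)).1 hs3
    nlinarith
  have hp4 : 0 < s ^ 4 := by positivity
  have h41 : s ^ 4 ≤ s := by
    have : s ^ 4 ≤ s ^ 1 := pow_le_pow_of_le_one hs0.le (by linarith) (by norm_num)
    simpa using this
  have h41' : s ^ 4 ≤ 1 := by linarith
  -- the centred near maximiser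
  obtain ⟨P, hP, hPE, hPI⟩ := hsup (s ^ 4 / 2) (by positivity)
  obtain ⟨F, hF, hFE, hFI', hFc⟩ := hC.cent P hP hPE (s ^ 4 / 2) (by positivity)
  have hFn : S - s ^ 4 ≤ I3 μ F := by linarith
  obtain ⟨ψ, hψ, rfl⟩ := AP_surj F hF
  set r := ‖ev (AP ψ) 0‖ with hr
  set x1 := ∫ x, ‖ev (AP ψ) x‖ ^ 2 ∂μ with hx1
  set x2 := (∫ x, conj (ev (AP ψ) x) * (2 * ev ψ x) ∂μ).re with hx2
  set Z := (∫ x, (‖ev (AP ψ) x‖ : ℂ) * (conj (ev (AP ψ) x) * (2 * ev ψ x)) ∂μ).re with hZ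
  set G := ∫ x, ‖ev (AP ψ) x‖ * G2 ψ x ∂μ with hG
  have hr0 : 0 ≤ r := norm_nonneg _
  have hrov : r ≤ 61 / 100 := hov s hs0 hs1 (AP ψ) hF hFE hFn
  have e4 : (s ^ 4) ^ (1 / 4 : ℝ) = s := by
    rw [← Real.rpow_natCast, ← Real.rpow_mul hs0.le]
    norm_num
  have e2 : (s ^ 4) ^ (1 / 2 : ℝ) ≤ s := by
    rw [← Real.sqrt_eq_rpow]
    refine Real.sqrt_le_iff.2 ⟨hs0.le, ?_⟩
    exact pow_le_pow_of_le_one hs0.le (by linarith) (by norm_num)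
  -- (a) second variation
  have ha : G ≤ S * x2 + C2 * s := by
    have := h2v ψ hψ (s ^ 4) hp4 h41' hFE hFn (fun j => (hFc j).trans (by linarith))
    rwa [e4] at this
  -- (b) functional inequality
  have hb : 17 / 20 * Z + 1 / 1000 * I3 μ (AP ψ) ≤ G := hFI ψ hψ
  -- (d)
  have hd : x2 ≤ r ^ 2 + 2 / 3 * (x1 - r ^ 2) := lev_x2 hμ ψ hψ
  have hx1le : x1 ≤ 1 := (x1_le hμ (AP ψ)).trans hFE.le
  have hrx : r ^ 2 ≤ x1 := r_le_x1 hμ (AP ψ)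
  -- (c) first variation with `H`
  have hEn : En μ ((2 : ℂ) • ψ) = x2 := by
    rw [En, EB_eq, Alg.AP_smul, Alg.ip_smul_right, Alg.ip_smul_left, Alg.conj_two, hx2]
    have e5 : ∫ x, conj (ev (AP ψ) x) * (2 * ev ψ x) ∂μ = 2 * Alg.ip μ (AP ψ) ψ := by
      rw [← Alg.ip_smul_right]
      unfold Alg.ip
      refine integral_congr_ae (Filter.Eventually.of_forall fun x => ?_)
      change conj (ev (AP ψ) x) * (2 * ev ψ x) = conj (ev (AP ψ) x) * ev ((2 : ℂ) • ψ) x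
      rw [Alg.ev_smul]
    rw [e5]
    have e6 : (2 : ℂ) * (2 * Alg.ip μ ψ (AP ψ)) = ((4 : ℝ) : ℂ) * Alg.ip μ ψ (AP ψ) := by
      push_cast; ring
    have e7 : (2 : ℂ) * Alg.ip μ (AP ψ) ψ = ((2 : ℝ) : ℂ) * Alg.ip μ (AP ψ) ψ := by
      push_cast; ring
    rw [e6, e7, re_ofReal_mul, re_ofReal_mul, Alg.ip_re_comm ψ (AP ψ)]
    ring
  have hEB : EB μ (AP ψ) ((2 : ℂ) • ψ) = x1 := by
    rw [EB_eq, Alg.AP_smul, Alg.ip_smul_right, Alg.ip_self]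
    have e6 : (2 : ℂ) * ((∫ x, ‖ev (AP ψ) x‖ ^ 2 ∂μ : ℝ) : ℂ)
        = ((2 * ∫ x, ‖ev (AP ψ) x‖ ^ 2 ∂μ : ℝ) : ℂ) := by push_cast; ring
    rw [e6, ofReal_re]
    ring
  have hc : S * x1 - C1 * s ≤ Z := by
    have h2 := h1v (AP ψ) hF ((2 : ℂ) • ψ) (HP.smul_mem _ hψ) (s ^ 4) hp4 h41' hFE
      (by rw [hEn]; nlinarith) hFn
    rw [hEB] at h2
    have e5 : (∫ x, (‖ev (AP ψ) x‖ : ℂ) * (conj (ev (AP ψ) x) * ev ((2 : ℂ) • ψ) x) ∂μ).re = Z := by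
      rw [hZ]
      simp only [Alg.ev_smul]
    rw [e5] at h2
    have h3 := (abs_le.1 h2).1
    have h4 : C1 * (s ^ 4) ^ (1 / 2 : ℝ) ≤ C1 * s := mul_le_mul_of_nonneg_left e2 hC1
    linarith
  -- (e) STAR
  have he : S * r ≤ 3 / 4 * x1 + 1 / 4 * r ^ 2 + C0 * s := by
    have h2 := hst (AP ψ) hF (s ^ 4) hp4 h41' hFE hFn
    have h4 : C0 * (s ^ 4) ^ (1 / 2 : ℝ) ≤ C0 * s := mul_le_mul_of_nonneg_left e2 hC0
    linarith
  -- the end
  have h20 : S * (11 / 60 * x1 - 1 / 3 * r ^ 2 + 1 / 1000) ≤ (C1 + C2 + 1) * s := by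
    have a1 : S * x2 ≤ S * (r ^ 2 + 2 / 3 * (x1 - r ^ 2)) :=
      mul_le_mul_of_nonneg_left hd (by linarith)
    nlinarith [mul_nonneg hC1 hs0.le]
  have h21 : r ≤ S * r := by nlinarith
  have h22 : 4 / 3 * (r - 1 / 4 * r ^ 2) - 4 / 3 * (C0 * s) ≤ x1 := by linarith
  have h23 : 1 / 1000 - C0 * s ≤ 11 / 60 * x1 - 1 / 3 * r ^ 2 + 1 / 1000 := by
    have a1 : 0 ≤ r * (44 - 71 * r) := mul_nonneg hr0 (by linarith)
    nlinarith [mul_nonneg hC0 hs0.le]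
  have h24 : C0 * s ≤ 1 / 4000 := by
    have : C0 * s ≤ K * s := mul_le_mul_of_nonneg_right (by linarith) hs0.le
    linarith
  have h25 : (C1 + C2 + 1) * s ≤ 1 / 4000 := by
    have : (C1 + C2 + 1) * s ≤ K * s := mul_le_mul_of_nonneg_right (by linarith) hs0.le
    linarith
  have h26 : 3 / 4000 ≤ 11 / 60 * x1 - 1 / 3 * r ^ 2 + 1 / 1000 := by linarith
  nlinarith

theorem rpow_three_half {x : ℝ} (hx : 0 ≤ x) : x ^ (3 / 2 : ℝ) = Real.sqrt x ^ 3 := by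
  rw [Real.sqrt_eq_rpow, ← Real.rpow_natCast, ← Real.rpow_mul hx]
  norm_num

/-- scaling: an inequality on the unit sphere of the energy holds everywhere -/
theorem scale (hμ : Law μ) (hC : Conf μ) {S : ℝ}
    (h1 : ∀ P ∈ HP, En μ P = 1 → I3 μ P ≤ S) (P : Poly) (hP : P ∈ HP) :
    I3 μ P ≤ S * En μ P ^ (3 / 2 : ℝ) := by
  have h0 := En_nonneg hμ P
  rcases h0.eq_or_lt with h | h
  · obtain ⟨C, hCC⟩ := hC.fin
    have := hCC P hP
    rw [← h, Real.zero_rpow (by norm_num), mul_zero] at this ⊢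
    exact this
  · set e := Real.sqrt (En μ P) with he
    have he0 : 0 < e := Real.sqrt_pos.2 h
    have he2 : e ^ 2 = En μ P := Real.sq_sqrt h0
    have h2 := h1 (((e⁻¹ : ℝ) : ℂ) • P) (HP.smul_mem _ hP) (by
      rw [En_smul, norm_real, Real.norm_eq_abs, sq_abs, ← he2]
      field_simp)
    rw [I3_smul, norm_real, Real.norm_eq_abs, abs_of_pos (inv_pos.2 he0)] at h2
    rw [rpow_three_half h0, ← he]
    have h3 : I3 μ P = e ^ 3 * (e⁻¹ ^ 3 * I3 μ P) := by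
      field_simp
    rw [h3]
    calc e ^ 3 * (e⁻¹ ^ 3 * I3 μ P) ≤ e ^ 3 * S := by gcongr
      _ = _ := mul_comm _ _

end Fin5

/-- the sharp inequality for harmonic polynomials, from the variations and the functional
inequality -/
theorem poly_main_of (hμ : Law μ) (hC : Conf μ) (hFV : FirstVar μ) (hSV : SecondVar μ)
    (hFI : FuncIneq μ) (P : Poly) (h : P ∈ HP) : I3 μ P ≤ En μ P ^ (3 / 2 : ℝ) := by
  have hp := hμ.prob
  obtain ⟨C, hCC⟩ := hC.fin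
  set T : Set ℝ := {t | ∃ P ∈ HP, En μ P = 1 ∧ I3 μ P = t} with hT
  have h1T : (1 : ℝ) ∈ T := by
    refine ⟨1, Fin5.one_mem, (EB_one hμ 1).2, ?_⟩
    unfold I3
    simp [Alg.ev_one]
  have hbdd : BddAbove T := by
    refine ⟨C, ?_⟩
    rintro t ⟨P, hP, hE, rfl⟩
    have := hCC P hP
    rwa [hE, Real.one_rpow, mul_one] at this
  set S := sSup T with hS
  have hS1 : 1 ≤ S := le_csSup hbdd h1T
  have hle : ∀ P ∈ HP, En μ P = 1 → I3 μ P ≤ S := fun P hP hE => le_csSup hbdd ⟨P, hP, hE, rfl⟩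
  have hmax : ∀ P ∈ HP, I3 μ P ≤ S * En μ P ^ (3 / 2 : ℝ) := fun P hP =>
    Fin5.scale hμ hC hle P hP
  have hS1' : S ≤ 1 := by
    by_contra hcon
    push Not at hcon
    refine Fin5.no_gap hμ hC hFV hSV hFI hcon hmax fun ε hε => ?_
    obtain ⟨t, ⟨P, hP, hE, rfl⟩, ht⟩ := exists_lt_of_lt_csSup ⟨1, h1T⟩
      (show S - ε < sSup T by linarith)
    exact ⟨P, hP, hE, ht.le⟩
  have h2 := Fin5.scale hμ hC (fun P hP hE => (hle P hP hE).trans hS1') P h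
  rwa [one_mul] at h2

end Pool.Agent.Cone5
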