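import Mathlib

set_option autoImplicit false

open Complex
open scoped ComplexConjugate

namespace Pool.Agent.Cone5.FI

/-- positivity of a binary form -/
theorem bin_nonneg {a b c x y : ℝ} (ha : 0 < a) (h : b ^ 2 ≤ 4 * a * c) :
    0 ≤ a * x ^ 2 + b * x * y + c * y ^ 2 := by
  have h1 : 0 ≤ 4 * a * (a * x ^ 2 + b * x * y + c * y ^ 2) := by
    have : 4 * a * (a * x ^ 2 + b * x * y + c * y ^ 2) =
        (2 * a * x + b * y) ^ 2 + (4 * a * c - b ^ 2) * y ^ 2 := by ring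
    rw [this]
    have h2 : 0 ≤ (4 * a * c - b ^ 2) * y ^ 2 := mul_nonneg (by linarith) (sq_nonneg _)
    positivity
  by_contra h3
  push Not at h3
  have : 4 * a * (a * x ^ 2 + b * x * y + c * y ^ 2) < 0 := by
    apply mul_neg_of_pos_of_neg (by linarith) h3
  linarith

theorem q0_im {ρ ei pi : ℝ} (h0 : 0 ≤ ρ) (h1 : ρ ≤ 1) :
    0 ≤ (2 - ρ ^ 2) * pi ^ 2 + (-(17 / 20 * (4 * ρ - ρ ^ 3))) * pi * ei
      + (36 / 25 - (6 + 3 * ρ ^ 2) / 1000 - 49 / 40 * ρ ^ 2 + 36 / 25 * ρ ^ 2) * ei ^ 2 := by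
  have hr : 0 ≤ ρ ^ 2 := sq_nonneg _
  have hr1 : ρ ^ 2 ≤ 1 := by nlinarith
  apply bin_nonneg (by linarith)
  have e : (-(17 / 20 * (4 * ρ - ρ ^ 3))) ^ 2 = 289 / 400 * (ρ ^ 2 * (4 - ρ ^ 2) ^ 2) := by ring
  rw [e]
  generalize ρ ^ 2 = r at *
  nlinarith [mul_nonneg hr (sub_nonneg.2 hr1), mul_nonneg (mul_nonneg hr hr) (sub_nonneg.2 hr1),
    mul_nonneg hr hr]

theorem q0_re {ρ er pr : ℝ} (h0 : 0 ≤ ρ) (h1 : ρ ≤ 1) :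
    0 ≤ 256 / 25 * ρ ^ 2 - 34 / 5 * ρ * (1 + ρ ^ 2 / 2) * er + 111 / 20 * ρ ^ 2 * pr
      + (2 - ρ ^ 2) * pr ^ 2 - 17 / 20 * (4 * ρ - ρ ^ 3) * pr * er
      + (36 / 25 - (6 + 3 * ρ ^ 2) / 1000 + 49 / 40 * ρ ^ 2) * er ^ 2 := by
  have hr : 0 ≤ ρ ^ 2 := sq_nonneg _
  have hr1 : ρ ^ 2 ≤ 1 := by nlinarith
  have key : 0 ≤ (2 - ρ ^ 2) * (256 / 25 * ρ ^ 2 - 34 / 5 * ρ * (1 + ρ ^ 2 / 2) * er
      + 111 / 20 * ρ ^ 2 * pr + (2 - ρ ^ 2) * pr ^ 2 - 17 / 20 * (4 * ρ - ρ ^ 3) * pr * er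
      + (36 / 25 - (6 + 3 * ρ ^ 2) / 1000 + 49 / 40 * ρ ^ 2) * er ^ 2) := by
    have e : (2 - ρ ^ 2) * (256 / 25 * ρ ^ 2 - 34 / 5 * ρ * (1 + ρ ^ 2 / 2) * er
      + 111 / 20 * ρ ^ 2 * pr + (2 - ρ ^ 2) * pr ^ 2 - 17 / 20 * (4 * ρ - ρ ^ 3) * pr * er
      + (36 / 25 - (6 + 3 * ρ ^ 2) / 1000 + 49 / 40 * ρ ^ 2) * er ^ 2) =
      ((2 - ρ ^ 2) * pr + (111 / 40 * ρ ^ 2 - 17 / 40 * (4 * ρ - ρ ^ 3) * er)) ^ 2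
      + (((2 - ρ ^ 2) * (256 / 25) - (111 / 40) ^ 2 * ρ ^ 2) * ρ ^ 2
        + (-(34 / 5) * (2 - (ρ ^ 2) ^ 2 / 2) + 1887 / 800 * ρ ^ 2 * (4 - ρ ^ 2)) * ρ * er
        + ((2 - ρ ^ 2) * (36 / 25 - (6 + 3 * ρ ^ 2) / 1000 + 49 / 40 * ρ ^ 2)
          - (17 / 40) ^ 2 * ρ ^ 2 * (4 - ρ ^ 2) ^ 2) * er ^ 2) := by ring
    rw [e]
    refine add_nonneg (sq_nonneg _) (bin_nonneg ?_ ?_)
    · linarith
    · generalize ρ ^ 2 = r at *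
      have h2 : 0 ≤ 1 - r := sub_nonneg.2 hr1
      nlinarith [mul_nonneg hr h2, mul_nonneg (mul_nonneg hr hr) h2, mul_nonneg hr hr,
        mul_nonneg h2 h2, mul_nonneg (mul_nonneg h2 h2) h2, mul_nonneg (mul_nonneg hr h2) h2,
        mul_nonneg (mul_nonneg hr h2) (mul_nonneg hr h2), mul_nonneg (mul_nonneg h2 h2) (mul_nonneg h2 h2)]
  by_contra h3
  push Not at h3
  exact absurd key (not_le.2 (mul_neg_of_pos_of_neg (by linarith) h3))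

theorem q0_nonneg {ρ er ei pr pi : ℝ} (h0 : 0 ≤ ρ) (h1 : ρ ≤ 1) :
    0 ≤ 256 / 25 * ρ ^ 2 - 34 / 5 * ρ * (1 + ρ ^ 2 / 2) * er + 111 / 20 * ρ ^ 2 * pr
      + (2 - ρ ^ 2) * (pr ^ 2 + pi ^ 2) - 17 / 20 * (4 * ρ - ρ ^ 3) * (pr * er + pi * ei)
      + (36 / 25 - (6 + 3 * ρ ^ 2) / 1000) * (er ^ 2 + ei ^ 2)
      + 49 / 40 * ρ ^ 2 * (er ^ 2 - ei ^ 2) + 36 / 25 * ρ ^ 2 * ei ^ 2 := by
  have h2 := q0_im (ei := ei) (pi := pi) h0 h1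
  have h3 := q0_re (er := er) (pr := pr) h0 h1
  nlinarith [h2, h3]

theorem q1_nonneg {ρ er ei vr vi br bi : ℝ} (h0 : 0 ≤ ρ) (h1 : ρ ≤ 1) :
    0 ≤ (er ^ 2 + ei ^ 2) * ((2 - ρ ^ 2) * (351 / 400) * (vr ^ 2 + vi ^ 2)
        - 49 / 400 * (6 * ρ ^ 2 - 3 * ρ ^ 4) * (vr ^ 2 - vi ^ 2))
      + (351 / 100 * ρ + (49 / 100 - 49 / 40) * (4 * ρ - ρ ^ 3)) * (vr * (er * br + ei * bi))
      + (351 / 100 * ρ - 49 / 100 * (4 * ρ - ρ ^ 3)) * (vi * (er * bi - ei * br))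
      + (351 / 100 - 36 / 25) * (br ^ 2 + bi ^ 2) - 36 / 25 * ρ ^ 2 * br ^ 2
      + 49 / 40 * ρ ^ 2 * (br ^ 2 - bi ^ 2) := by
  have hr : 0 ≤ ρ ^ 2 := sq_nonneg _
  have hr1 : ρ ^ 2 ≤ 1 := by nlinarith
  have hB : 0 ≤ (351 / 100 - 36 / 25) * (br ^ 2 + bi ^ 2) - 36 / 25 * ρ ^ 2 * br ^ 2
      + 49 / 40 * ρ ^ 2 * (br ^ 2 - bi ^ 2) - (207 / 100 - 49 / 40 * ρ ^ 2) * (br ^ 2 + bi ^ 2) := by
    nlinarith [mul_nonneg hr (sq_nonneg br)]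
  rcases (add_nonneg (sq_nonneg er) (sq_nonneg ei)).eq_or_lt with hE | hE
  · have h2 : er = 0 := by nlinarith [sq_nonneg er, sq_nonneg ei]
    have h3 : ei = 0 := by nlinarith [sq_nonneg er, sq_nonneg ei]
    subst h2 h3
    nlinarith [mul_nonneg (sub_nonneg.2 hr1) (add_nonneg (sq_nonneg br) (sq_nonneg bi)),
      sq_nonneg br, sq_nonneg bi]
  · have hc : ∀ x y : ℝ, 0 ≤ ((2 - ρ ^ 2) * (351 / 400) - 49 / 400 * (6 * ρ ^ 2 - 3 * ρ ^ 4)) * x ^ 2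
        + (351 / 100 * ρ + (49 / 100 - 49 / 40) * (4 * ρ - ρ ^ 3)) * x * y
        + (207 / 100 - 49 / 40 * ρ ^ 2) * y ^ 2 := by
      intro x y
      have e1 : (351 / 100 * ρ + (49 / 100 - 49 / 40) * (4 * ρ - ρ ^ 3)) ^ 2 =
        ρ ^ 2 * (57 / 100 + 147 / 200 * ρ ^ 2) ^ 2 := by ring
      have e2 : (2 - ρ ^ 2) * (351 / 400) - 49 / 400 * (6 * ρ ^ 2 - 3 * ρ ^ 4) =
        (2 - ρ ^ 2) * (351 / 400) - 49 / 400 * (6 * ρ ^ 2 - 3 * (ρ ^ 2) ^ 2) := by ring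
      rw [e2]
      apply bin_nonneg
      · nlinarith [mul_nonneg hr (sub_nonneg.2 hr1)]
      · rw [e1]
        generalize ρ ^ 2 = r at *
        have h2 : 0 ≤ 1 - r := sub_nonneg.2 hr1
        nlinarith [mul_nonneg hr h2, mul_nonneg (mul_nonneg hr hr) h2, mul_nonneg hr hr,
          mul_nonneg h2 h2, mul_nonneg (mul_nonneg hr h2) h2, mul_nonneg (mul_nonneg h2 h2) h2]
    have hd : ∀ x y : ℝ, 0 ≤ ((2 - ρ ^ 2) * (351 / 400) + 49 / 400 * (6 * ρ ^ 2 - 3 * ρ ^ 4)) * x ^ 2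
        + (351 / 100 * ρ - 49 / 100 * (4 * ρ - ρ ^ 3)) * x * y
        + (207 / 100 - 49 / 40 * ρ ^ 2) * y ^ 2 := by
      intro x y
      have e1 : (351 / 100 * ρ - 49 / 100 * (4 * ρ - ρ ^ 3)) ^ 2 =
        ρ ^ 2 * (155 / 100 + 49 / 100 * ρ ^ 2) ^ 2 := by ring
      have e2 : (2 - ρ ^ 2) * (351 / 400) + 49 / 400 * (6 * ρ ^ 2 - 3 * ρ ^ 4) =
        (2 - ρ ^ 2) * (351 / 400) + 49 / 400 * (6 * ρ ^ 2 - 3 * (ρ ^ 2) ^ 2) := by ring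
      rw [e2]
      apply bin_nonneg
      · nlinarith [mul_nonneg hr (sub_nonneg.2 hr1)]
      · rw [e1]
        generalize ρ ^ 2 = r at *
        have h2 : 0 ≤ 1 - r := sub_nonneg.2 hr1
        nlinarith [mul_nonneg hr h2, mul_nonneg (mul_nonneg hr hr) h2, mul_nonneg hr hr,
          mul_nonneg h2 h2, mul_nonneg (mul_nonneg hr h2) h2, mul_nonneg (mul_nonneg h2 h2) h2]
    have h4 := hc ((er ^ 2 + ei ^ 2) * vr) (er * br + ei * bi)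
    have h5 := hd ((er ^ 2 + ei ^ 2) * vi) (er * bi - ei * br)
    have h6 : 0 ≤ (er ^ 2 + ei ^ 2) * ((351 / 100 - 36 / 25) * (br ^ 2 + bi ^ 2)
      - 36 / 25 * ρ ^ 2 * br ^ 2 + 49 / 40 * ρ ^ 2 * (br ^ 2 - bi ^ 2)
      - (207 / 100 - 49 / 40 * ρ ^ 2) * (br ^ 2 + bi ^ 2)) := mul_nonneg hE.le hB
    have h7 : 0 ≤ (er ^ 2 + ei ^ 2) * ((er ^ 2 + ei ^ 2) * ((2 - ρ ^ 2) * (351 / 400) *
        (vr ^ 2 + vi ^ 2) - 49 / 400 * (6 * ρ ^ 2 - 3 * ρ ^ 4) * (vr ^ 2 - vi ^ 2))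
      + (351 / 100 * ρ + (49 / 100 - 49 / 40) * (4 * ρ - ρ ^ 3)) * (vr * (er * br + ei * bi))
      + (351 / 100 * ρ - 49 / 100 * (4 * ρ - ρ ^ 3)) * (vi * (er * bi - ei * br))
      + (351 / 100 - 36 / 25) * (br ^ 2 + bi ^ 2) - 36 / 25 * ρ ^ 2 * br ^ 2
      + 49 / 40 * ρ ^ 2 * (br ^ 2 - bi ^ 2)) := by
      have e : (er ^ 2 + ei ^ 2) * ((er ^ 2 + ei ^ 2) * ((2 - ρ ^ 2) * (351 / 400) *
        (vr ^ 2 + vi ^ 2) - 49 / 400 * (6 * ρ ^ 2 - 3 * ρ ^ 4) * (vr ^ 2 - vi ^ 2))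
      + (351 / 100 * ρ + (49 / 100 - 49 / 40) * (4 * ρ - ρ ^ 3)) * (vr * (er * br + ei * bi))
      + (351 / 100 * ρ - 49 / 100 * (4 * ρ - ρ ^ 3)) * (vi * (er * bi - ei * br))
      + (351 / 100 - 36 / 25) * (br ^ 2 + bi ^ 2) - 36 / 25 * ρ ^ 2 * br ^ 2
      + 49 / 40 * ρ ^ 2 * (br ^ 2 - bi ^ 2)) =
      (((2 - ρ ^ 2) * (351 / 400) - 49 / 400 * (6 * ρ ^ 2 - 3 * ρ ^ 4)) *
          ((er ^ 2 + ei ^ 2) * vr) ^ 2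
        + (351 / 100 * ρ + (49 / 100 - 49 / 40) * (4 * ρ - ρ ^ 3)) * ((er ^ 2 + ei ^ 2) * vr) *
          (er * br + ei * bi)
        + (207 / 100 - 49 / 40 * ρ ^ 2) * (er * br + ei * bi) ^ 2) +
      (((2 - ρ ^ 2) * (351 / 400) + 49 / 400 * (6 * ρ ^ 2 - 3 * ρ ^ 4)) *
          ((er ^ 2 + ei ^ 2) * vi) ^ 2
        + (351 / 100 * ρ - 49 / 100 * (4 * ρ - ρ ^ 3)) * ((er ^ 2 + ei ^ 2) * vi) *
          (er * bi - ei * br)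
        + (207 / 100 - 49 / 40 * ρ ^ 2) * (er * bi - ei * br) ^ 2) +
      (er ^ 2 + ei ^ 2) * ((351 / 100 - 36 / 25) * (br ^ 2 + bi ^ 2)
      - 36 / 25 * ρ ^ 2 * br ^ 2 + 49 / 40 * ρ ^ 2 * (br ^ 2 - bi ^ 2)
      - (207 / 100 - 49 / 40 * ρ ^ 2) * (br ^ 2 + bi ^ 2)) := by ring
      rw [e]
      exact add_nonneg (add_nonneg h4 h5) h6
    by_contra h8
    push Not at h8
    exact absurd h7 (not_le.2 (mul_neg_of_pos_of_neg hE h8))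

end Pool.Agent.Cone5.FI
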