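import Mathlib
import Pool.Agent.Work.MP_b0b133_an.D5.FIa

set_option autoImplicit false

open Complex
open scoped ComplexConjugate

namespace Pool.Agent.Cone5.FI

/-- `Re (conj a * b)` -/
def dot (a b : ℂ) : ℝ := a.re * b.re + a.im * b.im

/-- `Im (conj a * b)` -/
def wed (a b : ℂ) : ℝ := a.re * b.im - a.im * b.re

/-- the regularised modulus -/
noncomputable def fr (δ : ℝ) (F : ℂ) : ℝ := √(dot F F + δ ^ 2)

theorem dot_self_nonneg (F : ℂ) : 0 ≤ dot F F := by
  unfold dot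
  nlinarith [sq_nonneg F.re, sq_nonneg F.im]

theorem fr_pos {δ : ℝ} (hδ : 0 < δ) (F : ℂ) : 0 < fr δ F := by
  unfold fr
  have := dot_self_nonneg F
  positivity

theorem fr_sq (δ : ℝ) (F : ℂ) : fr δ F ^ 2 = dot F F + δ ^ 2 := by
  unfold fr
  have := dot_self_nonneg F
  rw [Real.sq_sqrt (by positivity)]

section curves

variable {F G : ℝ → ℂ} {F' G' : ℂ} {t δ : ℝ}

theorem h_re (h : HasDerivAt F F' t) : HasDerivAt (fun s => (F s).re) F'.re t :=
  (Complex.reCLM.hasFDerivAt.comp_hasDerivAt t h)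

theorem h_im (h : HasDerivAt F F' t) : HasDerivAt (fun s => (F s).im) F'.im t :=
  (Complex.imCLM.hasFDerivAt.comp_hasDerivAt t h)

theorem h_dot (hF : HasDerivAt F F' t) (hG : HasDerivAt G G' t) :
    HasDerivAt (fun s => dot (F s) (G s)) (dot F' (G t) + dot (F t) G') t := by
  have h1 := ((h_re hF).mul (h_re hG)).add ((h_im hF).mul (h_im hG))
  refine HasDerivAt.congr_deriv h1 ?_
  unfold dot
  ring

theorem h_wed (hF : HasDerivAt F F' t) (hG : HasDerivAt G G' t) :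
    HasDerivAt (fun s => wed (F s) (G s)) (wed F' (G t) + wed (F t) G') t := by
  have h1 := ((h_re hF).mul (h_im hG)).sub ((h_im hF).mul (h_re hG))
  refine HasDerivAt.congr_deriv h1 ?_
  unfold wed
  ring

theorem h_fr (hδ : 0 < δ) (hF : HasDerivAt F F' t) :
    HasDerivAt (fun s => fr δ (F s)) (dot (F t) F' / fr δ (F t)) t := by
  have h1 := ((h_dot hF hF).add_const (δ ^ 2))
  have h2 : dot (F t) (F t) + δ ^ 2 ≠ 0 := by
    have := dot_self_nonneg (F t)
    positivity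
  have h3 := h1.sqrt h2
  refine HasDerivAt.congr_deriv h3 ?_
  unfold fr
  have h4 : √(dot (F t) (F t) + δ ^ 2) ≠ 0 := by
    have := fr_pos hδ (F t)
    unfold fr at this
    exact this.ne'
  field_simp
  unfold dot
  ring

end curves

/-- the part of the density with `F, H` -/
noncomputable def ps0 (δ : ℝ) (F H : ℂ) : ℝ :=
  fr δ F * dot H H - 17 / 20 * (fr δ F * dot F H) - 1 / 1000 * fr δ F ^ 3

/-- first derivative of `ps0` -/
noncomputable def ps0d (δ : ℝ) (F H F' H' : ℂ) : ℝ :=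
  dot F F' / fr δ F * dot H H + 2 * fr δ F * dot H H'
    - 17 / 20 * (dot F F' / fr δ F * dot F H + fr δ F * (dot F' H + dot F H'))
    - 3 / 1000 * (fr δ F * dot F F')

/-- second derivative of `ps0` -/
noncomputable def ps0dd (δ : ℝ) (F H F' H' F'' H'' : ℂ) : ℝ :=
  ((dot F' F' + dot F F'') / fr δ F - dot F F' ^ 2 / fr δ F ^ 3) * dot H H
    + 4 * (dot F F' / fr δ F) * dot H H' + 2 * fr δ F * (dot H' H' + dot H H'')
    - 17 / 20 * (((dot F' F' + dot F F'') / fr δ F - dot F F' ^ 2 / fr δ F ^ 3) * dot F H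
      + 2 * (dot F F' / fr δ F) * (dot F' H + dot F H')
      + fr δ F * (dot F'' H + 2 * dot F' H' + dot F H''))
    - 3 / 1000 * (dot F F' ^ 2 / fr δ F + fr δ F * (dot F' F' + dot F F''))

/-- the part of the density with `v` -/
noncomputable def ps1 (δ : ℝ) (F v : ℂ) : ℝ :=
  351 / 400 * (fr δ F * dot v v) + 49 / 400 * ((dot F v ^ 2 - wed F v ^ 2) / fr δ F)

/-- first derivative of `ps1` -/
noncomputable def ps1d (δ : ℝ) (F v F' v' : ℂ) : ℝ :=
  351 / 400 * (dot F F' / fr δ F * dot v v + 2 * fr δ F * dot v v')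
    + 49 / 400 * (2 * (dot F v * (dot F' v + dot F v') - wed F v * (wed F' v + wed F v')) / fr δ F
      - (dot F v ^ 2 - wed F v ^ 2) * dot F F' / fr δ F ^ 3)

/-- second derivative of `ps1` -/
noncomputable def ps1dd (δ : ℝ) (F v F' v' F'' v'' : ℂ) : ℝ :=
  351 / 400 * (((dot F' F' + dot F F'') / fr δ F - dot F F' ^ 2 / fr δ F ^ 3) * dot v v
      + 4 * (dot F F' / fr δ F) * dot v v' + 2 * fr δ F * (dot v' v' + dot v v''))
    + 49 / 400 * (2 * ((dot F' v + dot F v') ^ 2 - (wed F' v + wed F v') ^ 2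
        + dot F v * (dot F'' v + 2 * dot F' v' + dot F v'')
        - wed F v * (wed F'' v + 2 * wed F' v' + wed F v'')) / fr δ F
      - 4 * (dot F v * (dot F' v + dot F v') - wed F v * (wed F' v + wed F v')) * dot F F'
        / fr δ F ^ 3
      - (dot F v ^ 2 - wed F v ^ 2) * (dot F' F' + dot F F'') / fr δ F ^ 3
      + 3 * (dot F v ^ 2 - wed F v ^ 2) * dot F F' ^ 2 / fr δ F ^ 5)

theorem dot_comm' (a b : ℂ) : dot a b = dot b a := by unfold dot; ring

section d12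

variable {F H : ℝ → ℂ} {t δ : ℝ}

theorem ps0_d1 (hδ : 0 < δ) {F' H' : ℂ} (hF : HasDerivAt F F' t) (hH : HasDerivAt H H' t) :
    HasDerivAt (fun s => ps0 δ (F s) (H s)) (ps0d δ (F t) (H t) F' H') t := by
  have hf := h_fr hδ hF
  have hp := (fr_pos hδ (F t)).ne'
  have h1 := ((hf.mul (h_dot hH hH)).sub ((hf.mul (h_dot hF hH)).const_mul (17 / 20))).sub
    ((hf.pow 3).const_mul (1 / 1000))
  refine HasDerivAt.congr_deriv h1 ?_
  unfold ps0d
  rw [dot_comm' H' (H t)]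
  generalize fr δ (F t) = f at *
  field_simp
  ring

theorem ps0_d2 (hδ : 0 < δ) {F' H' : ℝ → ℂ} {F'' H'' : ℂ} (hF : HasDerivAt F (F' t) t)
    (hH : HasDerivAt H (H' t) t) (hF' : HasDerivAt F' F'' t) (hH' : HasDerivAt H' H'' t) :
    HasDerivAt (fun s => ps0d δ (F s) (H s) (F' s) (H' s))
      (ps0dd δ (F t) (H t) (F' t) (H' t) F'' H'') t := by
  have hf := h_fr hδ hF
  have hp := (fr_pos hδ (F t)).ne'
  have h1 := (((((h_dot hF hF').div hf hp).mul (h_dot hH hH)).add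
    ((hf.const_mul 2).mul (h_dot hH hH'))).sub
    (((((h_dot hF hF').div hf hp).mul (h_dot hF hH)).add
      (hf.mul ((h_dot hF' hH).add (h_dot hF hH')))).const_mul (17 / 20))).sub
    ((hf.mul (h_dot hF hF')).const_mul (3 / 1000))
  refine HasDerivAt.congr_deriv h1 ?_
  unfold ps0dd
  rw [dot_comm' (H' t) (H t)]
  simp only [Pi.add_apply, Pi.mul_apply, Pi.div_apply]
  generalize fr δ (F t) = f at *
  field_simp
  ring

theorem ps1_d1 (hδ : 0 < δ) {F' H' : ℂ} (hF : HasDerivAt F F' t) (hH : HasDerivAt H H' t) :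
    HasDerivAt (fun s => ps1 δ (F s) (H s)) (ps1d δ (F t) (H t) F' H') t := by
  have hf := h_fr hδ hF
  have hp := (fr_pos hδ (F t)).ne'
  have h1 := ((hf.mul (h_dot hH hH)).const_mul (351 / 400)).add
    (((((h_dot hF hH).pow 2).sub ((h_wed hF hH).pow 2)).div hf hp).const_mul (49 / 400))
  refine HasDerivAt.congr_deriv h1 ?_
  unfold ps1d
  rw [dot_comm' H' (H t)]
  simp only [Pi.sub_apply, Pi.pow_apply]
  generalize fr δ (F t) = f at *
  field_simp
  ring

theorem ps1_d2 (hδ : 0 < δ) {F' H' : ℝ → ℂ} {F'' H'' : ℂ} (hF : HasDerivAt F (F' t) t)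
    (hH : HasDerivAt H (H' t) t) (hF' : HasDerivAt F' F'' t) (hH' : HasDerivAt H' H'' t) :
    HasDerivAt (fun s => ps1d δ (F s) (H s) (F' s) (H' s))
      (ps1dd δ (F t) (H t) (F' t) (H' t) F'' H'') t := by
  have hf := h_fr hδ hF
  have hp := (fr_pos hδ (F t)).ne'
  have hp3 : fr δ (F t) ^ 3 ≠ 0 := pow_ne_zero 3 hp
  have hA := (h_dot hF' hH).add (h_dot hF hH')
  have hB := (h_wed hF' hH).add (h_wed hF hH')
  have h1 := (((((h_dot hF hF').div hf hp).mul (h_dot hH hH)).add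
    ((hf.const_mul 2).mul (h_dot hH hH'))).const_mul (351 / 400)).add
    ((((((((h_dot hF hH).mul hA).sub ((h_wed hF hH).mul hB)).const_mul 2).div hf hp)).sub
      (((((h_dot hF hH).pow 2).sub ((h_wed hF hH).pow 2)).mul (h_dot hF hF')).div (hf.pow 3)
        hp3)).const_mul (49 / 400))
  refine HasDerivAt.congr_deriv h1 ?_
  unfold ps1dd
  rw [dot_comm' (H' t) (H t)]
  simp only [Pi.add_apply, Pi.mul_apply, Pi.sub_apply, Pi.pow_apply, Pi.div_apply]
  generalize fr δ (F t) = f at *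
  field_simp
  ring

end d12

/-! ## The other integrands -/

noncomputable def i1p (δ : ℝ) (F e : ℂ) : ℝ := fr δ F * wed F e

noncomputable def i1 (δ : ℝ) (F e g : ℂ) : ℝ :=
  fr δ F * (dot e e - dot F g) + wed F e ^ 2 / fr δ F

noncomputable def i2p (δ : ℝ) (F b : ℂ) : ℝ := fr δ F * dot F b

noncomputable def i2 (δ : ℝ) (F b c : ℂ) : ℝ :=
  fr δ F * (dot b b + dot F c) + dot F b ^ 2 / fr δ F

noncomputable def i3p (δ : ℝ) (F v b : ℂ) : ℝ :=
  -(dot F v * wed F b + wed F v * dot F b) / fr δ F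

noncomputable def i3 (δ : ℝ) (F v b e w : ℂ) : ℝ :=
  (-2 * (dot F v * dot e b - wed F v * wed e b) + (dot F b ^ 2 - wed F b ^ 2)
    + (dot F v * dot F w - wed F v * wed F w)) / fr δ F
  + (dot F v * wed F b + wed F v * dot F b) * wed F e / fr δ F ^ 3

noncomputable def i4p (δ : ℝ) (F v e : ℂ) : ℝ :=
  (dot F v * dot F e - wed F v * wed F e) / fr δ F

noncomputable def i4 (δ : ℝ) (F v e b z w : ℂ) : ℝ :=
  (2 * (dot F v * dot b e - wed F v * wed b e) + (dot F z * dot F e - wed F z * wed F e)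
    + (dot F v * dot F w - wed F v * wed F w)) / fr δ F
  - (dot F v * dot F e - wed F v * wed F e) * dot F b / fr δ F ^ 3

section d3

variable {t δ : ℝ}

theorem i1_d (hδ : 0 < δ) {F e : ℝ → ℂ} {g : ℂ} (hF : HasDerivAt F (-(I * e t)) t)
    (he : HasDerivAt e (-(I * g)) t) :
    HasDerivAt (fun s => i1p δ (F s) (e s)) (i1 δ (F t) (e t) g) t := by
  have hf := h_fr hδ hF
  have hp := (fr_pos hδ (F t)).ne'
  refine HasDerivAt.congr_deriv (hf.mul (h_wed hF he)) ?_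
  unfold i1 dot wed
  generalize fr δ (F t) = f at *
  simp only [neg_re, neg_im, mul_re, mul_im, I_re, I_im]
  field_simp
  ring

theorem i2_d (hδ : 0 < δ) {F b : ℝ → ℂ} {c : ℂ} (hF : HasDerivAt F (b t) t)
    (hb : HasDerivAt b c t) :
    HasDerivAt (fun s => i2p δ (F s) (b s)) (i2 δ (F t) (b t) c) t := by
  have hf := h_fr hδ hF
  have hp := (fr_pos hδ (F t)).ne'
  refine HasDerivAt.congr_deriv (hf.mul (h_dot hF hb)) ?_
  unfold i2
  generalize fr δ (F t) = f at *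
  field_simp
  ring

theorem i3_d (hδ : 0 < δ) {F v b : ℝ → ℂ} {e w : ℂ} (hF : HasDerivAt F (-(I * e)) t)
    (hv : HasDerivAt v (-(I * b t)) t) (hb : HasDerivAt b (-(I * w)) t) :
    HasDerivAt (fun s => i3p δ (F s) (v s) (b s)) (i3 δ (F t) (v t) (b t) e w) t := by
  have hf := h_fr hδ hF
  have hp := (fr_pos hδ (F t)).ne'
  refine HasDerivAt.congr_deriv (((((h_dot hF hv).mul (h_wed hF hb)).add
    ((h_wed hF hv).mul (h_dot hF hb))).neg).div hf hp) ?_
  unfold i3 dot wed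
  generalize fr δ (F t) = f at *
  simp only [neg_re, neg_im, mul_re, mul_im, I_re, I_im, Pi.add_apply, Pi.mul_apply, Pi.neg_apply]
  field_simp
  ring

theorem i4_d (hδ : 0 < δ) {F v e : ℝ → ℂ} {b z w : ℂ} (hF : HasDerivAt F b t)
    (hv : HasDerivAt v z t) (he : HasDerivAt e w t) :
    HasDerivAt (fun s => i4p δ (F s) (v s) (e s)) (i4 δ (F t) (v t) (e t) b z w) t := by
  have hf := h_fr hδ hF
  have hp := (fr_pos hδ (F t)).ne'
  refine HasDerivAt.congr_deriv ((((h_dot hF hv).mul (h_dot hF he)).sub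
    ((h_wed hF hv).mul (h_wed hF he))).div hf hp) ?_
  unfold i4 dot wed
  generalize fr δ (F t) = f at *
  simp only [Pi.sub_apply, Pi.mul_apply]
  field_simp
  ring

end d3

/-! ## Positivity -/

theorem dot_mul (u a b : ℂ) : dot (u * a) (u * b) = normSq u * dot a b := by
  unfold dot
  simp only [mul_re, mul_im, normSq_apply]
  ring

theorem wed_mul (u a b : ℂ) : wed (u * a) (u * b) = normSq u * wed a b := by
  unfold wed
  simp only [mul_re, mul_im, normSq_apply]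
  ring

/-- the form without `v`, in the scalars `f, |F|², |H|², |e|², ...` -/
noncomputable def Q0f (f DFF DHH Dee DFH DFe WFH WFe : ℝ) : ℝ :=
  (2 / f - DFF / f ^ 3) * (Dee * DHH) + 8 / f * (DFe * DFH - WFe * WFH) + 16 * f * DFF
  - 17 / 5 * ((1 / f - DFF / (4 * f ^ 3)) * DFH * Dee + 2 * (f + DFF / (2 * f)) * DFe)
  - 1 / 1000 * (6 * f + 3 * DFF / f) * Dee
  + 12 / 25 * (3 * f * Dee + 3 * WFe ^ 2 / f) - 144 / 25 * f * DFF
  + 49 / 40 * (-2 * (DFe * DFH - WFe * WFH) / f + (DFe ^ 2 - WFe ^ 2) / f)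

noncomputable def Q1f (f DFF Dee Dvv Dbb DFv WFv DFe WFe DFb WFb Dvb Wvb Deb Web : ℝ) : ℝ :=
  351 / 400 * ((2 / f - DFF / f ^ 3) * Dee * Dvv + 4 / f * (Dvb * DFe + Wvb * WFe) + 4 * f * Dbb)
  + 49 / 100 * (-(DFv ^ 2 - WFv ^ 2) * Dee * (3 / (2 * f ^ 3) - 3 * DFF / (4 * f ^ 5))
      + (DFv * Deb - WFv * Web) * (4 / f - DFF / f ^ 3))
  - 12 / 25 * (3 * f * Dbb + 3 * DFb ^ 2 / f)
  + 49 / 40 * (-(4 / f - DFF / f ^ 3) * DFv * Deb + (DFb ^ 2 - WFb ^ 2) / f)

theorem Q0_eq {δ : ℝ} (hδ : 0 < δ) (F H e g : ℂ) :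
    ps0dd δ F H (-e) (-(2 * F)) g (2 * e) + ps0dd δ F H (-(I * e)) (-(I * (2 * F))) (-g) (-(2 * e))
      + 36 / 25 * i1 δ F e g - 36 / 25 * (fr δ F * dot F (4 * F - g))
      - 49 / 40 * ((dot F (2 * H - e) * dot F e - wed F (2 * H - e) * wed F e) / fr δ F) =
    Q0f (fr δ F) (dot F F) (dot H H) (dot e e) (dot F H) (dot F e) (wed F H) (wed F e) := by
  have hp := (fr_pos hδ F).ne'
  unfold ps0dd Q0f i1 dot wed
  generalize fr δ F = f at *
  simp only [neg_re, neg_im, mul_re, mul_im, I_re, I_im, sub_re, sub_im, re_ofNat, im_ofNat]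
  field_simp
  ring

theorem Q1_eq {δ : ℝ} (hδ : 0 < δ) (F v e b g w : ℂ) :
    ps1dd δ F v (-e) (-b) g w + ps1dd δ F v (-(I * e)) (-(I * b)) (-g) (-w)
      - 36 / 25 * (fr δ F * dot b b + dot F b ^ 2 / fr δ F)
      + 49 / 40 * (i3 δ F v b e w - i4 δ F v e b 0 w) =
    Q1f (fr δ F) (dot F F) (dot e e) (dot v v) (dot b b) (dot F v) (wed F v) (dot F e) (wed F e)
      (dot F b) (wed F b) (dot v b) (wed v b) (dot e b) (wed e b) := by
  have hp := (fr_pos hδ F).ne'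
  unfold ps1dd Q1f i3 i4 dot wed
  generalize fr δ F = f at *
  simp only [neg_re, neg_im, mul_re, mul_im, I_re, I_im, sub_re, sub_im, zero_re, zero_im]
  field_simp
  ring

/-- rotate so that `F` is real -/
theorem exists_unit (F : ℂ) : ∃ u : ℂ, normSq u = 1 ∧ (u * F).im = 0 ∧ 0 ≤ (u * F).re := by
  rcases eq_or_ne F 0 with h | h
  · exact ⟨1, by simp, by simp [h], by simp [h]⟩
  · have h1 : ‖F‖ ≠ 0 := norm_ne_zero_iff.2 h
    have h2 : (‖F‖ : ℂ) ≠ 0 := by exact_mod_cast h1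
    have e1 : (‖F‖ : ℂ)⁻¹ * conj F * F = ‖F‖ := by
      have : conj F * F = ((‖F‖ ^ 2 : ℝ) : ℂ) := by
        rw [← normSq_eq_conj_mul_self, normSq_eq_norm_sq]
      rw [mul_assoc, this]
      push_cast
      field_simp
    refine ⟨(‖F‖ : ℂ)⁻¹ * conj F, ?_, ?_, ?_⟩
    · rw [map_mul, map_inv₀, normSq_conj, normSq_ofReal, normSq_eq_norm_sq]
      field_simp
    · rw [e1]; simp
    · rw [e1]; simp

theorem Q0_nonneg {δ : ℝ} (hδ : 0 < δ) (F H e : ℂ) :
    0 ≤ Q0f (fr δ F) (dot F F) (dot H H) (dot e e) (dot F H) (dot F e) (wed F H) (wed F e) := by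
  obtain ⟨u, hu, hi, hr⟩ := exists_unit F
  have hd : ∀ a b : ℂ, dot a b = dot (u * a) (u * b) := fun a b => by rw [dot_mul, hu, one_mul]
  have hw : ∀ a b : ℂ, wed a b = wed (u * a) (u * b) := fun a b => by rw [wed_mul, hu, one_mul]
  have hf := fr_pos hδ F
  have hsq := fr_sq δ F
  rw [hd F F] at hsq
  rw [hd F F, hd H H, hd e e, hd F H, hd F e, hw F H, hw F e]
  generalize fr δ F = f at *
  generalize u * F = F' at *
  generalize u * H = H' at *
  generalize u * e = e' at *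
  have hρ0 : 0 ≤ F'.re / f := by positivity
  have hρ1 : F'.re / f ≤ 1 := by
    rw [div_le_one hf]
    unfold dot at hsq
    rw [hi] at hsq
    nlinarith [sq_nonneg δ]
  have key := q0_nonneg (ρ := F'.re / f) (er := e'.re / f) (ei := e'.im / f)
    (pr := (H' * e').re / f ^ 2) (pi := (H' * e').im / f ^ 2) hρ0 hρ1
  have : Q0f f (dot F' F') (dot H' H') (dot e' e') (dot F' H') (dot F' e') (wed F' H')
      (wed F' e') = f ^ 3 * (256 / 25 * (F'.re / f) ^ 2 - 34 / 5 * (F'.re / f) *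
        (1 + (F'.re / f) ^ 2 / 2) * (e'.re / f) + 111 / 20 * (F'.re / f) ^ 2 *
        ((H' * e').re / f ^ 2)
      + (2 - (F'.re / f) ^ 2) * (((H' * e').re / f ^ 2) ^ 2 + ((H' * e').im / f ^ 2) ^ 2)
      - 17 / 20 * (4 * (F'.re / f) - (F'.re / f) ^ 3) * (((H' * e').re / f ^ 2) * (e'.re / f)
        + ((H' * e').im / f ^ 2) * (e'.im / f))
      + (36 / 25 - (6 + 3 * (F'.re / f) ^ 2) / 1000) * ((e'.re / f) ^ 2 + (e'.im / f) ^ 2)
      + 49 / 40 * (F'.re / f) ^ 2 * ((e'.re / f) ^ 2 - (e'.im / f) ^ 2)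
      + 36 / 25 * (F'.re / f) ^ 2 * (e'.im / f) ^ 2) := by
    unfold Q0f dot wed
    rw [hi, mul_re, mul_im]
    field_simp
    ring
  rw [this]
  positivity

theorem Q1_nonneg {δ : ℝ} (hδ : 0 < δ) (F v e b : ℂ) :
    0 ≤ Q1f (fr δ F) (dot F F) (dot e e) (dot v v) (dot b b) (dot F v) (wed F v) (dot F e)
      (wed F e) (dot F b) (wed F b) (dot v b) (wed v b) (dot e b) (wed e b) := by
  obtain ⟨u, hu, hi, hr⟩ := exists_unit F
  have hd : ∀ a b : ℂ, dot a b = dot (u * a) (u * b) := fun a b => by rw [dot_mul, hu, one_mul]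
  have hw : ∀ a b : ℂ, wed a b = wed (u * a) (u * b) := fun a b => by rw [wed_mul, hu, one_mul]
  have hf := fr_pos hδ F
  have hsq := fr_sq δ F
  rw [hd F F] at hsq
  rw [hd F F, hd e e, hd v v, hd b b, hd F v, hw F v, hd F e, hw F e, hd F b, hw F b, hd v b,
    hw v b, hd e b, hw e b]
  generalize fr δ F = f at *
  generalize u * F = F' at *
  generalize u * v = v' at *
  generalize u * e = e' at *
  generalize u * b = b' at *
  have hρ0 : 0 ≤ F'.re / f := by positivity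
  have hρ1 : F'.re / f ≤ 1 := by
    rw [div_le_one hf]
    unfold dot at hsq
    rw [hi] at hsq
    nlinarith [sq_nonneg δ]
  have key := q1_nonneg (ρ := F'.re / f) (er := e'.re / f) (ei := e'.im / f)
    (vr := v'.re / f) (vi := v'.im / f) (br := b'.re / f) (bi := b'.im / f) hρ0 hρ1
  set q := (((e'.re / f) ^ 2 + (e'.im / f) ^ 2) * ((2 - (F'.re / f) ^ 2) * (351 / 400) *
        ((v'.re / f) ^ 2 + (v'.im / f) ^ 2)
        - 49 / 400 * (6 * (F'.re / f) ^ 2 - 3 * (F'.re / f) ^ 4) *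
          ((v'.re / f) ^ 2 - (v'.im / f) ^ 2))
      + (351 / 100 * (F'.re / f) + (49 / 100 - 49 / 40) * (4 * (F'.re / f) - (F'.re / f) ^ 3)) *
        ((v'.re / f) * ((e'.re / f) * (b'.re / f) + (e'.im / f) * (b'.im / f)))
      + (351 / 100 * (F'.re / f) - 49 / 100 * (4 * (F'.re / f) - (F'.re / f) ^ 3)) *
        ((v'.im / f) * ((e'.re / f) * (b'.im / f) - (e'.im / f) * (b'.re / f)))
      + (351 / 100 - 36 / 25) * ((b'.re / f) ^ 2 + (b'.im / f) ^ 2)
      - 36 / 25 * (F'.re / f) ^ 2 * (b'.re / f) ^ 2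
      + 49 / 40 * (F'.re / f) ^ 2 * ((b'.re / f) ^ 2 - (b'.im / f) ^ 2)) with hq
  have : Q1f f (dot F' F') (dot e' e') (dot v' v') (dot b' b') (dot F' v') (wed F' v')
      (dot F' e') (wed F' e') (dot F' b') (wed F' b') (dot v' b') (wed v' b') (dot e' b')
      (wed e' b') = f ^ 3 * q := by
    rw [hq]
    unfold Q1f dot wed
    rw [hi]
    field_simp
    ring
  rw [this]
  positivity

end Pool.Agent.Cone5.FI
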