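import Pool.Agent.Work.MP_b0b133_an.D5.FIc

/-!
# Integrals on the polynomial world
-/

set_option autoImplicit false
open MeasureTheory Complex Filter Topology
open scoped ENNReal ComplexConjugate

namespace Pool.Agent.Cone5.FI

open Alg (integrable norm_le_one ev_smul)

variable {μ : Measure C6} {δ : ℝ}

/-! ### Continuity -/

section cont

variable {X : Type*} [TopologicalSpace X] {A B C D E G : X → ℂ}

@[fun_prop] theorem c_dot (hA : Continuous A) (hB : Continuous B) :
    Continuous (fun x => dot (A x) (B x)) := by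
  unfold dot
  fun_prop

@[fun_prop] theorem c_wed (hA : Continuous A) (hB : Continuous B) :
    Continuous (fun x => wed (A x) (B x)) := by
  unfold wed
  fun_prop

theorem c_fr (hA : Continuous A) : Continuous (fun x => fr δ (A x)) := by
  unfold fr
  fun_prop

theorem c_ps0 (hA : Continuous A) (hB : Continuous B) :
    Continuous (fun x => ps0 δ (A x) (B x)) := by
  have hf := c_fr (δ := δ) hA
  unfold ps0
  fun_prop

theorem c_ps0d (hδ : 0 < δ) (hA : Continuous A) (hB : Continuous B) (hC : Continuous C)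
    (hD : Continuous D) : Continuous (fun x => ps0d δ (A x) (B x) (C x) (D x)) := by
  have hf := c_fr (δ := δ) hA
  have h1 : ∀ x, fr δ (A x) ≠ 0 := fun x => (fr_pos hδ _).ne'
  unfold ps0d
  fun_prop (disch := exact h1)

theorem c_ps0dd (hδ : 0 < δ) (hA : Continuous A) (hB : Continuous B) (hC : Continuous C)
    (hD : Continuous D) (hE : Continuous E) (hG : Continuous G) :
    Continuous (fun x => ps0dd δ (A x) (B x) (C x) (D x) (E x) (G x)) := by
  have hf := c_fr (δ := δ) hA
  have h1 : ∀ x, fr δ (A x) ≠ 0 := fun x => (fr_pos hδ _).ne'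
  have h3 : ∀ x, fr δ (A x) ^ 3 ≠ 0 := fun x => pow_ne_zero _ (h1 x)
  unfold ps0dd
  fun_prop (disch := first | exact h1 | exact h3)

theorem c_ps1 (hδ : 0 < δ) (hA : Continuous A) (hB : Continuous B) :
    Continuous (fun x => ps1 δ (A x) (B x)) := by
  have hf := c_fr (δ := δ) hA
  have h1 : ∀ x, fr δ (A x) ≠ 0 := fun x => (fr_pos hδ _).ne'
  unfold ps1
  fun_prop (disch := exact h1)

theorem c_ps1d (hδ : 0 < δ) (hA : Continuous A) (hB : Continuous B) (hC : Continuous C)
    (hD : Continuous D) : Continuous (fun x => ps1d δ (A x) (B x) (C x) (D x)) := by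
  have hf := c_fr (δ := δ) hA
  have h1 : ∀ x, fr δ (A x) ≠ 0 := fun x => (fr_pos hδ _).ne'
  have h3 : ∀ x, fr δ (A x) ^ 3 ≠ 0 := fun x => pow_ne_zero _ (h1 x)
  unfold ps1d
  fun_prop (disch := first | exact h1 | exact h3)

theorem c_ps1dd (hδ : 0 < δ) (hA : Continuous A) (hB : Continuous B) (hC : Continuous C)
    (hD : Continuous D) (hE : Continuous E) (hG : Continuous G) :
    Continuous (fun x => ps1dd δ (A x) (B x) (C x) (D x) (E x) (G x)) := by
  have hf := c_fr (δ := δ) hA
  have h1 : ∀ x, fr δ (A x) ≠ 0 := fun x => (fr_pos hδ _).ne'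
  have h3 : ∀ x, fr δ (A x) ^ 3 ≠ 0 := fun x => pow_ne_zero _ (h1 x)
  have h5 : ∀ x, fr δ (A x) ^ 5 ≠ 0 := fun x => pow_ne_zero _ (h1 x)
  unfold ps1dd
  fun_prop (disch := first | exact h1 | exact h3 | exact h5)

theorem c_i1p (hA : Continuous A) (hB : Continuous B) :
    Continuous (fun x => i1p δ (A x) (B x)) := by
  have hf := c_fr (δ := δ) hA
  unfold i1p
  fun_prop

theorem c_i2p (hA : Continuous A) (hB : Continuous B) :
    Continuous (fun x => i2p δ (A x) (B x)) := by
  have hf := c_fr (δ := δ) hA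
  unfold i2p
  fun_prop

theorem c_i1 (hδ : 0 < δ) (hA : Continuous A) (hB : Continuous B) (hC : Continuous C) :
    Continuous (fun x => i1 δ (A x) (B x) (C x)) := by
  have hf := c_fr (δ := δ) hA
  have h1 : ∀ x, fr δ (A x) ≠ 0 := fun x => (fr_pos hδ _).ne'
  unfold i1
  fun_prop (disch := exact h1)

theorem c_i2 (hδ : 0 < δ) (hA : Continuous A) (hB : Continuous B) (hC : Continuous C) :
    Continuous (fun x => i2 δ (A x) (B x) (C x)) := by
  have hf := c_fr (δ := δ) hA
  have h1 : ∀ x, fr δ (A x) ≠ 0 := fun x => (fr_pos hδ _).ne'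
  unfold i2
  fun_prop (disch := exact h1)

theorem c_i3p (hδ : 0 < δ) (hA : Continuous A) (hB : Continuous B) (hC : Continuous C) :
    Continuous (fun x => i3p δ (A x) (B x) (C x)) := by
  have hf := c_fr (δ := δ) hA
  have h1 : ∀ x, fr δ (A x) ≠ 0 := fun x => (fr_pos hδ _).ne'
  unfold i3p
  fun_prop (disch := exact h1)

theorem c_i4p (hδ : 0 < δ) (hA : Continuous A) (hB : Continuous B) (hC : Continuous C) :
    Continuous (fun x => i4p δ (A x) (B x) (C x)) := by
  have hf := c_fr (δ := δ) hA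
  have h1 : ∀ x, fr δ (A x) ≠ 0 := fun x => (fr_pos hδ _).ne'
  unfold i4p
  fun_prop (disch := exact h1)

theorem c_i3 (hδ : 0 < δ) (hA : Continuous A) (hB : Continuous B) (hC : Continuous C)
    (hD : Continuous D) (hE : Continuous E) :
    Continuous (fun x => i3 δ (A x) (B x) (C x) (D x) (E x)) := by
  have hf := c_fr (δ := δ) hA
  have h1 : ∀ x, fr δ (A x) ≠ 0 := fun x => (fr_pos hδ _).ne'
  have h3 : ∀ x, fr δ (A x) ^ 3 ≠ 0 := fun x => pow_ne_zero _ (h1 x)
  unfold i3
  fun_prop (disch := first | exact h1 | exact h3)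

theorem c_i4 (hδ : 0 < δ) (hA : Continuous A) (hB : Continuous B) (hC : Continuous C)
    (hD : Continuous D) (hE : Continuous E) (hG : Continuous G) :
    Continuous (fun x => i4 δ (A x) (B x) (C x) (D x) (E x) (G x)) := by
  have hf := c_fr (δ := δ) hA
  have h1 : ∀ x, fr δ (A x) ≠ 0 := fun x => (fr_pos hδ _).ne'
  have h3 : ∀ x, fr δ (A x) ^ 3 ≠ 0 := fun x => pow_ne_zero _ (h1 x)
  unfold i4
  fun_prop (disch := first | exact h1 | exact h3)

end cont

/-! ### Parametric integrals -/

theorem ae_ball (hμ : Law μ) : ∀ᵐ x ∂μ, x ∈ Metric.closedBall (0 : C6) 1 := by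
  filter_upwards [hμ.supp] with x hx
  rw [mem_closedBall_zero_iff]
  exact norm_le_one hx.1

theorem restrict_ball (hμ : Law μ) : μ.restrict (Metric.closedBall (0 : C6) 1) = μ :=
  Measure.restrict_eq_self_of_ae_mem (ae_ball hμ)

theorem cont_int (hμ : Law μ) {X : Type*} [TopologicalSpace X] [FirstCountableTopology X]
    [LocallyCompactSpace X] {G : X → C6 → ℝ} (hG : Continuous (fun p : X × C6 => G p.1 p.2)) :
    Continuous (fun s => ∫ x, G s x ∂μ) := by
  have := hμ.prob
  have h := continuous_parametric_integral_of_continuous (μ := μ) (f := G) hG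
    (isCompact_closedBall (0 : C6) 1)
  rwa [restrict_ball hμ] at h

theorem hasDerivAt_int (hμ : Law μ) {G G' : ℝ → C6 → ℝ}
    (hG : Continuous (fun p : ℝ × C6 => G p.1 p.2))
    (hG' : Continuous (fun p : ℝ × C6 => G' p.1 p.2))
    (hd : ∀ s x, HasDerivAt (fun r => G r x) (G' s x) s) (t : ℝ) :
    HasDerivAt (fun s => ∫ x, G s x ∂μ) (∫ x, G' t x ∂μ) t := by
  have := hμ.prob
  have hcp : IsCompact (Metric.closedBall t 1 ×ˢ Metric.closedBall (0 : C6) 1) :=
    (isCompact_closedBall t 1).prod (isCompact_closedBall (0 : C6) 1)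
  obtain ⟨M, hM⟩ := (hcp.bddAbove_image hG'.norm.continuousOn)
  have hc : ∀ s, Continuous (G s) := fun s => hG.comp (by fun_prop : Continuous fun x => (s, x))
  have hc' : ∀ s, Continuous (G' s) := fun s => hG'.comp (by fun_prop : Continuous fun x => (s, x))
  refine (hasDerivAt_integral_of_dominated_loc_of_deriv_le (μ := μ) (F := G) (F' := G')
    (x₀ := t) (bound := fun _ => M) (Metric.closedBall_mem_nhds t one_pos)
    (Eventually.of_forall fun s => (hc s).aestronglyMeasurable) (integrable hμ (hc t))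
    (hc' t).aestronglyMeasurable ?_ (integrable_const M) ?_).2
  · filter_upwards [ae_ball hμ] with x hx s hs
    exact hM ⟨(s, x), ⟨hs, hx⟩, rfl⟩
  · exact Eventually.of_forall fun x s _ => hd s x

theorem int_zero (hμ : Law μ) {G G' : ℝ → C6 → ℝ}
    (hG : Continuous (fun p : ℝ × C6 => G p.1 p.2))
    (hG' : Continuous (fun p : ℝ × C6 => G' p.1 p.2))
    (hd : ∀ s x, HasDerivAt (fun r => G r x) (G' s x) s) {c : ℝ}
    (hc : ∀ s, ∫ x, G s x ∂μ = c) (t : ℝ) : ∫ x, G' t x ∂μ = 0 := by
  have h := hasDerivAt_int hμ hG hG' hd t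
  have h2 : HasDerivAt (fun s => ∫ x, G s x ∂μ) 0 t := by
    simp only [hc]
    exact hasDerivAt_const t c
  exact h.unique h2

theorem int_phase (hμ : Law μ) {h : C6 → ℝ} (hc : Continuous h) (θ : ℝ) :
    ∫ x, h (phase θ x) ∂μ = ∫ x, h x ∂μ := by
  conv_rhs => rw [← hμ.phase θ]
  rw [integral_map (cont_phase θ).measurable.aemeasurable hc.aestronglyMeasurable]

theorem int_rotm (hμ : Law μ) {i j : Fin 6} (hij : i ≠ j) {h : C6 → ℝ} (hc : Continuous h)
    (t : ℝ) : ∫ x, h (rotm i j t x) ∂μ = ∫ x, h x ∂μ := by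
  have hm : Continuous (rotm i j t) :=
    cont_rotm (X := C6) i j (t := fun _ => t) (x := fun x => x) continuous_const continuous_id
  conv_rhs => rw [← hμ.rot i j hij t]
  rw [integral_map hm.measurable.aemeasurable hc.aestronglyMeasurable]

end Pool.Agent.Cone5.FI
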