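import Pool.Agent.Work.MP_b0b133_an.D5.FId

/-!
# The integrations by parts
-/

set_option autoImplicit false
open MeasureTheory Complex Filter Topology
open scoped ENNReal ComplexConjugate

namespace Pool.Agent.Cone5.FI

open Alg (integrable norm_le_one ev_smul)

variable {μ : Measure C6} {δ : ℝ}

/-! ### Phase invariance of the integrands -/

theorem fr_mul {u : ℂ} (hu : normSq u = 1) (F : ℂ) : fr δ (u * F) = fr δ F := by
  unfold fr
  rw [dot_mul, hu, one_mul]

theorem i1p_mul {u : ℂ} (hu : normSq u = 1) (F e : ℂ) : i1p δ (u * F) (u * e) = i1p δ F e := by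
  unfold i1p
  rw [fr_mul hu, wed_mul, hu, one_mul]

theorem i3p_mul {u : ℂ} (hu : normSq u = 1) (F v b : ℂ) :
    i3p δ (u * F) (u * v) (u * b) = i3p δ F v b := by
  unfold i3p
  rw [fr_mul hu, wed_mul, wed_mul, dot_mul, dot_mul, hu]
  simp only [one_mul]

theorem ps0_mul {u : ℂ} (hu : normSq u = 1) (F H : ℂ) : ps0 δ (u * F) (u * H) = ps0 δ F H := by
  unfold ps0
  rw [fr_mul hu, dot_mul, dot_mul, hu, one_mul, one_mul]

theorem ps1_mul {u : ℂ} (hu : normSq u = 1) (F v : ℂ) : ps1 δ (u * F) (u * v) = ps1 δ F v := by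
  unfold ps1
  rw [fr_mul hu, dot_mul, dot_mul, wed_mul, hu, one_mul, one_mul, one_mul]

theorem normSq_unit (θ : ℝ) : normSq (cexp (-(2 * (θ * I)))) = 1 := by
  rw [normSq_eq_norm_sq]
  have : -(2 * ((θ : ℂ) * I)) = ((-(2 * θ) : ℝ) : ℂ) * I := by push_cast; ring
  rw [this, norm_exp_ofReal_mul_I]
  norm_num

/-! ### Curves -/

theorem evz_real (x : C6) (P : Poly) (t : ℝ) :
    HasDerivAt (fun s : ℝ => evz (s : ℂ) x P) (-(evz (t : ℂ) x (AP P))) t := by
  have h := evz_deriv 0 1 x P t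
  simpa using h

theorem evz_I (y : ℝ) (x : C6) (P : Poly) (t : ℝ) :
    HasDerivAt (fun s : ℝ => evz ((y : ℂ) + s * I) x P)
      (-(I * evz ((y : ℂ) + t * I) x (AP P))) t := evz_deriv y I x P t

theorem c_evz_y (P : Poly) : Continuous (fun p : ℝ × C6 => evz (p.1 : ℂ) p.2 P) :=
  cont_evz (by fun_prop) (by fun_prop) P

theorem c_evz_I (y : ℝ) (P : Poly) :
    Continuous (fun p : ℝ × C6 => evz ((y : ℂ) + p.1 * I) p.2 P) :=
  cont_evz (by fun_prop) (by fun_prop) P

theorem c_evz_x (z : ℂ) (P : Poly) : Continuous (fun x : C6 => evz z x P) :=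
  cont_evz (by fun_prop) (by fun_prop) P

theorem c_evz_rot (i j : Fin 6) (z : ℂ) (P : Poly) :
    Continuous (fun p : ℝ × C6 => evz z (rotm i j p.1 p.2) P) :=
  cont_evz (by fun_prop) (cont_rotm i j (by fun_prop) (by fun_prop)) P

theorem I1 (hμ : Law μ) (hδ : 0 < δ) (y : ℝ) (P : Poly) :
    ∫ x, i1 δ (evz y x P) (evz y x (AP P)) (evz y x (AP (AP P))) ∂μ = 0 := by
  have h := int_zero hμ (G := fun s x => i1p δ (evz ((y : ℂ) + s * I) x P)
      (evz ((y : ℂ) + s * I) x (AP P)))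
    (G' := fun s x => i1 δ (evz ((y : ℂ) + s * I) x P) (evz ((y : ℂ) + s * I) x (AP P))
      (evz ((y : ℂ) + s * I) x (AP (AP P))))
    (c_i1p (c_evz_I y _) (c_evz_I y _)) (c_i1 hδ (c_evz_I y _) (c_evz_I y _) (c_evz_I y _))
    (fun s x => i1_d hδ (evz_I y x P s) (evz_I y x (AP P) s))
    (c := ∫ x, i1p δ (evz y x P) (evz y x (AP P)) ∂μ)
    (fun s => by
      simp only [evz_phase, i1p_mul (normSq_unit s)]
      exact int_phase hμ (h := fun x => i1p δ (evz y x P) (evz y x (AP P)))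
        (c_i1p (c_evz_x _ _) (c_evz_x _ _)) (-s)) 0
  simpa using h

theorem I3z (hμ : Law μ) (hδ : 0 < δ) (y : ℝ) (P V : Poly) :
    ∫ x, i3 δ (evz y x P) (evz y x V) (evz y x (AP V)) (evz y x (AP P))
      (evz y x (AP (AP V))) ∂μ = 0 := by
  have h := int_zero hμ (G := fun s x => i3p δ (evz ((y : ℂ) + s * I) x P)
      (evz ((y : ℂ) + s * I) x V) (evz ((y : ℂ) + s * I) x (AP V)))
    (G' := fun s x => i3 δ (evz ((y : ℂ) + s * I) x P) (evz ((y : ℂ) + s * I) x V)
      (evz ((y : ℂ) + s * I) x (AP V)) (evz ((y : ℂ) + s * I) x (AP P))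
      (evz ((y : ℂ) + s * I) x (AP (AP V))))
    (c_i3p hδ (c_evz_I y _) (c_evz_I y _) (c_evz_I y _))
    (c_i3 hδ (c_evz_I y _) (c_evz_I y _) (c_evz_I y _) (c_evz_I y _) (c_evz_I y _))
    (fun s x => i3_d hδ (evz_I y x P s) (evz_I y x V s) (evz_I y x (AP V) s))
    (c := ∫ x, i3p δ (evz y x P) (evz y x V) (evz y x (AP V)) ∂μ)
    (fun s => by
      simp only [evz_phase, i3p_mul (normSq_unit s)]
      exact int_phase hμ (h := fun x => i3p δ (evz y x P) (evz y x V) (evz y x (AP V)))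
        (c_i3p hδ (c_evz_x _ _) (c_evz_x _ _) (c_evz_x _ _)) (-s)) 0
  simpa using h

theorem rotm_zero (i j : Fin 6) (x : C6) : rotm i j 0 x = x := by
  funext k
  unfold rotm
  split_ifs with h1 h2
  · subst h1; simp
  · subst h2; simp
  · rfl

theorem LP_self (i : Fin 6) (P : Poly) : LP i i P = 0 := by
  unfold LP
  ring

theorem LP_zero (i j : Fin 6) : LP i j 0 = 0 := by
  unfold LP
  simp

theorem evz_zeroP (z : ℂ) (x : C6) : evz z x 0 = 0 := by
  simp [evz, ev]

theorem I2 (hμ : Law μ) (hδ : 0 < δ) (z : ℂ) (i j : Fin 6) (P : Poly) :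
    ∫ x, i2 δ (evz z x P) (evz z x (LP i j P)) (evz z x (LP i j (LP i j P))) ∂μ = 0 := by
  rcases eq_or_ne i j with rfl | hij
  · simp [LP_self, evz_zeroP, i2, dot]
  have h := int_zero hμ (G := fun s x => i2p δ (evz z (rotm i j s x) P)
      (evz z (rotm i j s x) (LP i j P)))
    (G' := fun s x => i2 δ (evz z (rotm i j s x) P) (evz z (rotm i j s x) (LP i j P))
      (evz z (rotm i j s x) (LP i j (LP i j P))))
    (c_i2p (c_evz_rot i j z _) (c_evz_rot i j z _))
    (c_i2 hδ (c_evz_rot i j z _) (c_evz_rot i j z _) (c_evz_rot i j z _))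
    (fun s x => i2_d hδ (evz_rot hij z x P s) (evz_rot hij z x (LP i j P) s))
    (c := ∫ x, i2p δ (evz z x P) (evz z x (LP i j P)) ∂μ)
    (fun s => int_rotm hμ hij (h := fun x => i2p δ (evz z x P) (evz z x (LP i j P)))
        (c_i2p (c_evz_x _ _) (c_evz_x _ _)) s) 0
  simpa only [rotm_zero] using h

theorem I4z (hμ : Law μ) (hδ : 0 < δ) (z : ℂ) (i j : Fin 6) (P V E : Poly)
    (hV : i = j → V = 0) :
    ∫ x, i4 δ (evz z x P) (evz z x V) (evz z x E) (evz z x (LP i j P)) (evz z x (LP i j V))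
      (evz z x (LP i j E)) ∂μ = 0 := by
  rcases eq_or_ne i j with rfl | hij
  · simp [LP_self, evz_zeroP, i4, dot, wed, hV rfl]
  have h := int_zero hμ (G := fun s x => i4p δ (evz z (rotm i j s x) P)
      (evz z (rotm i j s x) V) (evz z (rotm i j s x) E))
    (G' := fun s x => i4 δ (evz z (rotm i j s x) P) (evz z (rotm i j s x) V)
      (evz z (rotm i j s x) E) (evz z (rotm i j s x) (LP i j P))
      (evz z (rotm i j s x) (LP i j V)) (evz z (rotm i j s x) (LP i j E)))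
    (c_i4p hδ (c_evz_rot i j z _) (c_evz_rot i j z _) (c_evz_rot i j z _))
    (c_i4 hδ (c_evz_rot i j z _) (c_evz_rot i j z _) (c_evz_rot i j z _) (c_evz_rot i j z _)
      (c_evz_rot i j z _) (c_evz_rot i j z _))
    (fun s x => i4_d hδ (evz_rot hij z x P s) (evz_rot hij z x V s) (evz_rot hij z x E s))
    (c := ∫ x, i4p δ (evz z x P) (evz z x V) (evz z x E) ∂μ)
    (fun s => int_rotm hμ hij (h := fun x => i4p δ (evz z x P) (evz z x V) (evz z x E))
        (c_i4p hδ (c_evz_x _ _) (c_evz_x _ _) (c_evz_x _ _)) s) 0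
  simpa only [rotm_zero] using h

/-- second phase derivative of `ps0` -/
theorem I5a (hμ : Law μ) (hδ : 0 < δ) (y : ℝ) (P R : Poly) :
    ∫ x, ps0dd δ (evz y x P) (evz y x R) (-(I * evz y x (AP P))) (-(I * evz y x (AP R)))
      (-(evz y x (AP (AP P)))) (-(evz y x (AP (AP R)))) ∂μ = 0 := by
  have h1 := fun t => int_zero hμ (G := fun s x => ps0 δ (evz ((y : ℂ) + s * I) x P)
      (evz ((y : ℂ) + s * I) x R))
    (G' := fun s x => ps0d δ (evz ((y : ℂ) + s * I) x P) (evz ((y : ℂ) + s * I) x R)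
      (-(I * evz ((y : ℂ) + s * I) x (AP P))) (-(I * evz ((y : ℂ) + s * I) x (AP R))))
    (c_ps0 (c_evz_I y _) (c_evz_I y _))
    (c_ps0d hδ (c_evz_I y _) (c_evz_I y _) (continuous_const.mul (c_evz_I y _)).neg
      (continuous_const.mul (c_evz_I y _)).neg)
    (fun s x => ps0_d1 hδ (evz_I y x P s) (evz_I y x R s))
    (c := ∫ x, ps0 δ (evz y x P) (evz y x R) ∂μ)
    (fun s => by
      simp only [evz_phase, ps0_mul (normSq_unit s)]
      exact int_phase hμ (h := fun x => ps0 δ (evz y x P) (evz y x R))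
        (c_ps0 (c_evz_x _ _) (c_evz_x _ _)) (-s)) t
  have hI : ∀ (x : C6) (Q : Poly) (t : ℝ),
      HasDerivAt (fun s : ℝ => -(I * evz ((y : ℂ) + s * I) x Q))
        (-(evz ((y : ℂ) + t * I) x (AP Q))) t := fun x Q t => by
    refine HasDerivAt.congr_deriv ((evz_I y x Q t).const_mul I).neg ?_
    linear_combination (evz ((y : ℂ) + t * I) x (AP Q)) * I_sq
  have h := int_zero hμ (G := fun s x => ps0d δ (evz ((y : ℂ) + s * I) x P)
      (evz ((y : ℂ) + s * I) x R)
      (-(I * evz ((y : ℂ) + s * I) x (AP P))) (-(I * evz ((y : ℂ) + s * I) x (AP R))))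
    (G' := fun s x => ps0dd δ (evz ((y : ℂ) + s * I) x P) (evz ((y : ℂ) + s * I) x R)
      (-(I * evz ((y : ℂ) + s * I) x (AP P))) (-(I * evz ((y : ℂ) + s * I) x (AP R)))
      (-(evz ((y : ℂ) + s * I) x (AP (AP P)))) (-(evz ((y : ℂ) + s * I) x (AP (AP R)))))
    (c_ps0d hδ (c_evz_I y _) (c_evz_I y _) (continuous_const.mul (c_evz_I y _)).neg
      (continuous_const.mul (c_evz_I y _)).neg)
    (c_ps0dd hδ (c_evz_I y _) (c_evz_I y _) (continuous_const.mul (c_evz_I y _)).neg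
      (continuous_const.mul (c_evz_I y _)).neg (c_evz_I y _).neg (c_evz_I y _).neg)
    (fun s x => ps0_d2 hδ (F' := fun s => -(I * evz ((y : ℂ) + s * I) x (AP P)))
      (H' := fun s => -(I * evz ((y : ℂ) + s * I) x (AP R)))
      (evz_I y x P s) (evz_I y x R s) (hI x (AP P) s) (hI x (AP R) s))
    h1 0
  simpa using h

/-- second phase derivative of `ps1` -/
theorem I5b (hμ : Law μ) (hδ : 0 < δ) (y : ℝ) (P R : Poly) :
    ∫ x, ps1dd δ (evz y x P) (evz y x R) (-(I * evz y x (AP P))) (-(I * evz y x (AP R)))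
      (-(evz y x (AP (AP P)))) (-(evz y x (AP (AP R)))) ∂μ = 0 := by
  have h1 := fun t => int_zero hμ (G := fun s x => ps1 δ (evz ((y : ℂ) + s * I) x P)
      (evz ((y : ℂ) + s * I) x R))
    (G' := fun s x => ps1d δ (evz ((y : ℂ) + s * I) x P) (evz ((y : ℂ) + s * I) x R)
      (-(I * evz ((y : ℂ) + s * I) x (AP P))) (-(I * evz ((y : ℂ) + s * I) x (AP R))))
    (c_ps1 hδ (c_evz_I y _) (c_evz_I y _))
    (c_ps1d hδ (c_evz_I y _) (c_evz_I y _) (continuous_const.mul (c_evz_I y _)).neg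
      (continuous_const.mul (c_evz_I y _)).neg)
    (fun s x => ps1_d1 hδ (evz_I y x P s) (evz_I y x R s))
    (c := ∫ x, ps1 δ (evz y x P) (evz y x R) ∂μ)
    (fun s => by
      simp only [evz_phase, ps1_mul (normSq_unit s)]
      exact int_phase hμ (h := fun x => ps1 δ (evz y x P) (evz y x R))
        (c_ps1 hδ (c_evz_x _ _) (c_evz_x _ _)) (-s)) t
  have hI : ∀ (x : C6) (Q : Poly) (t : ℝ),
      HasDerivAt (fun s : ℝ => -(I * evz ((y : ℂ) + s * I) x Q))
        (-(evz ((y : ℂ) + t * I) x (AP Q))) t := fun x Q t => by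
    refine HasDerivAt.congr_deriv ((evz_I y x Q t).const_mul I).neg ?_
    linear_combination (evz ((y : ℂ) + t * I) x (AP Q)) * I_sq
  have h := int_zero hμ (G := fun s x => ps1d δ (evz ((y : ℂ) + s * I) x P)
      (evz ((y : ℂ) + s * I) x R)
      (-(I * evz ((y : ℂ) + s * I) x (AP P))) (-(I * evz ((y : ℂ) + s * I) x (AP R))))
    (G' := fun s x => ps1dd δ (evz ((y : ℂ) + s * I) x P) (evz ((y : ℂ) + s * I) x R)
      (-(I * evz ((y : ℂ) + s * I) x (AP P))) (-(I * evz ((y : ℂ) + s * I) x (AP R)))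
      (-(evz ((y : ℂ) + s * I) x (AP (AP P)))) (-(evz ((y : ℂ) + s * I) x (AP (AP R)))))
    (c_ps1d hδ (c_evz_I y _) (c_evz_I y _) (continuous_const.mul (c_evz_I y _)).neg
      (continuous_const.mul (c_evz_I y _)).neg)
    (c_ps1dd hδ (c_evz_I y _) (c_evz_I y _) (continuous_const.mul (c_evz_I y _)).neg
      (continuous_const.mul (c_evz_I y _)).neg (c_evz_I y _).neg (c_evz_I y _).neg)
    (fun s x => ps1_d2 hδ (F' := fun s => -(I * evz ((y : ℂ) + s * I) x (AP P)))
      (H' := fun s => -(I * evz ((y : ℂ) + s * I) x (AP R)))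
      (evz_I y x P s) (evz_I y x R s) (hI x (AP P) s) (hI x (AP R) s))
    h1 0
  simpa using h

end Pool.Agent.Cone5.FI
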