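import Pool.Agent.Work.MP_b0b133_an.D5.FIe

/-!
# Convexity in the depth
-/

set_option autoImplicit false
open MeasureTheory Complex Filter Topology
open scoped ENNReal ComplexConjugate

namespace Pool.Agent.Cone5.FI

open Alg (integrable norm_le_one ev_smul ev_sub ev_sum AP_smul)

variable {μ : Measure C6} {δ : ℝ}

/-! ### Positivity of the total integrand -/

theorem dot_sum {ι : Type*} (s : Finset ι) (F : ℂ) (c : ι → ℂ) :
    dot F (∑ i ∈ s, c i) = ∑ i ∈ s, dot F (c i) := by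
  unfold dot
  rw [re_sum, im_sum, Finset.mul_sum, Finset.mul_sum, ← Finset.sum_add_distrib]

theorem wed_sum {ι : Type*} (s : Finset ι) (F : ℂ) (c : ι → ℂ) :
    wed F (∑ i ∈ s, c i) = ∑ i ∈ s, wed F (c i) := by
  unfold wed
  rw [re_sum, im_sum, Finset.mul_sum, Finset.mul_sum, ← Finset.sum_sub_distrib]

theorem dot_two (F a : ℂ) : dot F (2 * a) = 2 * dot F a := by
  unfold dot
  simp only [mul_re, mul_im, re_ofNat, im_ofNat]
  ring

theorem wed_two (F a : ℂ) : wed F (2 * a) = 2 * wed F a := by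
  unfold wed
  simp only [mul_re, mul_im, re_ofNat, im_ofNat]
  ring

theorem i2_split (F b c : ℂ) : i2 δ F b c =
    (fr δ F * dot b b + dot F b ^ 2 / fr δ F) + fr δ F * dot F c := by
  unfold i2
  ring

theorem i4_split (F v e b z w : ℂ) : i4 δ F v e b z w = i4 δ F v e b 0 w
    + (dot F z * dot F e - wed F z * wed F e) / fr δ F := by
  have h1 : dot F 0 = 0 := by simp [dot]
  have h2 : wed F 0 = 0 := by simp [wed]
  unfold i4
  rw [h1, h2]
  ring

theorem total_nonneg (hδ : 0 < δ) (F H e g : ℂ) (v b w c z : Fin 6 → Fin 6 → ℂ)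
    (hc : ∑ i, ∑ j, c i j = 2 * (4 * F - g)) (hz : ∑ i, ∑ j, z i j = 2 * (2 * H - e)) :
    0 ≤ ps0dd δ F H (-e) (-(2 * F)) g (2 * e)
      + ps0dd δ F H (-(I * e)) (-(I * (2 * F))) (-g) (-(2 * e)) + 36 / 25 * i1 δ F e g
      + 1 / 2 * ∑ i, ∑ j, (ps1dd δ F (v i j) (-e) (-(b i j)) g (w i j)
        + ps1dd δ F (v i j) (-(I * e)) (-(I * b i j)) (-g) (-(w i j))
        - 36 / 25 * i2 δ F (b i j) (c i j)
        + 49 / 40 * (i3 δ F (v i j) (b i j) e (w i j)
          - i4 δ F (v i j) e (b i j) (z i j) (w i j))) := by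
  have h0 := Q0_nonneg hδ F H e
  rw [← Q0_eq hδ F H e g] at h0
  have h1 : ∀ i j, 0 ≤ ps1dd δ F (v i j) (-e) (-(b i j)) g (w i j)
      + ps1dd δ F (v i j) (-(I * e)) (-(I * b i j)) (-g) (-(w i j))
      - 36 / 25 * (fr δ F * dot (b i j) (b i j) + dot F (b i j) ^ 2 / fr δ F)
      + 49 / 40 * (i3 δ F (v i j) (b i j) e (w i j) - i4 δ F (v i j) e (b i j) 0 (w i j)) :=
    fun i j => by
      rw [Q1_eq hδ F (v i j) e (b i j) g (w i j)]
      exact Q1_nonneg hδ F (v i j) e (b i j)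
  have h2 : ∑ i, ∑ j, (ps1dd δ F (v i j) (-e) (-(b i j)) g (w i j)
        + ps1dd δ F (v i j) (-(I * e)) (-(I * b i j)) (-g) (-(w i j))
        - 36 / 25 * i2 δ F (b i j) (c i j)
        + 49 / 40 * (i3 δ F (v i j) (b i j) e (w i j)
          - i4 δ F (v i j) e (b i j) (z i j) (w i j))) =
      ∑ i, ∑ j, (ps1dd δ F (v i j) (-e) (-(b i j)) g (w i j)
      + ps1dd δ F (v i j) (-(I * e)) (-(I * b i j)) (-g) (-(w i j))
      - 36 / 25 * (fr δ F * dot (b i j) (b i j) + dot F (b i j) ^ 2 / fr δ F)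
      + 49 / 40 * (i3 δ F (v i j) (b i j) e (w i j) - i4 δ F (v i j) e (b i j) 0 (w i j)))
      - 36 / 25 * fr δ F * ∑ i, ∑ j, dot F (c i j)
      - 49 / 40 * (((∑ i, ∑ j, dot F (z i j)) * dot F e
        - (∑ i, ∑ j, wed F (z i j)) * wed F e) / fr δ F) := by
    simp only [Finset.mul_sum, Finset.sum_mul, Finset.sum_div, ← Finset.sum_sub_distrib]
    refine Finset.sum_congr rfl fun i _ => Finset.sum_congr rfl fun j _ => ?_
    rw [i2_split, i4_split F (v i j) e (b i j) (z i j) (w i j)]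
    ring
  have h3 : ∑ i, ∑ j, dot F (c i j) = 2 * dot F (4 * F - g) := by
    rw [← dot_two, ← hc, dot_sum]
    exact Finset.sum_congr rfl fun i _ => (dot_sum _ _ _).symm
  have h4 : ∑ i, ∑ j, dot F (z i j) = 2 * dot F (2 * H - e) := by
    rw [← dot_two, ← hz, dot_sum]
    exact Finset.sum_congr rfl fun i _ => (dot_sum _ _ _).symm
  have h5 : ∑ i, ∑ j, wed F (z i j) = 2 * wed F (2 * H - e) := by
    rw [← wed_two, ← hz, wed_sum]
    exact Finset.sum_congr rfl fun i _ => (wed_sum _ _ _).symm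
  have h6 := Finset.sum_nonneg fun (i : Fin 6) (_ : i ∈ Finset.univ) =>
    Finset.sum_nonneg fun (j : Fin 6) (_ : j ∈ Finset.univ) => h1 i j
  rw [h2, h3, h4, h5]
  generalize (∑ i, ∑ j, (ps1dd δ F (v i j) (-e) (-(b i j)) g (w i j)
      + ps1dd δ F (v i j) (-(I * e)) (-(I * b i j)) (-g) (-(w i j))
      - 36 / 25 * (fr δ F * dot (b i j) (b i j) + dot F (b i j) ^ 2 / fr δ F)
      + 49 / 40 * (i3 δ F (v i j) (b i j) e (w i j) - i4 δ F (v i j) e (b i j) 0 (w i j)))) = S
    at *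
  have h7 : (2 * dot F (2 * H - e) * dot F e - 2 * wed F (2 * H - e) * wed F e) / fr δ F =
      2 * ((dot F (2 * H - e) * dot F e - wed F (2 * H - e) * wed F e) / fr δ F) := by ring
  rw [h7]
  linarith

/-! ### Functions with vanishing integral -/

/-- continuous with integral zero -/
def Zr (μ : Measure C6) (f : C6 → ℝ) : Prop := Continuous f ∧ ∫ x, f x ∂μ = 0

theorem Zr.add (hμ : Law μ) {f g : C6 → ℝ} (hf : Zr μ f) (hg : Zr μ g) :
    Zr μ (fun x => f x + g x) :=
  ⟨hf.1.add hg.1, by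
    rw [integral_add (integrable hμ hf.1) (integrable hμ hg.1), hf.2, hg.2, add_zero]⟩

theorem Zr.mul {f : C6 → ℝ} (c : ℝ) (hf : Zr μ f) : Zr μ (fun x => c * f x) :=
  ⟨continuous_const.mul hf.1, by rw [integral_const_mul, hf.2, mul_zero]⟩

theorem Zr.sub (hμ : Law μ) {f g : C6 → ℝ} (hf : Zr μ f) (hg : Zr μ g) :
    Zr μ (fun x => f x - g x) :=
  ⟨hf.1.sub hg.1, by
    rw [integral_sub (integrable hμ hf.1) (integrable hμ hg.1), hf.2, hg.2, sub_zero]⟩

theorem Zr.sum (hμ : Law μ) {f : Fin 6 → C6 → ℝ} (hf : ∀ i, Zr μ (f i)) :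
    Zr μ (fun x => ∑ i, f i x) :=
  ⟨continuous_finsetSum _ fun i _ => (hf i).1, by
    rw [integral_finsetSum _ fun i _ => integrable hμ (hf i).1]
    exact Finset.sum_eq_zero fun i _ => (hf i).2⟩

/-! ### An abstract convexity lemma -/

theorem le_of_convex {Φ Φ' Φ'' : ℝ → ℝ} (h1 : ∀ y, HasDerivAt Φ (Φ' y) y)
    (h2 : ∀ y, HasDerivAt Φ' (Φ'' y) y) (h3 : ∀ y, 0 ≤ Φ'' y) {L : ℝ}
    (hL : Tendsto Φ atTop (𝓝 L)) : L ≤ Φ 0 := by
  have hmono : Monotone Φ' :=
    monotone_of_deriv_nonneg (fun y => (h2 y).differentiableAt) fun y => by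
      rw [(h2 y).deriv]; exact h3 y
  have hneg : ∀ y, Φ' y ≤ 0 := by
    intro y₀
    by_contra hc
    push Not at hc
    have h4 : ∀ y, y₀ ≤ y → Φ y₀ + Φ' y₀ * (y - y₀) ≤ Φ y := by
      intro y hy
      have hm : MonotoneOn (fun y => Φ y - Φ' y₀ * y) (Set.Ici y₀) := by
        apply monotoneOn_of_deriv_nonneg (convex_Ici y₀)
        · exact fun y _ => (((h1 y).continuousAt).sub (by fun_prop)).continuousWithinAt
        · exact fun y _ => (((h1 y).differentiableAt).sub (by fun_prop)).differentiableWithinAt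
        · intro y hy
          rw [interior_Ici] at hy
          have h5 : HasDerivAt (fun y => Φ y - Φ' y₀ * y) (Φ' y - Φ' y₀) y := by
            refine HasDerivAt.congr_deriv ((h1 y).sub ((hasDerivAt_id y).const_mul (Φ' y₀))) ?_
            ring
          rw [h5.deriv]
          have := hmono hy.le
          linarith
      have := hm (Set.self_mem_Ici) hy hy
      simp only at this
      linarith
    have h5 : Tendsto (fun y => Φ y₀ + Φ' y₀ * (y - y₀)) atTop atTop := by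
      apply tendsto_atTop_add_const_left
      apply Tendsto.const_mul_atTop hc
      exact tendsto_atTop_add_const_right _ _ tendsto_id
    have h6 : Tendsto Φ atTop atTop :=
      tendsto_atTop_mono' _ ((eventually_ge_atTop y₀).mono h4) h5
    exact not_tendsto_nhds_of_tendsto_atTop h6 L hL
  have hanti : Antitone Φ :=
    antitone_of_deriv_nonpos (fun y => (h1 y).differentiableAt) fun y => by
      rw [(h1 y).deriv]; exact hneg y
  exact le_of_tendsto hL ((eventually_ge_atTop 0).mono fun y hy => hanti hy)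

end Pool.Agent.Cone5.FI
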