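import Pool.Agent.Work.MP_b0b133_an.D5.Defs

/-!
# The polynomial world

`μ` is the law of the point `X = e^{-iT} ω` of the compactification on `ℂ⁶`; waves are harmonic
polynomials evaluated at `X`. Everything is parametrised by `ψ ∈ HP`: `F = A ψ`, `H = 2 ψ`,
`v_ij = L_ij ψ`, with `A = N + 2`, `N` the Euler operator.
-/

set_option autoImplicit false
open MeasureTheory Complex
open scoped ENNReal ComplexConjugate

namespace Pool.Agent.Cone5

abbrev Poly := MvPolynomial (Fin 6) ℂ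

abbrev C6 := Fin 6 → ℂ

/-- the value of a polynomial -/
noncomputable def ev (P : Poly) (x : C6) : ℂ := MvPolynomial.eval x P

/-- harmonic polynomials, not necessarily homogeneous -/
noncomputable def HP : Submodule ℂ Poly where
  carrier := {P | ∑ j, MvPolynomial.pderiv j (MvPolynomial.pderiv j P) = 0}
  add_mem' := by
    rintro P Q h2 h4
    change _ = _ at h2 h4; change _ = _
    simp only [map_add, Finset.sum_add_distrib, h2, h4, add_zero]
  zero_mem' := by simp
  smul_mem' := by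
    rintro c P h2
    change _ = _ at h2; change _ = _
    have : ∀ j : Fin 6, MvPolynomial.pderiv j (MvPolynomial.pderiv j (c • P)) =
        c • MvPolynomial.pderiv j (MvPolynomial.pderiv j P) := fun j => by
      rw [Derivation.map_smul, Derivation.map_smul]
    rw [Finset.sum_congr rfl fun j _ => this j, ← Finset.smul_sum, h2, smul_zero]

/-- the Euler operator -/
noncomputable def NP (P : Poly) : Poly := ∑ j, MvPolynomial.X j * MvPolynomial.pderiv j P

/-- `A = N + 2` -/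
noncomputable def AP (P : Poly) : Poly := NP P + (2 : ℂ) • P

/-- `∑ X_j²` -/
noncomputable def sqP : Poly := ∑ j, MvPolynomial.X j ^ 2

/-- the raising operators: `R_j ψ = 2 X_j A ψ - (∑ X²) ∂_j ψ` -/
noncomputable def RP (j : Fin 6) (P : Poly) : Poly :=
  (2 : ℂ) • (MvPolynomial.X j * AP P) - sqP * MvPolynomial.pderiv j P

/-- the rotation fields -/
noncomputable def LP (i j : Fin 6) (P : Poly) : Poly :=
  MvPolynomial.X i * MvPolynomial.pderiv j P - MvPolynomial.X j * MvPolynomial.pderiv i P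

/-- the rotation by the angle `t` in the plane of the coordinates `i`, `j` -/
noncomputable def rotm (i j : Fin 6) (t : ℝ) (x : C6) : C6 := fun k =>
  if k = i then (Real.cos t : ℂ) * x i - (Real.sin t : ℂ) * x j
  else if k = j then (Real.sin t : ℂ) * x i + (Real.cos t : ℂ) * x j
  else x k

/-- the multiplication by the phase `e^{iθ}` -/
noncomputable def phase (θ : ℝ) (x : C6) : C6 := fun k => cexp (θ * I) * x k

/-- what is used about the law of `X` -/
structure Law (μ : Measure C6) : Prop where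
  prob : IsProbabilityMeasure μ
  supp : ∀ᵐ x ∂μ, ∑ j, ‖x j‖ ^ 2 = 1 ∧ ∀ j, (∑ k, x k ^ 2) * conj (x j) = x j
  phase : ∀ θ : ℝ, Measure.map (phase θ) μ = μ
  rot : ∀ i j : Fin 6, i ≠ j → ∀ t : ℝ, Measure.map (rotm i j t) μ = μ

/-- the inner product of the energy, `(1/2) Re ⟨P, A Q⟩` -/
noncomputable def EB (μ : Measure C6) (P Q : Poly) : ℝ :=
  1 / 2 * (∫ x, conj (ev P x) * ev (AP Q) x ∂μ).re

/-- the energy -/
noncomputable def En (μ : Measure C6) (P : Poly) : ℝ := EB μ P P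

/-- `∫ |F|³` -/
noncomputable def I3 (μ : Measure C6) (P : Poly) : ℝ := ∫ x, ‖ev P x‖ ^ 3 ∂μ

/-- `|H|² + |v|²`, where `F = A ψ`, `H = 2 ψ`, `v_ij = L_ij ψ` -/
noncomputable def G2 (ψ : Poly) (x : C6) : ℝ :=
  ‖2 * ev ψ x‖ ^ 2 + 1 / 2 * ∑ i, ∑ j, ‖ev (LP i j ψ) x‖ ^ 2

/-- what is used about the conformal group: finiteness of the constant, centred near maximisers,
near maximisers in a frame of almost maximal overlap with the constants -/
structure Conf (μ : Measure C6) : Prop where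
  fin : ∃ C : ℝ, ∀ P ∈ HP, I3 μ P ≤ C * En μ P ^ (3 / 2 : ℝ)
  cent : ∀ P ∈ HP, En μ P = 1 → ∀ ε > 0, ∃ Q ∈ HP, En μ Q = 1 ∧ I3 μ P - ε ≤ I3 μ Q ∧
    ∀ j, ‖∫ x, x j * ((‖ev Q x‖ ^ 3 : ℝ) : ℂ) ∂μ‖ ≤ ε
  ovl : ∀ P ∈ HP, En μ P = 1 → ∀ ε > 0, ∃ Q ∈ HP, En μ Q = 1 ∧ I3 μ P - ε ≤ I3 μ Q ∧
    ‖ev P 0‖ - ε ≤ ‖ev Q 0‖ ∧ ∫ x, ‖ev (MvPolynomial.homogeneousComponent 1 Q) x‖ ^ 2 ∂μ ≤ ε

end Pool.Agent.Cone5
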