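import Pool.Agent.Work.MP_b0b133_an.G.Glue
import Pool.Agent.Work.MP_b0b133_an.D5.P0

/-!
# The generic frame at `d = 5`
-/

set_option autoImplicit false
open MeasureTheory Complex
open scoped ENNReal ComplexConjugate

namespace Pool.Agent.Cone5

instance fact_five : Fact (2 ≤ 5) := ⟨by norm_num⟩

theorem nu_five : ConeG.nu 5 = 2 := by
  unfold ConeG.nu
  norm_num

theorem pe_five : ConeG.pe 5 = 3 := by
  unfold ConeG.pe
  norm_num

/-- the law of `X` in dimension five -/
noncomputable def muX : Measure C6 := ConeG.muX 5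

theorem ev_five (P : Poly) (x : C6) : ConeG.ev (d := 5) P x = ev P x := rfl

theorem HP_five (P : Poly) : P ∈ ConeG.HP 5 ↔ P ∈ HP := Iff.rfl

theorem AP_five (P : Poly) : ConeG.AP (d := 5) P = AP P := by
  unfold ConeG.AP AP
  rw [nu_five]
  simp only [Complex.ofReal_ofNat]
  rfl

theorem En_five (μ : Measure C6) (P : Poly) : ConeG.En (d := 5) μ P = En μ P := by
  unfold ConeG.En En ConeG.EB EB
  rw [nu_five, AP_five, ← one_div]
  rfl

theorem Ip_five (μ : Measure C6) (P : Poly) : ConeG.Ip (d := 5) μ P = I3 μ P := by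
  unfold ConeG.Ip I3
  rw [pe_five]
  simp only [Real.rpow_ofNat]
  rfl

theorem law_muX : Law muX where
  prob := (ConeG.law_muX (d := 5)).prob
  supp := (ConeG.law_muX (d := 5)).supp
  phase := (ConeG.law_muX (d := 5)).phase
  rot := (ConeG.law_muX (d := 5)).rot

theorem conf_muX (hov : ConeG.NearOvl 5) : Conf muX where
  fin := by
    obtain ⟨C, hC⟩ := (ConeG.conf_of_ovl hov).fin
    refine ⟨C, fun P hP => ?_⟩
    have h := hC P hP
    rw [pe_five] at h
    have h1 := Ip_five muX P
    have h2 := En_five muX P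
    unfold muX at h1 h2 ⊢
    rw [← h1, ← h2]
    exact h
  cent := by
    intro P hP hE ε hε
    have h2 := En_five muX P
    obtain ⟨Q, hQ, hQE, e1, e2⟩ := (ConeG.conf_of_ovl hov).cent P hP (h2.trans hE) ε hε
    refine ⟨Q, hQ, (En_five muX Q).symm.trans hQE, ?_, fun j => ?_⟩
    · rw [← Ip_five, ← Ip_five]
      exact e1
    · have e3 := e2 j
      rw [pe_five] at e3
      simp only [Real.rpow_ofNat] at e3
      exact e3
  ovl := by
    intro P hP hE ε hε
    have h2 := En_five muX P
    obtain ⟨Q, hQ, hQE, e1, e2, e3⟩ := (ConeG.conf_of_ovl hov).ovl P hP (h2.trans hE) ε hε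
    refine ⟨Q, hQ, (En_five muX Q).symm.trans hQE, ?_, e2, e3⟩
    rw [← Ip_five, ← Ip_five]
    exact e1

/-- the sharp inequality in dimension five follows from the one on polynomials -/
theorem sharp_of_poly (h : ∀ P ∈ HP, I3 muX P ≤ En muX P ^ (3 / 2 : ℝ)) : ConeG.Sharp 5 := by
  refine ConeG.sharp_of_poly fun P hP => ?_
  have h1 := h P hP
  rw [← Ip_five, ← En_five] at h1
  rw [pe_five]
  exact h1

end Pool.Agent.Cone5
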