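import Mathlib

set_option autoImplicit false

open Complex MeasureTheory
open scoped ComplexConjugate

namespace Pool.Agent.Cone5.SV

/-- `q3 F K` : the pointwise second variation density of `(1/3)‖F‖^3` in the direction `K`. -/
noncomputable def q3 (F K : ℂ) : ℝ := ‖F‖ * ‖K‖ ^ 2 + ((conj F * K).re) ^ 2 / ‖F‖

theorem normsq_add (F K : ℂ) : ‖F + K‖ ^ 2 = ‖F‖ ^ 2 + ‖K‖ ^ 2 + 2 * (conj F * K).re := by
  rw [Complex.sq_norm, Complex.sq_norm, Complex.sq_norm, Complex.normSq_apply,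
    Complex.normSq_apply, Complex.normSq_apply]
  simp
  ring

theorem normsq_sub (F K : ℂ) : ‖F - K‖ ^ 2 = ‖F‖ ^ 2 + ‖K‖ ^ 2 - 2 * (conj F * K).re := by
  have h := normsq_add F (-K)
  rw [← sub_eq_add_neg] at h
  rw [h]
  simp
  ring

/-- exact second order lower bound, no remainder -/
theorem cube_two_sided (F K : ℂ) :
    2 * ‖F‖ ^ 3 + 3 * q3 F K ≤ ‖F + K‖ ^ 3 + ‖F - K‖ ^ 3 := by
  unfold q3
  have h1 := normsq_add F K
  have h2 := normsq_sub F K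
  set a := ‖F‖ with ha
  set m := ‖K‖ ^ 2 with hm
  set r := (conj F * K).re with hr
  set α := ‖F + K‖ with hα
  set β := ‖F - K‖ with hβ
  have ha0 : 0 ≤ a := norm_nonneg _
  have hα0 : 0 ≤ α := norm_nonneg _
  have hβ0 : 0 ≤ β := norm_nonneg _
  rcases ha0.eq_or_lt with h0 | h0
  · rw [← h0]
    simp
    positivity
  · have hs : 2 * a ≤ α + β := by
      have : ‖(F + K) + (F - K)‖ ≤ ‖F + K‖ + ‖F - K‖ := norm_add_le _ _
      have e : (F + K) + (F - K) = 2 * F := by ring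
      rw [e, norm_mul] at this
      simpa using this
    have hd : (α - β) ^ 2 ≤ 4 * a ^ 2 := by
      have e : 2 * F = (F + K) + (F - K) := by ring
      have h3 : ‖F + K‖ ≤ ‖(2 : ℂ) * F‖ + ‖F - K‖ := by
        have : F + K = 2 * F - (F - K) := by ring
        calc ‖F + K‖ = ‖2 * F - (F - K)‖ := by rw [← this]
          _ ≤ _ := norm_sub_le _ _
      have h4 : ‖F - K‖ ≤ ‖(2 : ℂ) * F‖ + ‖F + K‖ := by
        have : F - K = 2 * F - (F + K) := by ring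
        calc ‖F - K‖ = ‖2 * F - (F + K)‖ := by rw [← this]
          _ ≤ _ := norm_sub_le _ _
      rw [norm_mul] at h3 h4
      have e2 : ‖(2 : ℂ)‖ = 2 := by simp
      rw [e2] at h3 h4
      have h5 : α - β ≤ 2 * a := by linarith
      have h6 : -(2 * a) ≤ α - β := by linarith
      nlinarith
    have key : 16 * a * (α ^ 3 + β ^ 3) - (32 * a ^ 4 + 48 * a ^ 2 * m + 48 * r ^ 2)
        = (α + β - 2 * a) ^ 2 * (4 * a * (α + β + a) - 3 * (α - β) ^ 2) := by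
      have hm' : m = (α ^ 2 + β ^ 2) / 2 - a ^ 2 := by linarith
      have hr' : r = (α ^ 2 - β ^ 2) / 4 := by linarith
      rw [hm', hr']
      ring
    have h7 : 0 ≤ (α + β - 2 * a) ^ 2 * (4 * a * (α + β + a) - 3 * (α - β) ^ 2) := by
      apply mul_nonneg (sq_nonneg _)
      nlinarith
    have h8 : 2 * a ^ 3 + 3 * (a * m + r ^ 2 / a) = (32 * a ^ 4 + 48 * a ^ 2 * m + 48 * r ^ 2) / (16 * a) := by
      field_simp
      ring
    rw [h8, div_le_iff₀ (by positivity)]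
    nlinarith

/-- convexity of the cube of the norm -/
theorem cube_convex (F K : ℂ) :
    ‖F‖ ^ 3 + 3 * (‖F‖ * (conj F * K).re) ≤ ‖F + K‖ ^ 3 := by
  have h1 : ‖F‖ ^ 2 + (conj F * K).re ≤ ‖F‖ * ‖F + K‖ := by
    have h : (conj F * (F + K)).re ≤ ‖conj F * (F + K)‖ := Complex.re_le_norm _
    rw [norm_mul, Complex.norm_conj] at h
    have e : (conj F * (F + K)).re = ‖F‖ ^ 2 + (conj F * K).re := by
      rw [mul_add, Complex.add_re, ← Complex.normSq_eq_conj_mul_self, Complex.ofReal_re,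
        Complex.normSq_eq_norm_sq]
    linarith
  set a := ‖F‖
  set α := ‖F + K‖
  have ha0 : 0 ≤ a := norm_nonneg _
  have hα0 : 0 ≤ α := norm_nonneg _
  have h2 : 0 ≤ (α - a) ^ 2 * (α + 2 * a) := by positivity
  nlinarith [mul_le_mul_of_nonneg_left h1 ha0]

/-- Taylor bound for `w^3` in terms of `X = w^2 - 1` -/
theorem cube_taylor {w : ℝ} (hw : 0 ≤ w) :
    w ^ 3 ≤ 1 + 3 / 2 * (w ^ 2 - 1) + 3 / 8 * (w ^ 2 - 1) ^ 2 + 1 / 2 * |w ^ 2 - 1| ^ 3 := by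
  rcases le_total 1 w with h | h
  · have h1 : 0 ≤ |w ^ 2 - 1| ^ 3 := by positivity
    have h2 : 0 ≤ (w - 1) ^ 3 * (1 / 2 + 3 / 8 * (w - 1)) := by
      have : 0 ≤ w - 1 := by linarith
      positivity
    nlinarith
  · have h1 : |w ^ 2 - 1| = 1 - w ^ 2 := by
      rw [abs_of_nonpos (by nlinarith)]; ring
    rw [h1]
    have h2 : 0 ≤ (1 - w) ^ 3 * ((1 + w) ^ 3 / 2 - (1 / 2 - 3 / 8 * (1 - w))) := by
      apply mul_nonneg
      · have : 0 ≤ 1 - w := by linarith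
        positivity
      · nlinarith [mul_nonneg hw hw, mul_nonneg (mul_nonneg hw hw) hw]
    nlinarith

theorem q3_smul (F K : ℂ) (t : ℝ) : q3 F ((t : ℂ) * K) = t ^ 2 * q3 F K := by
  unfold q3
  have e : (conj F * ((t : ℂ) * K)).re = t * (conj F * K).re := by
    rw [show conj F * ((t : ℂ) * K) = (t : ℂ) * (conj F * K) by ring, Complex.re_ofReal_mul]
  rw [e, norm_mul, Complex.norm_real, mul_pow, Real.norm_eq_abs, sq_abs]
  ring

theorem q3_nonneg (F K : ℂ) : 0 ≤ q3 F K := by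
  unfold q3
  positivity

theorem re_conj_mul_le (F K : ℂ) : |(conj F * K).re| ≤ ‖F‖ * ‖K‖ := by
  have h := Complex.abs_re_le_norm (conj F * K)
  rwa [norm_mul, Complex.norm_conj] at h

theorem q3_le (F K : ℂ) : q3 F K ≤ 2 * (‖F‖ * ‖K‖ ^ 2) := by
  unfold q3
  have h := re_conj_mul_le F K
  have h2 : ((conj F * K).re) ^ 2 ≤ (‖F‖ * ‖K‖) ^ 2 := by
    rw [← sq_abs]
    exact pow_le_pow_left₀ (abs_nonneg _) h 2
  rcases (norm_nonneg F).eq_or_lt with h0 | h0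
  · rw [← h0]; simp
  · have h3 : ((conj F * K).re) ^ 2 / ‖F‖ ≤ ‖F‖ * ‖K‖ ^ 2 := by
      rw [div_le_iff₀ h0]
      nlinarith
    linarith

section Var

variable {Ω : Type*} [MeasurableSpace Ω] {μ : Measure Ω} [IsProbabilityMeasure μ]
variable {F K : Ω → ℂ} {A B : ℝ}

omit [IsProbabilityMeasure μ] in
theorem aesm_q3 (hF : AEMeasurable F μ) (hK : AEMeasurable K μ) :
    AEStronglyMeasurable (fun ω => q3 (F ω) (K ω)) μ := by
  unfold q3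
  have h1 : AEMeasurable (fun ω => (conj (F ω) * K ω).re) μ :=
    Complex.measurable_re.comp_aemeasurable
      ((Complex.continuous_conj.measurable.comp_aemeasurable hF).mul hK)
  exact ((hF.norm.mul (hK.norm.pow_const 2)).add ((h1.pow_const 2).div hF.norm)).aestronglyMeasurable

theorem integrable_q3 (hF : AEMeasurable F μ) (hK : AEMeasurable K μ)
    (hA : ∀ᵐ ω ∂μ, ‖F ω‖ ≤ A) (hB : ∀ᵐ ω ∂μ, ‖K ω‖ ≤ B) :
    Integrable (fun ω => q3 (F ω) (K ω)) μ := by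
  refine Integrable.of_bound (aesm_q3 hF hK) (2 * (A * B ^ 2)) ?_
  filter_upwards [hA, hB] with ω h1 h2
  rw [Real.norm_eq_abs, abs_of_nonneg (q3_nonneg _ _)]
  refine (q3_le _ _).trans ?_
  have : ‖K ω‖ ^ 2 ≤ B ^ 2 := pow_le_pow_left₀ (norm_nonneg _) h2 2
  have h3 : 0 ≤ A := (norm_nonneg _).trans h1
  have := mul_le_mul h1 this (by positivity) h3
  linarith

theorem integrable_cube (hF : AEMeasurable F μ) (hA : ∀ᵐ ω ∂μ, ‖F ω‖ ≤ A) :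
    Integrable (fun ω => ‖F ω‖ ^ 3) μ := by
  refine Integrable.of_bound (hF.norm.pow_const 3).aestronglyMeasurable (A ^ 3) ?_
  filter_upwards [hA] with ω h1
  rw [Real.norm_eq_abs, abs_of_nonneg (by positivity)]
  exact pow_le_pow_left₀ (norm_nonneg _) h1 3

theorem integrable_lin (hF : AEMeasurable F μ) (hK : AEMeasurable K μ)
    (hA : ∀ᵐ ω ∂μ, ‖F ω‖ ≤ A) (hB : ∀ᵐ ω ∂μ, ‖K ω‖ ≤ B) :
    Integrable (fun ω => ‖F ω‖ * (conj (F ω) * K ω).re) μ := by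
  have h1 : AEMeasurable (fun ω => (conj (F ω) * K ω).re) μ :=
    Complex.measurable_re.comp_aemeasurable
      ((Complex.continuous_conj.measurable.comp_aemeasurable hF).mul hK)
  refine Integrable.of_bound (hF.norm.mul h1).aestronglyMeasurable (A * (A * B)) ?_
  filter_upwards [hA, hB] with ω h2 h3
  rw [Real.norm_eq_abs, abs_mul, abs_norm]
  have h4 := re_conj_mul_le (F ω) (K ω)
  have h0 : 0 ≤ A := (norm_nonneg _).trans h2
  have h5 : ‖F ω‖ * ‖K ω‖ ≤ A * B := mul_le_mul h2 h3 (norm_nonneg _) h0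
  exact mul_le_mul h2 (h4.trans h5) (abs_nonneg _) h0

omit [IsProbabilityMeasure μ] in
theorem ae_bd_add (t : ℝ) (hA : ∀ᵐ ω ∂μ, ‖F ω‖ ≤ A) (hB : ∀ᵐ ω ∂μ, ‖K ω‖ ≤ B) :
    ∀ᵐ ω ∂μ, ‖F ω + (t : ℂ) * K ω‖ ≤ A + |t| * B := by
  filter_upwards [hA, hB] with ω h1 h2
  refine (norm_add_le _ _).trans ?_
  rw [norm_mul, Complex.norm_real, Real.norm_eq_abs]
  have := mul_le_mul_of_nonneg_left h2 (abs_nonneg t)
  linarith

omit [IsProbabilityMeasure μ] in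
theorem aem_add (t : ℝ) (hF : AEMeasurable F μ) (hK : AEMeasurable K μ) :
    AEMeasurable (fun ω => F ω + (t : ℂ) * K ω) μ :=
  hF.add (hK.const_mul _)

/-- first variation with explicit error -/
theorem first_var_one (hF : AEMeasurable F μ) (hK : AEMeasurable K μ)
    (hA : ∀ᵐ ω ∂μ, ‖F ω‖ ≤ A) (hB : ∀ᵐ ω ∂μ, ‖K ω‖ ≤ B)
    {S ε c e M t : ℝ} (hS : 0 ≤ S) (ht1 : |t| ≤ 1) (he : 0 ≤ e) (heM : e ≤ M) (hcM : |c| ≤ M)
    (hpos : ∀ s : ℝ, 0 ≤ 1 + 2 * s * c + s ^ 2 * e)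
    (hsup : ∀ s : ℝ, ∫ ω, ‖F ω + (s : ℂ) * K ω‖ ^ 3 ∂μ ≤
      S * (Real.sqrt (1 + 2 * s * c + s ^ 2 * e)) ^ 3)
    (hnear : S - ε ≤ ∫ ω, ‖F ω‖ ^ 3 ∂μ) :
    3 * t * ((∫ ω, ‖F ω‖ * (conj (F ω) * K ω).re ∂μ) - S * c) ≤
      ε + S * (2 * M + 4 * M ^ 2 + 14 * M ^ 3) * t ^ 2 := by
  have h1 : (∫ ω, ‖F ω‖ ^ 3 ∂μ) + 3 * t * (∫ ω, ‖F ω‖ * (conj (F ω) * K ω).re ∂μ) ≤
      ∫ ω, ‖F ω + (t : ℂ) * K ω‖ ^ 3 ∂μ := by
    rw [← integral_const_mul, ← integral_add (integrable_cube hF hA)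
      ((integrable_lin hF hK hA hB).const_mul _)]
    refine integral_mono ((integrable_cube hF hA).add ((integrable_lin hF hK hA hB).const_mul _))
      (integrable_cube (aem_add t hF hK) (ae_bd_add t hA hB)) ?_
    intro ω
    have h := cube_convex (F ω) ((t : ℂ) * K ω)
    have e : (conj (F ω) * ((t : ℂ) * K ω)).re = t * (conj (F ω) * K ω).re := by
      rw [show conj (F ω) * ((t : ℂ) * K ω) = (t : ℂ) * (conj (F ω) * K ω) by ring,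
        Complex.re_ofReal_mul]
    rw [e] at h
    simp only
    linarith
  have h2 := hsup t
  have hM : 0 ≤ M := he.trans heM
  set w := Real.sqrt (1 + 2 * t * c + t ^ 2 * e) with hw
  have hw0 : 0 ≤ w := Real.sqrt_nonneg _
  have hw2 : w ^ 2 = 1 + 2 * t * c + t ^ 2 * e := Real.sq_sqrt (hpos t)
  have h3 := cube_taylor hw0
  have hX : w ^ 2 - 1 = 2 * t * c + t ^ 2 * e := by rw [hw2]; ring
  rw [hX] at h3
  have habs : |2 * t * c + t ^ 2 * e| ≤ 3 * |t| * M := by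
    have a1 : |2 * t * c| ≤ 2 * |t| * M := by
      rw [abs_mul, abs_mul]
      simp only [Nat.abs_ofNat]
      exact mul_le_mul_of_nonneg_left hcM (by positivity)
    have a2 : |t ^ 2 * e| ≤ |t| * M := by
      rw [abs_mul, abs_of_nonneg he, abs_pow]
      have : |t| ^ 2 ≤ |t| := by nlinarith [abs_nonneg t]
      exact mul_le_mul this heM he (abs_nonneg _)
    calc |2 * t * c + t ^ 2 * e| ≤ |2 * t * c| + |t ^ 2 * e| := abs_add_le _ _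
      _ ≤ _ := by linarith
  have hsq : (2 * t * c + t ^ 2 * e) ^ 2 ≤ 9 * t ^ 2 * M ^ 2 := by
    rw [← sq_abs]
    calc |2 * t * c + t ^ 2 * e| ^ 2 ≤ (3 * |t| * M) ^ 2 := pow_le_pow_left₀ (abs_nonneg _) habs 2
      _ = 9 * |t| ^ 2 * M ^ 2 := by ring
      _ = _ := by rw [sq_abs]
  have hcu : |2 * t * c + t ^ 2 * e| ^ 3 ≤ 27 * t ^ 2 * M ^ 3 := by
    calc |2 * t * c + t ^ 2 * e| ^ 3 ≤ (3 * |t| * M) ^ 3 := pow_le_pow_left₀ (abs_nonneg _) habs 3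
      _ = 27 * (|t| ^ 2 * |t|) * M ^ 3 := by ring
      _ ≤ 27 * (|t| ^ 2 * 1) * M ^ 3 := by gcongr
      _ = _ := by rw [sq_abs]; ring
  have hte : t ^ 2 * e ≤ t ^ 2 * M := mul_le_mul_of_nonneg_left heM (sq_nonneg _)
  have h4 : w ^ 3 ≤ 1 + 3 * t * c + (2 * M + 4 * M ^ 2 + 14 * M ^ 3) * t ^ 2 := by
    have p1 : 0 ≤ t ^ 2 * M := by positivity
    have p2 : 0 ≤ t ^ 2 * M ^ 2 := by positivity
    have p3 : 0 ≤ t ^ 2 * M ^ 3 := by positivity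
    nlinarith
  have h5 : S * w ^ 3 ≤ S * (1 + 3 * t * c + (2 * M + 4 * M ^ 2 + 14 * M ^ 3) * t ^ 2) :=
    mul_le_mul_of_nonneg_left h4 hS
  nlinarith

theorem first_var_abs (hF : AEMeasurable F μ) (hK : AEMeasurable K μ)
    (hA : ∀ᵐ ω ∂μ, ‖F ω‖ ≤ A) (hB : ∀ᵐ ω ∂μ, ‖K ω‖ ≤ B)
    {S ε c e M t : ℝ} (hS : 0 ≤ S) (ht0 : 0 < t) (ht1 : t ≤ 1) (he : 0 ≤ e) (heM : e ≤ M)
    (hcM : |c| ≤ M)
    (hpos : ∀ s : ℝ, 0 ≤ 1 + 2 * s * c + s ^ 2 * e)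
    (hsup : ∀ s : ℝ, ∫ ω, ‖F ω + (s : ℂ) * K ω‖ ^ 3 ∂μ ≤
      S * (Real.sqrt (1 + 2 * s * c + s ^ 2 * e)) ^ 3)
    (hnear : S - ε ≤ ∫ ω, ‖F ω‖ ^ 3 ∂μ) :
    |(∫ ω, ‖F ω‖ * (conj (F ω) * K ω).re ∂μ) - S * c| ≤
      (ε / t + S * (2 * M + 4 * M ^ 2 + 14 * M ^ 3) * t) / 3 := by
  have h1 := first_var_one hF hK hA hB hS (t := t) (by rwa [abs_of_pos ht0]) he heM hcM hpos hsup
    hnear
  have h2 := first_var_one hF hK hA hB hS (t := -t) (by rwa [abs_neg, abs_of_pos ht0]) he heM hcM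
    hpos hsup hnear
  set L := (∫ ω, ‖F ω‖ * (conj (F ω) * K ω).re ∂μ) - S * c with hL
  set D := S * (2 * M + 4 * M ^ 2 + 14 * M ^ 3) with hD
  have e1 : (ε / t + D * t) / 3 = (ε + D * t ^ 2) / (3 * t) := by
    field_simp
  rw [e1, abs_le]
  constructor
  · rw [neg_le, le_div_iff₀ (by positivity)]
    nlinarith
  · rw [le_div_iff₀ (by positivity)]
    nlinarith

/-- second variation with explicit error -/
theorem second_var_abs (hF : AEMeasurable F μ) (hK : AEMeasurable K μ)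
    (hA : ∀ᵐ ω ∂μ, ‖F ω‖ ≤ A) (hB : ∀ᵐ ω ∂μ, ‖K ω‖ ≤ B)
    {S ε c e M t : ℝ} (hS : 0 ≤ S) (ht0 : 0 < t) (ht1 : t ≤ 1) (he : 0 ≤ e) (heM : e ≤ M)
    (hcM : |c| ≤ M)
    (hpos : ∀ s : ℝ, 0 ≤ 1 + 2 * s * c + s ^ 2 * e)
    (hsup : ∀ s : ℝ, ∫ ω, ‖F ω + (s : ℂ) * K ω‖ ^ 3 ∂μ ≤
      S * (Real.sqrt (1 + 2 * s * c + s ^ 2 * e)) ^ 3)
    (hnear : S - ε ≤ ∫ ω, ‖F ω‖ ^ 3 ∂μ) :
    ∫ ω, q3 (F ω) (K ω) ∂μ ≤ S * (e + c ^ 2) +
      (S * (M ^ 2 + 27 * M ^ 3) * t + 2 * ε / t ^ 2) / 3 := by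
  have h1 : 2 * (∫ ω, ‖F ω‖ ^ 3 ∂μ) + 3 * t ^ 2 * (∫ ω, q3 (F ω) (K ω) ∂μ) ≤
      (∫ ω, ‖F ω + (t : ℂ) * K ω‖ ^ 3 ∂μ) + ∫ ω, ‖F ω + ((-t : ℝ) : ℂ) * K ω‖ ^ 3 ∂μ := by
    have i1 := integrable_cube (aem_add t hF hK) (ae_bd_add t hA hB)
    have i2 := integrable_cube (aem_add (-t) hF hK) (ae_bd_add (-t) hA hB)
    rw [← integral_const_mul, ← integral_const_mul, ← integral_add i1 i2,
      ← integral_add ((integrable_cube hF hA).const_mul _)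
        ((integrable_q3 hF hK hA hB).const_mul _)]
    refine integral_mono (((integrable_cube hF hA).const_mul _).add
        ((integrable_q3 hF hK hA hB).const_mul _)) (i1.add i2) ?_
    intro ω
    have h := cube_two_sided (F ω) ((t : ℂ) * K ω)
    rw [q3_smul] at h
    have e : F ω + ((-t : ℝ) : ℂ) * K ω = F ω - (t : ℂ) * K ω := by push_cast; ring
    simp only
    rw [e]
    linarith
  have h2 := hsup t
  have h2' := hsup (-t)
  have hM : 0 ≤ M := he.trans heM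
  set w := Real.sqrt (1 + 2 * t * c + t ^ 2 * e) with hw
  set w' := Real.sqrt (1 + 2 * (-t) * c + (-t) ^ 2 * e) with hw'
  have hw0 : 0 ≤ w := Real.sqrt_nonneg _
  have hw0' : 0 ≤ w' := Real.sqrt_nonneg _
  have hw2 : w ^ 2 = 1 + 2 * t * c + t ^ 2 * e := Real.sq_sqrt (hpos t)
  have hw2' : w' ^ 2 = 1 + 2 * (-t) * c + (-t) ^ 2 * e := Real.sq_sqrt (hpos (-t))
  have h3 := cube_taylor hw0
  have h3' := cube_taylor hw0'
  have hX : w ^ 2 - 1 = 2 * t * c + t ^ 2 * e := by rw [hw2]; ring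
  have hX' : w' ^ 2 - 1 = -(2 * t * c) + t ^ 2 * e := by rw [hw2']; ring
  rw [hX] at h3
  rw [hX'] at h3'
  have a1 : |2 * t * c| ≤ 2 * t * M := by
    rw [abs_mul, abs_mul, abs_of_pos ht0]
    simp only [Nat.abs_ofNat]
    exact mul_le_mul_of_nonneg_left hcM (by positivity)
  have a2 : |t ^ 2 * e| ≤ t * M := by
    rw [abs_mul, abs_of_nonneg he, abs_pow, abs_of_pos ht0]
    have : t ^ 2 ≤ t := by nlinarith
    exact mul_le_mul this heM he ht0.le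
  have habs : |2 * t * c + t ^ 2 * e| ≤ 3 * t * M := by
    calc |2 * t * c + t ^ 2 * e| ≤ |2 * t * c| + |t ^ 2 * e| := abs_add_le _ _
      _ ≤ _ := by linarith
  have habs' : |-(2 * t * c) + t ^ 2 * e| ≤ 3 * t * M := by
    calc |-(2 * t * c) + t ^ 2 * e| ≤ |-(2 * t * c)| + |t ^ 2 * e| := abs_add_le _ _
      _ ≤ _ := by rw [abs_neg]; linarith
  have hcu : |2 * t * c + t ^ 2 * e| ^ 3 ≤ 27 * t ^ 3 * M ^ 3 := by
    calc |2 * t * c + t ^ 2 * e| ^ 3 ≤ (3 * t * M) ^ 3 := pow_le_pow_left₀ (abs_nonneg _) habs 3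
      _ = _ := by ring
  have hcu' : |-(2 * t * c) + t ^ 2 * e| ^ 3 ≤ 27 * t ^ 3 * M ^ 3 := by
    calc |-(2 * t * c) + t ^ 2 * e| ^ 3 ≤ (3 * t * M) ^ 3 :=
          pow_le_pow_left₀ (abs_nonneg _) habs' 3
      _ = _ := by ring
  have he2 : t ^ 4 * e ^ 2 ≤ t ^ 3 * M ^ 2 := by
    have b1 : t ^ 4 ≤ t ^ 3 := by
      have : 0 ≤ t ^ 3 := by positivity
      nlinarith
    have b2 : e ^ 2 ≤ M ^ 2 := pow_le_pow_left₀ he heM 2
    exact mul_le_mul b1 b2 (by positivity) (by positivity)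
  have p2 : 0 ≤ t ^ 3 * M ^ 2 := by positivity
  have h4 : w ^ 3 + w' ^ 3 ≤ 2 + 3 * t ^ 2 * (e + c ^ 2) + t ^ 3 * (M ^ 2 + 27 * M ^ 3) := by
    have e3 : 3 / 8 * (2 * t * c + t ^ 2 * e) ^ 2 + 3 / 8 * (-(2 * t * c) + t ^ 2 * e) ^ 2
        = 3 * (t ^ 2 * c ^ 2) + 3 / 4 * (t ^ 4 * e ^ 2) := by ring
    linarith
  have h5 : S * (w ^ 3 + w' ^ 3) ≤
      S * (2 + 3 * t ^ 2 * (e + c ^ 2) + t ^ 3 * (M ^ 2 + 27 * M ^ 3)) :=
    mul_le_mul_of_nonneg_left h4 hS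
  set Q := ∫ ω, q3 (F ω) (K ω) ∂μ with hQ
  have h6 : 3 * t ^ 2 * Q ≤ S * (3 * t ^ 2 * (e + c ^ 2) + t ^ 3 * (M ^ 2 + 27 * M ^ 3)) + 2 * ε := by
    nlinarith
  have e1 : S * (e + c ^ 2) + (S * (M ^ 2 + 27 * M ^ 3) * t + 2 * ε / t ^ 2) / 3 =
      (S * (3 * t ^ 2 * (e + c ^ 2) + t ^ 3 * (M ^ 2 + 27 * M ^ 3)) + 2 * ε) / (3 * t ^ 2) := by
    field_simp
    ring
  rw [e1, le_div_iff₀ (by positivity)]
  linarith

end Var

end Pool.Agent.Cone5.SV
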