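import Pool.Agent.Work.MP_b0b133_an.D5.SVc

/-!
# First and second variation at near maximisers, with the facts on the energy as hypotheses
-/

set_option autoImplicit false
open MeasureTheory Complex
open scoped ENNReal ComplexConjugate

namespace Pool.Agent.Cone5.SV

variable {μ : Measure C6}

theorem re_integral {f : C6 → ℂ} (hf : Integrable f μ) : (∫ x, f x ∂μ).re = ∫ x, (f x).re ∂μ :=
  (Complex.reCLM.integral_comp_comm hf).symm

theorem im_integral {f : C6 → ℂ} (hf : Integrable f μ) : (∫ x, f x ∂μ).im = ∫ x, (f x).im ∂μ :=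
  (Complex.imCLM.integral_comp_comm hf).symm

theorem aem_ev (P : Poly) : AEMeasurable (fun x => ev P x) μ :=
  (continuous_ev P).measurable.aemeasurable

theorem int_lin_re (hμ : Law μ) (F Q : Poly) :
    (∫ x, (‖ev F x‖ : ℂ) * (conj (ev F x) * ev Q x) ∂μ).re =
      ∫ x, ‖ev F x‖ * (conj (ev F x) * ev Q x).re ∂μ := by
  obtain ⟨C, hC0, hC⟩ := law_bdd hμ F
  obtain ⟨D, hD0, hD⟩ := law_bdd hμ Q
  rw [re_integral]
  · simp only [Complex.re_ofReal_mul]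
  · refine law_int_cont hμ (C := C * (C * D)) ?_ ?_
    · exact (Complex.continuous_ofReal.comp (continuous_ev F).norm).mul
        ((Complex.continuous_conj.comp (continuous_ev F)).mul (continuous_ev Q))
    · filter_upwards [hC, hD] with x h1 h2
      rw [norm_mul, norm_mul, Complex.norm_conj, Complex.norm_real, norm_norm]
      have h3 : ‖ev F x‖ * ‖ev Q x‖ ≤ C * D := mul_le_mul h1 h2 (norm_nonneg _) hC0
      exact mul_le_mul h1 h3 (by positivity) hC0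

theorem first_var_core (hμ : Law μ) (hc : ∀ P Q, EB μ P Q = EB μ Q P) (hn : ∀ P, 0 ≤ En μ P)
    (S : ℝ) (hS : 1 ≤ S) (hmax : ∀ P ∈ HP, I3 μ P ≤ S * En μ P ^ (3 / 2 : ℝ)) (M : ℝ) :
    ∃ C : ℝ, 0 ≤ C ∧ ∀ F ∈ HP, ∀ Q ∈ HP, ∀ ε : ℝ, 0 < ε → ε ≤ 1 → En μ F = 1 → En μ Q ≤ M →
      S - ε ≤ I3 μ F →
      |(∫ x, (‖ev F x‖ : ℂ) * (conj (ev F x) * ev Q x) ∂μ).re - S * EB μ F Q| ≤
        C * ε ^ (1 / 2 : ℝ) := by
  have := hμ.prob
  set M' : ℝ := 1 + |M| with hM'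
  have hM0 : 0 ≤ M' := by positivity
  refine ⟨(1 + S * (2 * M' + 4 * M' ^ 2 + 14 * M' ^ 3)) / 3, by positivity, ?_⟩
  intro F hF Q hQ ε he0 he1 h1 hQM hnear
  obtain ⟨A, hA0, hA⟩ := law_bdd hμ F
  obtain ⟨B, hB0, hB⟩ := law_bdd hμ Q
  have hs : Real.sqrt ε ≤ 1 := Real.sqrt_le_one.2 he1
  have hs0 : 0 < Real.sqrt ε := Real.sqrt_pos.2 he0
  have heM : En μ Q ≤ M' := by
    have := le_abs_self M
    linarith
  have hcM : |EB μ F Q| ≤ M' := by
    have h2 := abs_EB_le hμ hc hn (Q := Q) h1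
    have := le_abs_self M
    linarith
  have h2 := first_var_abs (aem_ev F) (aem_ev Q) hA hB (t := Real.sqrt ε) (zero_le_one.trans hS)
    hs0 hs (hn Q) heM hcM (fun s => (sup_line hμ hc hn hmax hF hQ h1 s).1)
    (fun s => (sup_line hμ hc hn hmax hF hQ h1 s).2) hnear
  rw [int_lin_re hμ]
  refine h2.trans (le_of_eq ?_)
  rw [← Real.sqrt_eq_rpow]
  have h3 : ε / Real.sqrt ε = Real.sqrt ε := Real.div_sqrt
  rw [h3]
  ring

/-- Cauchy-Schwarz with the weight `‖F‖` -/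
theorem cs_weight [IsProbabilityMeasure μ] {f z : C6 → ℝ} (hf : AEMeasurable f μ)
    (hz : AEMeasurable z μ)
    (hf0 : ∀ x, 0 ≤ f x) (hz0 : ∀ x, 0 ≤ z x) {A B : ℝ} (hA : ∀ᵐ x ∂μ, f x ≤ A)
    (hB : ∀ᵐ x ∂μ, z x ≤ B * f x) (hA0 : 0 ≤ A) (hB0 : 0 ≤ B) (hpos : 0 < ∫ x, f x ^ 3 ∂μ) :
    (∫ x, f x * z x ∂μ) ^ 2 ≤ (∫ x, f x ^ 3 ∂μ) * ∫ x, z x ^ 2 / f x ∂μ := by
  have i1 : Integrable (fun x => f x ^ 3) μ := by
    refine Integrable.of_bound (hf.pow_const 3).aestronglyMeasurable (A ^ 3) ?_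
    filter_upwards [hA] with x h1
    rw [Real.norm_eq_abs, abs_of_nonneg (pow_nonneg (hf0 x) 3)]
    exact pow_le_pow_left₀ (hf0 x) h1 3
  have i2 : Integrable (fun x => z x ^ 2 / f x) μ := by
    refine Integrable.of_bound ((hz.pow_const 2).div hf).aestronglyMeasurable (B ^ 2 * A) ?_
    filter_upwards [hA, hB] with x h1 h2
    rw [Real.norm_eq_abs, abs_of_nonneg (div_nonneg (sq_nonneg _) (hf0 x))]
    rcases (hf0 x).eq_or_lt with h0 | h0
    · rw [← h0]; simp; positivity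
    · rw [div_le_iff₀ h0]
      have h3 : z x ^ 2 ≤ (B * f x) ^ 2 := pow_le_pow_left₀ (hz0 x) h2 2
      have h4 : f x * f x ≤ A * f x := mul_le_mul_of_nonneg_right h1 (hf0 x)
      calc z x ^ 2 ≤ (B * f x) ^ 2 := h3
        _ = B ^ 2 * (f x * f x) := by ring
        _ ≤ B ^ 2 * (A * f x) := mul_le_mul_of_nonneg_left h4 (sq_nonneg _)
        _ = _ := by ring
  have i3 : Integrable (fun x => f x * z x) μ := by
    refine Integrable.of_bound (hf.mul hz).aestronglyMeasurable (A * (B * A)) ?_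
    filter_upwards [hA, hB] with x h1 h2
    rw [Real.norm_eq_abs, abs_of_nonneg (mul_nonneg (hf0 x) (hz0 x))]
    have h3 : z x ≤ B * A := h2.trans (mul_le_mul_of_nonneg_left h1 hB0)
    exact mul_le_mul h1 h3 (hz0 x) hA0
  set a := ∫ x, f x * z x ∂μ with ha
  set P := ∫ x, f x ^ 3 ∂μ with hP
  set Q := ∫ x, z x ^ 2 / f x ∂μ with hQ
  have ha0 : 0 ≤ a := integral_nonneg fun x => mul_nonneg (hf0 x) (hz0 x)
  have hQ0 : 0 ≤ Q := integral_nonneg fun x => div_nonneg (sq_nonneg _) (hf0 x)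
  rcases ha0.eq_or_lt with h0 | h0
  · rw [← h0]
    have : 0 ≤ P * Q := mul_nonneg hpos.le hQ0
    simpa using this
  · set l := a / P with hl
    have hl0 : 0 < l := div_pos h0 hpos
    have h1 : 2 * a ≤ l * P + l⁻¹ * Q := by
      rw [hP, hQ, ha, ← integral_const_mul, ← integral_const_mul, ← integral_const_mul,
        ← integral_add (i1.const_mul _) (i2.const_mul _)]
      refine integral_mono_ae (i3.const_mul _) ((i1.const_mul _).add (i2.const_mul _)) ?_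
      filter_upwards [hB] with x h2
      rcases (hf0 x).eq_or_lt with h3 | h3
      · rw [← h3] at h2 ⊢
        have : z x = 0 := le_antisymm (by simpa using h2) (hz0 x)
        simp [this]
      · have e : l * f x ^ 3 + l⁻¹ * (z x ^ 2 / f x) - 2 * (f x * z x) =
            (l * f x ^ 2 - z x) ^ 2 / (l * f x) := by
          field_simp
          ring
        have h4 : 0 ≤ (l * f x ^ 2 - z x) ^ 2 / (l * f x) := by positivity
        linarith
    have h2 : l * P = a := div_mul_cancel₀ _ hpos.ne'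
    rw [h2] at h1
    have h3 : l⁻¹ = P / a := by rw [hl, inv_div]
    rw [h3] at h1
    have h4 : a ≤ P / a * Q := by linarith
    have h5 : P / a * Q = P * Q / a := by ring
    rw [h5, le_div_iff₀ h0] at h4
    nlinarith

/-- bound of `S (c² + c'²)` -/
theorem c_bound {S M δ ε A B c c' L L' : ℝ} {Λ W : ℂ} (hS : 1 ≤ S) (hM : 0 ≤ M) (hδ : 0 ≤ δ)
    (hε : 0 ≤ ε) (h1 : |L - S * c| ≤ δ) (h2 : |L' - S * c'| ≤ δ) (h3 : |c| ≤ M) (h4 : |c'| ≤ M)
    (hL : L = Λ.re) (hL' : L' = -Λ.im) (hΛ : ‖Λ - W‖ ≤ 2 * ε) (hW : ‖W‖ ^ 2 ≤ A * B)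
    (hA : A ≤ S) (hB : 0 ≤ B) :
    S * (c ^ 2 + c' ^ 2) ≤ B + (4 * δ * (S * M + δ) + 2 * δ ^ 2 +
      4 * ε * (2 * (S * M + δ) + 2 * ε) + 4 * ε ^ 2) := by
  have hS0 : 0 < S := by linarith
  have a1 : |L| ≤ S * M + δ := by
    calc |L| = |(L - S * c) + S * c| := by ring_nf
      _ ≤ |L - S * c| + |S * c| := abs_add_le _ _
      _ ≤ δ + S * M := by
        rw [abs_mul, abs_of_pos hS0]
        have := mul_le_mul_of_nonneg_left h3 hS0.le
        linarith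
      _ = _ := by ring
  have a2 : |L'| ≤ S * M + δ := by
    calc |L'| = |(L' - S * c') + S * c'| := by ring_nf
      _ ≤ |L' - S * c'| + |S * c'| := abs_add_le _ _
      _ ≤ δ + S * M := by
        rw [abs_mul, abs_of_pos hS0]
        have := mul_le_mul_of_nonneg_left h4 hS0.le
        linarith
      _ = _ := by ring
  have a3 : (S * c) ^ 2 ≤ L ^ 2 + 2 * δ * (S * M + δ) + δ ^ 2 := by
    have b1 : |S * c| ≤ |L| + δ := by
      calc |S * c| = |L - (L - S * c)| := by ring_nf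
        _ ≤ |L| + |L - S * c| := abs_sub _ _
        _ ≤ _ := by linarith
    calc (S * c) ^ 2 = |S * c| ^ 2 := (sq_abs _).symm
      _ ≤ (|L| + δ) ^ 2 := pow_le_pow_left₀ (abs_nonneg _) b1 2
      _ = L ^ 2 + 2 * δ * |L| + δ ^ 2 := by rw [add_sq, sq_abs]; ring
      _ ≤ _ := by
        have := mul_le_mul_of_nonneg_left a1 (by positivity : 0 ≤ 2 * δ)
        linarith
  have a4 : (S * c') ^ 2 ≤ L' ^ 2 + 2 * δ * (S * M + δ) + δ ^ 2 := by
    have b1 : |S * c'| ≤ |L'| + δ := by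
      calc |S * c'| = |L' - (L' - S * c')| := by ring_nf
        _ ≤ |L'| + |L' - S * c'| := abs_sub _ _
        _ ≤ _ := by linarith
    calc (S * c') ^ 2 = |S * c'| ^ 2 := (sq_abs _).symm
      _ ≤ (|L'| + δ) ^ 2 := pow_le_pow_left₀ (abs_nonneg _) b1 2
      _ = L' ^ 2 + 2 * δ * |L'| + δ ^ 2 := by rw [add_sq, sq_abs]; ring
      _ ≤ _ := by
        have := mul_le_mul_of_nonneg_left a2 (by positivity : 0 ≤ 2 * δ)
        linarith
  have a5 : L ^ 2 + L' ^ 2 = ‖Λ‖ ^ 2 := by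
    rw [hL, hL', Complex.sq_norm, Complex.normSq_apply]; ring
  have a6 : ‖Λ‖ ≤ 2 * (S * M + δ) := by
    have := Complex.norm_le_abs_re_add_abs_im Λ
    rw [← hL] at this
    have e : |Λ.im| = |L'| := by rw [hL', abs_neg]
    rw [e] at this
    linarith
  have a7 : ‖W‖ ≤ 2 * (S * M + δ) + 2 * ε := by
    calc ‖W‖ = ‖Λ - (Λ - W)‖ := by ring_nf
      _ ≤ ‖Λ‖ + ‖Λ - W‖ := norm_sub_le _ _
      _ ≤ _ := by linarith
  have a8 : ‖Λ‖ ≤ ‖W‖ + 2 * ε := by
    calc ‖Λ‖ = ‖W + (Λ - W)‖ := by ring_nf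
      _ ≤ ‖W‖ + ‖Λ - W‖ := norm_add_le _ _
      _ ≤ _ := by linarith
  have a9 : ‖Λ‖ ^ 2 ≤ ‖W‖ ^ 2 + 4 * ε * (2 * (S * M + δ) + 2 * ε) + 4 * ε ^ 2 := by
    calc ‖Λ‖ ^ 2 ≤ (‖W‖ + 2 * ε) ^ 2 := pow_le_pow_left₀ (norm_nonneg _) a8 2
      _ = ‖W‖ ^ 2 + 4 * ε * ‖W‖ + 4 * ε ^ 2 := by ring
      _ ≤ _ := by
        have := mul_le_mul_of_nonneg_left a7 (by positivity : 0 ≤ 4 * ε)
        linarith
  have a10 : A * B ≤ S * B := mul_le_mul_of_nonneg_right hA hB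
  set E := 4 * δ * (S * M + δ) + 2 * δ ^ 2 + 4 * ε * (2 * (S * M + δ) + 2 * ε) + 4 * ε ^ 2 with hE
  have hE0 : 0 ≤ E := by positivity
  have a11 : S * (S * (c ^ 2 + c' ^ 2)) ≤ S * B + E := by
    have e : S * (S * (c ^ 2 + c' ^ 2)) = (S * c) ^ 2 + (S * c') ^ 2 := by ring
    rw [e]
    linarith
  have a12 : S * B + E ≤ S * (B + E) := by nlinarith
  exact le_of_mul_le_mul_left (a11.trans a12) hS0

end Pool.Agent.Cone5.SV
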