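import Pool.Agent.Work.MP_b0b133_an.D5.SVd

/-!
# The inequality (I), with the facts on the energy as hypotheses
-/

set_option autoImplicit false
open MeasureTheory Complex
open scoped ENNReal ComplexConjugate

namespace Pool.Agent.Cone5.SV

variable {μ : Measure C6}

theorem mem_ball_of_sum {x : C6} (hx : ∑ j, ‖x j‖ ^ 2 = 1) : x ∈ Metric.closedBall (0 : C6) 1 := by
  rw [mem_closedBall_zero_iff, pi_norm_le_iff_of_nonneg zero_le_one]
  intro j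
  have h1 : ‖x j‖ ^ 2 ≤ 1 := by
    rw [← hx]
    exact Finset.single_le_sum (f := fun j => ‖x j‖ ^ 2) (fun _ _ => sq_nonneg _)
      (Finset.mem_univ j)
  nlinarith [norm_nonneg (x j)]

theorem law_bdd_cont {E : Type*} [NormedAddCommGroup E] (hμ : Law μ) {g : C6 → E}
    (hg : Continuous g) : ∃ C : ℝ, 0 ≤ C ∧ ∀ᵐ x ∂μ, ‖g x‖ ≤ C := by
  obtain ⟨C, hC⟩ := (isCompact_closedBall (0 : C6) 1).exists_bound_of_continuousOn hg.continuousOn
  refine ⟨max C 0, le_max_right _ _, ?_⟩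
  filter_upwards [hμ.supp] with x hx
  exact (hC x (mem_ball_of_sum hx.1)).trans (le_max_left _ _)

theorem law_integrable_real (hμ : Law μ) {g : C6 → ℝ} (hg : Continuous g) : Integrable g μ := by
  have := hμ.prob
  obtain ⟨C, _, hC⟩ := law_bdd_cont hμ hg
  exact Integrable.of_bound hg.aestronglyMeasurable C hC

theorem law_integrable_complex (hμ : Law μ) {g : C6 → ℂ} (hg : Continuous g) :
    Integrable g μ := by
  have := hμ.prob
  obtain ⟨C, _, hC⟩ := law_bdd_cont hμ hg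
  exact Integrable.of_bound hg.aestronglyMeasurable C hC

/-- `∑ x_k²` -/
noncomputable def sx (x : C6) : ℂ := ∑ k, x k ^ 2

theorem continuous_sx : Continuous sx := by
  unfold sx
  fun_prop

/-- `U_j = x_j F - s ∂_j ψ` -/
noncomputable def Uf (ψ : Poly) (j : Fin 6) (x : C6) : ℂ :=
  x j * ev (AP ψ) x - sx x * ev (MvPolynomial.pderiv j ψ) x

theorem continuous_Uf (ψ : Poly) (j : Fin 6) : Continuous (Uf ψ j) := by
  unfold Uf
  exact ((continuous_apply j).mul (continuous_ev _)).sub (continuous_sx.mul (continuous_ev _))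

/-- `Z_j` -/
noncomputable def Zx (ψ : Poly) (j : Fin 6) (x : C6) : ℂ := Zf (sx x) (ev (AP ψ) x) (Uf ψ j x)

theorem continuous_Zx (ψ : Poly) (j : Fin 6) : Continuous (Zx ψ j) := by
  unfold Zx Zf
  exact ((Complex.continuous_conj.comp (continuous_ev _)).mul (continuous_Uf ψ j)).sub
    ((continuous_sx.mul (continuous_ev _)).mul (Complex.continuous_conj.comp (continuous_Uf ψ j)))

theorem norm_Zx_le {x : C6} (h : ‖sx x‖ = 1) (ψ : Poly) (j : Fin 6) :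
    ‖Zx ψ j x‖ ≤ 2 * ‖Uf ψ j x‖ * ‖ev (AP ψ) x‖ := by
  unfold Zx Zf
  refine (norm_sub_le _ _).trans ?_
  rw [norm_mul, norm_mul, norm_mul, Complex.norm_conj, Complex.norm_conj, h]
  linarith [mul_comm ‖ev (AP ψ) x‖ ‖Uf ψ j x‖]

/-- the first test direction -/
noncomputable def K1 (ψ : Poly) (j : Fin 6) : Poly := MvPolynomial.pderiv j ψ + RP j ψ

/-- the second test direction -/
noncomputable def K2 (ψ : Poly) (j : Fin 6) : Poly := (I : ℂ) • (RP j ψ - MvPolynomial.pderiv j ψ)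

theorem ev_K1 (ψ : Poly) (j : Fin 6) (x : C6) :
    ev (K1 ψ j) x = ev (MvPolynomial.pderiv j ψ) x +
      (2 * x j * ev (AP ψ) x - sx x * ev (MvPolynomial.pderiv j ψ) x) := by
  rw [K1, ev_add, ev_RP, sx]

theorem ev_K2 (ψ : Poly) (j : Fin 6) (x : C6) :
    ev (K2 ψ j) x = I * ((2 * x j * ev (AP ψ) x - sx x * ev (MvPolynomial.pderiv j ψ) x) -
      ev (MvPolynomial.pderiv j ψ) x) := by
  rw [K2, ev_smul, ev_sub, ev_RP, sx]

/-- what the support gives -/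
theorem law_supp' (hμ : Law μ) :
    ∀ᵐ x ∂μ, ∑ j, ‖x j‖ ^ 2 = 1 ∧ (∀ j, sx x * conj (x j) = x j) ∧ ‖sx x‖ = 1 := by
  filter_upwards [hμ.supp] with x hx
  exact ⟨hx.1, hx.2, norm_s hx.1 hx.2⟩

theorem q3_ae (hμ : Law μ) (ψ : Poly) : ∀ᵐ x ∂μ, ∀ j,
    q3 (ev (AP ψ) x) (ev (K1 ψ j) x) + q3 (ev (AP ψ) x) (ev (K2 ψ j) x) =
      8 * (‖x j‖ ^ 2 * ‖ev (AP ψ) x‖ ^ 3) + 4 * (‖ev (AP ψ) x‖ * ‖Uf ψ j x‖ ^ 2) +
        ‖Zx ψ j x‖ ^ 2 / ‖ev (AP ψ) x‖ := by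
  filter_upwards [law_supp' hμ] with x hx j
  rw [ev_K1, ev_K2, q3_pair hx.1 hx.2.1]
  rfl

theorem integrable_Z2 (hμ : Law μ) (ψ : Poly) (j : Fin 6) :
    Integrable (fun x => ‖Zx ψ j x‖ ^ 2 / ‖ev (AP ψ) x‖) μ := by
  have := hμ.prob
  obtain ⟨C, hC0, hC⟩ := law_bdd_cont hμ (continuous_Uf ψ j)
  obtain ⟨D, hD0, hD⟩ := law_bdd_cont hμ (continuous_ev (AP ψ))
  refine Integrable.of_bound
    (((continuous_Zx ψ j).norm.pow 2).measurable.aemeasurable.div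
      (continuous_ev (AP ψ)).norm.measurable.aemeasurable).aestronglyMeasurable (4 * C ^ 2 * D) ?_
  filter_upwards [law_supp' hμ, hC, hD] with x hx h1 h2
  rw [Real.norm_eq_abs, abs_of_nonneg (by positivity)]
  rcases (norm_nonneg (ev (AP ψ) x)).eq_or_lt with h0 | h0
  · rw [← h0]; simp; positivity
  · rw [div_le_iff₀ h0]
    have h3 := norm_Zx_le hx.2.2 ψ j
    calc ‖Zx ψ j x‖ ^ 2 ≤ (2 * ‖Uf ψ j x‖ * ‖ev (AP ψ) x‖) ^ 2 :=
          pow_le_pow_left₀ (norm_nonneg _) h3 2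
      _ = 4 * ‖Uf ψ j x‖ ^ 2 * ‖ev (AP ψ) x‖ * ‖ev (AP ψ) x‖ := by ring
      _ ≤ 4 * C ^ 2 * D * ‖ev (AP ψ) x‖ := by gcongr

/-- the sum of the second variation densities -/
theorem sum_q3 (hμ : Law μ) (ψ : Poly) :
    ∑ j, ((∫ x, q3 (ev (AP ψ) x) (ev (K1 ψ j) x) ∂μ) + ∫ x, q3 (ev (AP ψ) x) (ev (K2 ψ j) x) ∂μ) =
      8 * I3 μ (AP ψ) + 4 * (∫ x, ‖ev (AP ψ) x‖ * G2 ψ x ∂μ) +
        ∑ j, ∫ x, ‖Zx ψ j x‖ ^ 2 / ‖ev (AP ψ) x‖ ∂μ := by
  have := hμ.prob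
  obtain ⟨A, hA0, hA⟩ := law_bdd hμ (AP ψ)
  have i1 : ∀ j : Fin 6, Integrable (fun x : C6 => ‖x j‖ ^ 2 * ‖ev (AP ψ) x‖ ^ 3) μ := fun j =>
    law_integrable_real hμ (((continuous_apply j).norm.pow 2).mul ((continuous_ev _).norm.pow 3))
  have i2 : ∀ j : Fin 6, Integrable (fun x : C6 => ‖ev (AP ψ) x‖ * ‖Uf ψ j x‖ ^ 2) μ := fun j =>
    law_integrable_real hμ ((continuous_ev _).norm.mul ((continuous_Uf ψ j).norm.pow 2))
  have h1 : ∀ j : Fin 6,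
      (∫ x, q3 (ev (AP ψ) x) (ev (K1 ψ j) x) ∂μ) + ∫ x, q3 (ev (AP ψ) x) (ev (K2 ψ j) x) ∂μ =
        8 * (∫ x, ‖x j‖ ^ 2 * ‖ev (AP ψ) x‖ ^ 3 ∂μ) +
          4 * (∫ x, ‖ev (AP ψ) x‖ * ‖Uf ψ j x‖ ^ 2 ∂μ) +
            ∫ x, ‖Zx ψ j x‖ ^ 2 / ‖ev (AP ψ) x‖ ∂μ := by
    intro j
    obtain ⟨B, _, hB⟩ := law_bdd hμ (K1 ψ j)
    obtain ⟨B', _, hB'⟩ := law_bdd hμ (K2 ψ j)
    have i12 : Integrable (fun x : C6 => 8 * (‖x j‖ ^ 2 * ‖ev (AP ψ) x‖ ^ 3) +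
        4 * (‖ev (AP ψ) x‖ * ‖Uf ψ j x‖ ^ 2)) μ := ((i1 j).const_mul 8).add ((i2 j).const_mul 4)
    rw [← integral_add (integrable_q3 (aem_ev _) (aem_ev _) hA hB)
        (integrable_q3 (aem_ev _) (aem_ev _) hA hB'),
      ← integral_const_mul, ← integral_const_mul,
      ← integral_add ((i1 j).const_mul 8) ((i2 j).const_mul 4),
      ← integral_add i12 (integrable_Z2 hμ ψ j)]
    refine integral_congr_ae ?_
    filter_upwards [q3_ae hμ ψ] with x hx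
    exact hx j
  rw [Finset.sum_congr rfl fun j _ => h1 j, Finset.sum_add_distrib, Finset.sum_add_distrib,
    ← Finset.mul_sum, ← Finset.mul_sum, ← integral_finsetSum _ fun j _ => i1 j,
    ← integral_finsetSum _ fun j _ => i2 j]
  congr 2
  · congr 1
    unfold I3
    refine integral_congr_ae ?_
    filter_upwards [law_supp' hμ] with x hx
    rw [← Finset.sum_mul, hx.1, one_mul]
  · congr 1
    refine integral_congr_ae ?_
    filter_upwards [law_supp' hμ] with x hx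
    rw [← Finset.mul_sum]
    congr 1
    exact G2_eq hx.1 hx.2.1 ψ

/-- the linear functional -/
theorem lam_eq (hμ : Law μ) (ψ : Poly) (j : Fin 6) :
    ∃ Λ W : ℂ, (∫ x, (‖ev (AP ψ) x‖ : ℂ) * (conj (ev (AP ψ) x) * ev (K1 ψ j) x) ∂μ).re = Λ.re ∧
      (∫ x, (‖ev (AP ψ) x‖ : ℂ) * (conj (ev (AP ψ) x) * ev (K2 ψ j) x) ∂μ).re = -Λ.im ∧
      Λ - W = 2 * ∫ x, x j * ((‖ev (AP ψ) x‖ ^ 3 : ℝ) : ℂ) ∂μ ∧
      ‖W‖ ≤ ∫ x, ‖ev (AP ψ) x‖ * ‖Zx ψ j x‖ ∂μ := by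
  have cF : Continuous (fun x => (‖ev (AP ψ) x‖ : ℂ)) :=
    Complex.continuous_ofReal.comp (continuous_ev _).norm
  have c1 : Continuous (fun x => x j * ((‖ev (AP ψ) x‖ ^ 3 : ℝ) : ℂ)) :=
    (continuous_apply j).mul (Complex.continuous_ofReal.comp ((continuous_ev _).norm.pow 3))
  have i1 := law_integrable_complex hμ c1
  have i2 : Integrable (fun x => (‖ev (AP ψ) x‖ : ℂ) * Zx ψ j x) μ :=
    law_integrable_complex hμ (cF.mul (continuous_Zx ψ j))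
  have i3 : Integrable (fun x => 2 * (x j * ((‖ev (AP ψ) x‖ ^ 3 : ℝ) : ℂ)) +
      (‖ev (AP ψ) x‖ : ℂ) * Zx ψ j x) μ := (i1.const_mul 2).add i2
  refine ⟨∫ x, (2 * (x j * ((‖ev (AP ψ) x‖ ^ 3 : ℝ) : ℂ)) + (‖ev (AP ψ) x‖ : ℂ) * Zx ψ j x) ∂μ,
    ∫ x, (‖ev (AP ψ) x‖ : ℂ) * Zx ψ j x ∂μ, ?_, ?_, ?_, ?_⟩
  · rw [int_lin_re hμ, re_integral i3]
    refine integral_congr_ae ?_
    filter_upwards [law_supp' hμ] with x hx
    have h1 := lam_pt hx.1 hx.2.1 (ev (AP ψ) x) (ev (MvPolynomial.pderiv j ψ) x) j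
    have h2 : 2 * (x j * ((‖ev (AP ψ) x‖ ^ 3 : ℝ) : ℂ)) + (‖ev (AP ψ) x‖ : ℂ) * Zx ψ j x =
        (‖ev (AP ψ) x‖ : ℂ) * (conj (ev (AP ψ) x) *
          (2 * x j * ev (AP ψ) x - sx x * ev (MvPolynomial.pderiv j ψ) x) +
          ev (AP ψ) x * conj (ev (MvPolynomial.pderiv j ψ) x)) := by
      rw [h1, Zx, Uf]
      push_cast
      ring
    rw [h2, Complex.re_ofReal_mul, ev_K1]
    congr 1
    rw [mul_add, Complex.add_re, Complex.add_re, add_comm]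
    congr 1
    simp
  · rw [int_lin_re hμ, im_integral i3, ← integral_neg]
    refine integral_congr_ae ?_
    filter_upwards [law_supp' hμ] with x hx
    have h1 := lam_pt hx.1 hx.2.1 (ev (AP ψ) x) (ev (MvPolynomial.pderiv j ψ) x) j
    have h2 : 2 * (x j * ((‖ev (AP ψ) x‖ ^ 3 : ℝ) : ℂ)) + (‖ev (AP ψ) x‖ : ℂ) * Zx ψ j x =
        (‖ev (AP ψ) x‖ : ℂ) * (conj (ev (AP ψ) x) *
          (2 * x j * ev (AP ψ) x - sx x * ev (MvPolynomial.pderiv j ψ) x) +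
          ev (AP ψ) x * conj (ev (MvPolynomial.pderiv j ψ) x)) := by
      rw [h1, Zx, Uf]
      push_cast
      ring
    rw [h2, Complex.im_ofReal_mul, ev_K2, ← mul_neg]
    congr 1
    generalize 2 * x j * ev (AP ψ) x - sx x * ev (MvPolynomial.pderiv j ψ) x = R
    generalize ev (AP ψ) x = F
    generalize ev (MvPolynomial.pderiv j ψ) x = ρ
    simp
    ring
  · rw [integral_add (i1.const_mul 2) i2, integral_const_mul]
    ring
  · refine (norm_integral_le_integral_norm _).trans (le_of_eq ?_)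
    refine integral_congr_ae (Filter.Eventually.of_forall fun x => ?_)
    simp only
    rw [norm_mul, Complex.norm_real, norm_norm]

end Pool.Agent.Cone5.SV
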