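import Pool.Agent.Work.MP_b0b133_an.D5.C0

/-!
# Change of measure between space-time and the compactification
-/

set_option autoImplicit false
open MeasureTheory Complex
open scoped ENNReal ComplexConjugate

namespace Pool.Agent.Cone5

theorem U3_integral_mM0 {E : Type*} [NormedAddCommGroup E] [NormedSpace ℝ E] (g : R6 → E) :
    ∫ a, g a ∂mM0 = ∫ a, (‖w a‖ ^ (-6 : ℝ)) • g a := by
  have h : mM0 = (volume : Measure R6).withDensity C0_dens := rfl
  rw [h, integral_withDensity_eq_integral_toReal_smul C0_measurable_dens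
      (Filter.Eventually.of_forall fun a => ENNReal.ofReal_lt_top)]
  refine integral_congr_ae (Filter.Eventually.of_forall fun a => ?_)
  simp only [C0_dens]
  rw [ENNReal.toReal_ofReal (Real.rpow_nonneg (norm_nonneg _) _)]

theorem U3_integral_mM {E : Type*} [NormedAddCommGroup E] [NormedSpace ℝ E] (g : R6 → E) :
    ∫ a, g a ∂mM = ((mM0 Set.univ).toReal)⁻¹ • ∫ a, (‖w a‖ ^ (-6 : ℝ)) • g a := by
  rw [← U3_integral_mM0, mM, integral_smul_measure, ENNReal.toReal_inv]

theorem U3_mass_pos : 0 < (mM0 Set.univ).toReal := ENNReal.toReal_pos mM0_univ.1 mM0_univ.2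

theorem U3_integral_vol {E : Type*} [NormedAddCommGroup E] [NormedSpace ℝ E] (g : R6 → E) :
    ∫ a, (‖w a‖ ^ (-6 : ℝ)) • g a = (mM0 Set.univ).toReal • ∫ a, g a ∂mM := by
  rw [U3_integral_mM, smul_smul, mul_inv_cancel₀ U3_mass_pos.ne', one_smul]

theorem U3_norm_toM (u : R6 → ℂ) (a : R6) : ‖toM u a‖ = ‖w a‖ ^ 2 * ‖u a‖ := by
  rw [toM, norm_mul, norm_pow]

theorem U3_norm_toM_rpow (u : R6 → ℂ) (a : R6) :
    ‖w a‖ ^ (-6 : ℝ) * ‖toM u a‖ ^ 3 = ‖u a‖ ^ 3 := by
  have hw := C0_norm_w_pos a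
  rw [U3_norm_toM, Real.rpow_neg hw.le, mul_pow, ← mul_assoc]
  have h : ‖w a‖ ^ (6 : ℝ) = (‖w a‖ ^ 2) ^ 3 := by
    rw [← pow_mul, ← Real.rpow_natCast]
    norm_num
  rw [h, inv_mul_cancel₀ (by positivity), one_mul]

/-- U3 : change of measure -/
theorem integral_toM (u : R6 → ℂ) (hu : AEStronglyMeasurable u volume) :
    ∫ a, ‖u a‖ ^ 3 = (mM0 Set.univ).toReal * ∫ a, ‖toM u a‖ ^ 3 ∂mM := by
  have h := U3_integral_vol fun a => ‖toM u a‖ ^ 3
  simp only [smul_eq_mul, U3_norm_toM_rpow] at h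
  exact h

theorem integral_X_toM (u : R6 → ℂ) (hu : AEStronglyMeasurable u volume) (j : Fin 6) :
    ∫ a, X j a * (‖u a‖ ^ 3 : ℝ) =
      ((mM0 Set.univ).toReal : ℂ) * ∫ a, X j a * (‖toM u a‖ ^ 3 : ℝ) ∂mM := by
  have h := U3_integral_vol fun a => X j a * (‖toM u a‖ ^ 3 : ℝ)
  rw [← Complex.real_smul, ← h]
  refine integral_congr_ae (Filter.Eventually.of_forall fun a => ?_)
  simp only
  rw [← U3_norm_toM_rpow u a, Complex.real_smul]
  push_cast
  ring

theorem U3_ac : mM ≪ (volume : Measure R6) := by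
  have h : mM0 ≪ (volume : Measure R6) := withDensity_absolutelyContinuous _ _
  exact h.smul_left _

theorem U3_ac' : (volume : Measure R6) ≪ mM := by
  have h : (volume : Measure R6) ≪ mM0 := by
    refine withDensity_absolutelyContinuous' C0_measurable_dens.aemeasurable ?_
    refine Filter.Eventually.of_forall fun a => ?_
    exact (ENNReal.ofReal_pos.2 (Real.rpow_pos_of_pos (C0_norm_w_pos a) _)).ne'
  have h2 : mM0 ≪ mM := by
    refine Measure.AbsolutelyContinuous.mk fun s hs h0 => ?_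
    rw [mM, Measure.smul_apply, smul_eq_mul, mul_eq_zero] at h0
    rcases h0 with h0 | h0
    · exact absurd (ENNReal.inv_eq_zero.1 h0) mM0_univ.2
    · exact h0
  exact h.trans h2

theorem U3_measurable_cpow : Measurable fun a : R6 => (w a) ^ 2 :=
  (C0_continuous_w.measurable).pow_const _

theorem U3_toM_aesm (u : R6 → ℂ) (hu : AEStronglyMeasurable u volume) :
    AEStronglyMeasurable (toM u) mM :=
  (U3_measurable_cpow.aestronglyMeasurable.mul hu).mono_ac U3_ac

end Pool.Agent.Cone5
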